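import Pool.Agent.Lib.KV.Q.Theta
import Pool.Agent.Lib.KV.Q.Adj
import Pool.Agent.Lib.KV.Q.Dich
import Pool.Agent.Lib.KV.Q.NowD
import Pool.Agent.Lib.KV.Q.AlgF
import Pool.Agent.Lib.KV.Q.AllZ
import Pool.Agent.Lib.KV.Q.Prem
import Pool.Agent.Lib.KV.Q.SgT
import Pool.Agent.Lib.KV.Q.NewZ
import Pool.Agent.Lib.KV.Q.StepL
import Pool.Agent.Lib.KV.Q.TSrec
import Pool.Agent.Lib.KV.Q.TS1
import Pool.Agent.Lib.KV.Q.TSn
import Pool.Agent.Lib.KV.Q.Bai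
import Pool.Agent.Lib.KV.Q.Cnt
import Pool.Agent.Lib.KV.Q.Ana1
import Pool.Agent.Lib.KV.Q.AnaV
import Pool.Agent.Lib.KV.Q.DL
import Pool.Agent.Lib.KV.Q.ContF
import Pool.Agent.Lib.KV.Q.Dini
import Pool.Agent.Lib.KV.Q.DirF
import Pool.Agent.Lib.KV.Q.GenP
import Pool.Agent.Lib.KV.Q.PLip
import Pool.Agent.Lib.KV.Q.LipS
import Pool.Agent.Lib.KV.Q.LipT
import Pool.Agent.Lib.KV.Q.LipV
import Pool.Agent.Lib.KV.Q.NullZ
import Pool.Agent.Lib.KV.Q.Sel1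
import Pool.Agent.Lib.KV.Q.Sel
import Pool.Agent.Lib.KV.M.NN
import Pool.Agent.Lib.KV.M.CTa
import Pool.Agent.Lib.KV.M.CTc
import Pool.Agent.Lib.KV.M.CTl
import Pool.Agent.Lib.KV.M.CTr
import Pool.Agent.Lib.KV.M.CTb
import Pool.Agent.Lib.KV.M.CT2
import Pool.Agent.Lib.KV.M.QQ
import Pool.Agent.Lib.KV.M.Bis
import Pool.Agent.Lib.KV.M.Tn
import Pool.Agent.Lib.KV.M.ThP
import Pool.Agent.Lib.KV.M.BisU
import Pool.Agent.Lib.KV.M.Hol
import Pool.Agent.Lib.KV.M.Est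
import Pool.Agent.Lib.KV.M.MnB
import Pool.Agent.Lib.KV.M.MnL
import Pool.Agent.Lib.KV.M.CovB
import Pool.Agent.Lib.KV.M.Room
import Pool.Agent.Lib.KV.M.Fam
import Pool.Agent.Lib.KV.M.KPc
import Pool.Agent.Lib.KV.M.DscC
import Pool.Agent.Lib.KV.M.CTp
import Pool.Agent.Lib.KV.M.Bdy
import Pool.Agent.Lib.KV.M.Dsc
import Pool.Agent.Lib.KV.M.BWc

/-!
# KV (MP_64edc4_ag), all modules put together
-/

set_option autoImplicit false

namespace KV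

open KP

theorem a_Theta : S_Theta := tTheta 

theorem a_Adj : S_Adj := tAdj a_Theta

theorem a_Dich : S_Dich := tDich 

theorem a_NowD : S_NowD := tNowD 

theorem a_AlgF : S_AlgF := tAlgF a_Dich a_NowD

theorem a_AllZ : S_AllZ := tAllZ 

theorem a_Prem : S_Prem := tPrem 

theorem a_SgT : S_SgT := tSgT 

theorem a_NewZ : S_NewZ := tNewZ 

theorem a_StepL : S_StepL := tStepL a_Adj a_SgT a_NewZ a_AllZ

theorem a_TSrec : S_TSrec := tTSrec a_Prem a_StepL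

theorem a_TS1 : S_TS1 := tTS1 a_TSrec

theorem a_TSn : S_TSn := tTSn a_TS1

theorem a_Bai : S_Bai := tBai a_NowD a_Dich

theorem a_Cnt : S_Cnt := tCnt a_TSn a_Dich a_Bai a_NowD

theorem a_Ana1 : S_Ana1 := tAna1 a_TSn a_Cnt a_AlgF a_NowD a_Dich

theorem a_AnaV : S_AnaV := tAnaV a_TSn a_Ana1

theorem a_DL : S_DL := tDL 

theorem a_ContF : S_ContF := tContF a_TSn a_Cnt a_DL a_NowD

theorem a_Dini : S_Dini := tDini 

theorem a_DirF : S_DirF := tDirF a_TSn a_ContF a_DL a_Dini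

theorem a_GenP : S_GenP := tGenP a_NowD

theorem a_PLip : S_PLip := tPLip a_Dini

theorem a_LipS : S_LipS := tLipS a_TSn a_DirF a_Bai a_Dich a_NowD a_PLip

theorem a_LipT : S_LipT := tLipT a_TSn a_ContF a_DL a_Dini a_NowD

theorem a_LipV : S_LipV := tLipV a_LipS a_LipT

theorem a_NullZ : S_NullZ := tNullZ 

theorem a_Sel1 : S_Sel1 := tSel1 a_TSn

theorem a_Sel : S_Sel := tSel a_TSn a_Sel1

theorem a_NN : S_NN := tNN 

theorem a_CTa : S_CTa := tCTa 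

theorem a_CTc : S_CTc := tCTc 

theorem a_CTl : S_CTl := tCTl 

theorem a_CTr : S_CTr := tCTr 

theorem a_CTb : S_CTb := tCTb a_NN

theorem a_CT2 : S_CT2 := tCT2 a_CTa a_CTc

theorem a_QQ : S_QQ := tQQ a_NN a_CTa a_CTc a_CTl a_CTr a_CTb a_CT2

theorem a_Bis : S_Bis := tBis a_NN a_QQ

theorem a_Tn : S_Tn := tTn 

theorem a_ThP : S_ThP := tThP a_Tn

theorem a_BisU : S_BisU := tBisU a_NN a_QQ

theorem a_Hol : S_Hol := tHol 

theorem a_Est : S_Est := tEst a_NN a_QQ a_BisU a_Hol a_Tn a_ThP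

theorem a_MnB : S_MnB := tMnB a_NN a_QQ a_Tn a_ThP a_Est

theorem a_MnL : S_MnL := tMnL a_NN a_QQ a_BisU a_Tn a_ThP a_Est

theorem a_CovB : S_CovB := tCovB 

theorem a_Room : S_Room := tRoom 

theorem a_Fam : S_Fam := tFam a_NN a_QQ a_BisU

theorem a_KPc : S_KPc := tKPc 

theorem a_DscC : S_DscC := tDscC a_NN a_CTa a_CTl a_CTb

theorem a_CTp : S_CTp := tCTp a_CTc a_CTl a_CTr

theorem a_Bdy : S_Bdy := tBdy a_Tn a_ThP a_Est a_CTp a_Room a_DscC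

theorem a_Dsc : S_Dsc := tDsc a_NN a_QQ a_CTc a_Bis a_BisU a_Fam a_ThP a_KPc a_DscC a_Bdy

theorem a_BWc : S_BWc := tBWc a_Bis a_Tn a_ThP a_MnB a_MnL a_CovB a_Room a_Dsc

end KV
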