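import Pool.Agent.Lib.KV.SpecQ
import Pool.Agent.Lib.KP.SpecL

/-!
# KV (MP_64edc4_ag, all dimensions), blocks K, L: local structure, definitions

`Ix m k` is the index type of the real coordinates `(Re z, Im z, Re w)` of `ℂᵐ × ℂᵏ` on a generic
submanifold of codimension `k` which is the graph `Im w = h (Re z, Im z, Re w)`.
-/

set_option autoImplicit false

open Set Filter Topology Metric

namespace KV

open KP

/-- Index type of the coordinates `(Re z, Im z, Re w)`. -/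
abbrev Ix (m k : ℕ) := (Fin m ⊕ Fin m) ⊕ Fin k

/-- The point `(z, Re w + i v)` of `ℂᵐ⁺ᵏ`, where `x = (Re z, Im z, Re w)`. -/
noncomputable def pt {m k : ℕ} (x : Ix m k → ℝ) (v : Fin k → ℝ) : Cn (m + k) :=
  Fin.append (fun a => (x (Sum.inl (Sum.inl a)) : ℂ) + (x (Sum.inl (Sum.inr a)) : ℂ) * Complex.I)
    (fun j => (x (Sum.inr j) : ℂ) + (v j : ℂ) * Complex.I)

/-- The complex point with the given real and imaginary parts. -/
noncomputable def cpx {n : ℕ} (x : Fin n ⊕ Fin n → ℝ) : Cn n :=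
  fun i => (x (Sum.inl i) : ℂ) + (x (Sum.inr i) : ℂ) * Complex.I

/-- Semialgebraic subsets of `ℂⁿ`. -/
def SC {n : ℕ} (A : Set (Cn n)) : Prop := SQ {x : Fin n ⊕ Fin n → ℝ | cpx x ∈ A}

/-- The normal form of block K: over the open set `O` the set of the peak points of `A` is the graph
`Im w = h`. -/
structure NF {m k : ℕ} (A : Set (Cn (m + k))) (O : Set (Ix m k → ℝ))
    (h : (Ix m k → ℝ) → (Fin k → ℝ)) : Prop where
  opn : IsOpen A
  sc : SC A
  hO : IsOpen O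
  nO : O.Nonempty
  sf : SF h
  ana : AnalyticOnNhd ℝ h O
  sm : ∀ x ∈ O, ‖fderiv ℝ h x‖ ≤ 1 / (100 * (k + 1))
  pk : ∀ x ∈ O, pt x (h x) ∈ Pk A
  loc : ∀ x ∈ O, ∃ r > 0, ∀ q ∈ ball (pt x (h x)) r, q ∈ Pk A → ∃ x' ∈ O, q = pt x' (h x')

/-- In addition `A` contains, near every point of the graph, a full wedge with the graph as edge. -/
structure LocD {m k : ℕ} (A : Set (Cn (m + k))) (O : Set (Ix m k → ℝ))
    (h : (Ix m k → ℝ) → (Fin k → ℝ)) : Prop where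
  nf : NF A O h
  wedge : ∀ x ∈ O, ∃ (y0 : Fin k → ℝ) (δ : ℝ), 0 < δ ∧ ∀ x' ∈ ball x δ, ∀ t ∈ Ioo (0 : ℝ) δ,
    ∀ y ∈ ball y0 δ, pt x' (h x' + t • y) ∈ A

theorem NF.mono {m k : ℕ} {A : Set (Cn (m + k))} {O O' : Set (Ix m k → ℝ)}
    {h : (Ix m k → ℝ) → (Fin k → ℝ)} (H : NF A O h) (hO' : IsOpen O') (hn : O'.Nonempty)
    (hs : O' ⊆ O) (hl : ∀ x ∈ O', ∃ r > 0, ∀ x' ∈ O, pt x' (h x') ∈ ball (pt x (h x)) r → x' ∈ O') :
    NF A O' h where
  opn := H.opn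
  sc := H.sc
  hO := hO'
  nO := hn
  sf := H.sf
  ana := fun x hx => H.ana x (hs hx)
  sm := fun x hx => H.sm x (hs hx)
  pk := fun x hx => H.pk x (hs hx)
  loc := by
    intro x hx
    obtain ⟨r, hr, h1⟩ := H.loc x (hs hx)
    obtain ⟨r', hr', h2⟩ := hl x hx
    refine ⟨min r r', lt_min hr hr', fun q hq hqp => ?_⟩
    obtain ⟨x', hx', rfl⟩ := h1 q (ball_subset_ball (min_le_left _ _) hq) hqp
    exact ⟨x', h2 x' hx' (ball_subset_ball (min_le_right _ _) hq), rfl⟩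

end KV
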