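import Pool.Agent.Lib.KP.SpecL
import Pool.Agent.Lib.KV.B.Defs
import Pool.Agent.Lib.KV.DefsL

/-!
# KV (MP_64edc4_ag, all dimensions), block C: scaling, genericity, identification with a Siegel
domain; definitions
-/

set_option autoImplicit false

open Set Filter Topology Metric

namespace KVC

open KP KVB KV

/-! ## Coordinates `(z, w)` of `Cn (m + k)` -/

/-- The point `(z, w)`. -/
def mk {m k : ℕ} (z : Cn m) (w : Cn k) : Cn (m + k) := Fin.append z w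

/-- The first component. -/
def zp {m k : ℕ} (p : Cn (m + k)) : Cn m := fun i => p (Fin.castAdd k i)

/-- The second component. -/
def wp {m k : ℕ} (p : Cn (m + k)) : Cn k := fun j => p (Fin.natAdd m j)

section coord

variable {m k : ℕ}

@[simp] theorem zp_mk (z : Cn m) (w : Cn k) : zp (mk z w) = z := by
  ext i; simp [zp, mk]

@[simp] theorem wp_mk (z : Cn m) (w : Cn k) : wp (mk z w) = w := by
  ext i; simp [wp, mk]

@[simp] theorem mk_zp_wp (p : Cn (m + k)) : mk (zp p) (wp p) = p := by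
  ext i
  refine Fin.addCases (fun i => ?_) (fun i => ?_) i <;> simp [zp, wp, mk]

theorem ext_zw {p q : Cn (m + k)} (h1 : zp p = zp q) (h2 : wp p = wp q) : p = q := by
  rw [← mk_zp_wp p, ← mk_zp_wp q, h1, h2]

@[simp] theorem zp_add (p q : Cn (m + k)) : zp (p + q) = zp p + zp q := rfl
@[simp] theorem wp_add (p q : Cn (m + k)) : wp (p + q) = wp p + wp q := rfl
@[simp] theorem zp_sub (p q : Cn (m + k)) : zp (p - q) = zp p - zp q := rfl
@[simp] theorem wp_sub (p q : Cn (m + k)) : wp (p - q) = wp p - wp q := rfl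
@[simp] theorem zp_smul (c : ℂ) (p : Cn (m + k)) : zp (c • p) = c • zp p := rfl
@[simp] theorem wp_smul (c : ℂ) (p : Cn (m + k)) : wp (c • p) = c • wp p := rfl
@[simp] theorem zp_zero : zp (0 : Cn (m + k)) = 0 := rfl
@[simp] theorem wp_zero : wp (0 : Cn (m + k)) = 0 := rfl

theorem norm_zp_le (p : Cn (m + k)) : ‖zp p‖ ≤ ‖p‖ :=
  (pi_norm_le_iff_of_nonneg (norm_nonneg _)).2 fun _ => norm_le_pi_norm p _

theorem norm_wp_le (p : Cn (m + k)) : ‖wp p‖ ≤ ‖p‖ :=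
  (pi_norm_le_iff_of_nonneg (norm_nonneg _)).2 fun _ => norm_le_pi_norm p _

theorem norm_mk (z : Cn m) (w : Cn k) : ‖mk z w‖ = max ‖z‖ ‖w‖ := by
  apply le_antisymm
  · refine (pi_norm_le_iff_of_nonneg (le_max_of_le_left (norm_nonneg _))).2 fun i => ?_
    refine Fin.addCases (fun i => ?_) (fun i => ?_) i
    · simp only [mk, Fin.append_left]
      exact le_max_of_le_left (norm_le_pi_norm z i)
    · simp only [mk, Fin.append_right]
      exact le_max_of_le_right (norm_le_pi_norm w i)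
  · apply max_le
    · have := norm_zp_le (mk z w); rwa [zp_mk] at this
    · have := norm_wp_le (mk z w); rwa [wp_mk] at this

theorem differentiable_zp : Differentiable ℂ (zp : Cn (m + k) → Cn m) :=
  differentiable_pi.2 fun _ => differentiable_apply _

theorem differentiable_wp : Differentiable ℂ (wp : Cn (m + k) → Cn k) :=
  differentiable_pi.2 fun _ => differentiable_apply _

theorem differentiable_mk {E : Type*} [NormedAddCommGroup E] [NormedSpace ℂ E] {f : E → Cn m}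
    {g : E → Cn k} (hf : Differentiable ℂ f) (hg : Differentiable ℂ g) :
    Differentiable ℂ (fun x => (mk (f x) (g x) : Cn (m + k))) := by
  refine differentiable_pi.2 fun i => ?_
  refine Fin.addCases (fun i => ?_) (fun i => ?_) i
  · simp only [mk, Fin.append_left]
    exact differentiable_pi.1 hf i
  · simp only [mk, Fin.append_right]
    exact differentiable_pi.1 hg i

theorem continuous_zp : Continuous (zp : Cn (m + k) → Cn m) := differentiable_zp.continuous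

theorem continuous_wp : Continuous (wp : Cn (m + k) → Cn k) := differentiable_wp.continuous

theorem continuous_mk : Continuous (fun q : Cn m × Cn k => (mk q.1 q.2 : Cn (m + k))) :=
  (differentiable_mk (E := Cn m × Cn k) differentiable_fst differentiable_snd).continuous

/-- The dilation `(z, w) ↦ (σ z, σ² w)`. -/
def dil (σ : ℝ) (p : Cn (m + k)) : Cn (m + k) := mk ((σ : ℂ) • zp p) (((σ : ℂ) ^ 2) • wp p)

@[simp] theorem zp_dil (σ : ℝ) (p : Cn (m + k)) : zp (dil σ p) = (σ : ℂ) • zp p := by simp [dil]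
@[simp] theorem wp_dil (σ : ℝ) (p : Cn (m + k)) : wp (dil σ p) = ((σ : ℂ) ^ 2) • wp p := by
  simp [dil]

theorem dil_dil (σ τ : ℝ) (p : Cn (m + k)) : dil σ (dil τ p) = dil (σ * τ) p := by
  apply ext_zw
  · ext i
    simp only [zp_dil, Pi.smul_apply, smul_eq_mul, Complex.ofReal_mul]
    ring
  · ext i
    simp only [wp_dil, Pi.smul_apply, smul_eq_mul, Complex.ofReal_mul]
    ring

@[simp] theorem dil_one (p : Cn (m + k)) : dil 1 p = p := by
  apply ext_zw <;> simp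

@[simp] theorem dil_zero (σ : ℝ) : dil σ (0 : Cn (m + k)) = 0 := by
  apply ext_zw <;> simp

theorem dil_inv {σ : ℝ} (h : σ ≠ 0) (p : Cn (m + k)) : dil σ (dil σ⁻¹ p) = p := by
  rw [dil_dil, mul_inv_cancel₀ h, dil_one]

theorem dil_inv' {σ : ℝ} (h : σ ≠ 0) (p : Cn (m + k)) : dil σ⁻¹ (dil σ p) = p := by
  rw [dil_dil, inv_mul_cancel₀ h, dil_one]

theorem differentiable_dil (σ : ℝ) : Differentiable ℂ (dil σ : Cn (m + k) → Cn (m + k)) :=
  differentiable_mk (f := fun p : Cn (m + k) => (σ : ℂ) • zp p)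
    (g := fun p : Cn (m + k) => ((σ : ℂ) ^ 2) • wp p)
    (differentiable_zp.fun_const_smul _) (differentiable_wp.fun_const_smul _)

/-- The height of `(z, w)` over the quadric `Im w = F(z, z)`. -/
noncomputable def hgt (F : Fin k → Matrix (Fin m) (Fin m) ℂ) (p : Cn (m + k)) : Fin k → ℝ :=
  imv (wp p) - rev (hf F (zp p) (zp p))

theorem mem_SDn {F : Fin k → Matrix (Fin m) (Fin m) ℂ} {Om : Set (Fin k → ℝ)}
    {p : Cn (m + k)} : p ∈ SDn F Om ↔ hgt F p ∈ Om := Iff.rfl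

theorem SDn_eq (F : Fin k → Matrix (Fin m) (Fin m) ℂ) (Om : Set (Fin k → ℝ)) :
    SDn F Om = {p | hgt F p ∈ Om} := rfl

/-- Hermitian matrices. -/
def Herm (F : Fin k → Matrix (Fin m) (Fin m) ℂ) : Prop :=
  ∀ j a b, F j b a = (starRingEnd ℂ) (F j a b)

/-- The Heisenberg translation which maps `0` to `(a, α + i F(a, a))`. -/
noncomputable def heis (F : Fin k → Matrix (Fin m) (Fin m) ℂ) (a : Cn m) (α : Fin k → ℝ)
    (p : Cn (m + k)) : Cn (m + k) :=
  mk (zp p + a) (wp p + cx α + Complex.I • hf F a a + (2 * Complex.I) • hf F (zp p) a)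

end coord

/-! ## Scaling -/

/-- The points which have a neighbourhood mapped into `R` by all `A j` with large `j`. -/
def DInf {n : ℕ} (R : Set (Cn n)) (A : ℕ → Cn n → Cn n) : Set (Cn n) :=
  {q | ∃ r > 0, ∀ᶠ j in atTop, ∀ x ∈ ball q r, A j x ∈ R}

/-- The properties of the scalings `A j` (with the inverses `B j`) which are used. -/
structure Scal {n : ℕ} (R : Set (Cn n)) (x0 : Cn n) (A B : ℕ → Cn n → Cn n) : Prop where
  difA : ∀ j, Differentiable ℂ (A j)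
  difB : ∀ j, Differentiable ℂ (B j)
  AB : ∀ j x, A j (B j x) = x
  BA : ∀ j x, B j (A j x) = x
  toz : ∀ Q : Set (Cn n), IsCompact Q → ∀ ρ' > 0, ∀ᶠ j in atTop, ∀ x ∈ Q, ‖A j x‖ < ρ'
  start : ∀ j, A j x0 ∈ R
  base : x0 ∈ DInf R A
  stab : ∀ (q : Cn n) (r : ℝ), 0 < r → (∃ᶠ j in atTop, ∀ x ∈ ball q r, A j x ∈ R) →
    q ∈ DInf R A
  normal : ∀ M : ℝ, ∃ (M' ρ' : ℝ) (J : ℕ), 0 < ρ' ∧ ∀ j ≥ J, ∀ f : ℂ → Cn n,
    DifferentiableOn ℂ f (ball 0 1) → (∀ t ∈ ball (0 : ℂ) 1, A j (f t) ∈ R ∧ ‖A j (f t)‖ < ρ') →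
    ‖f 0‖ ≤ M → ∀ t : ℂ, ‖t‖ ≤ 1 / 2 → ‖f t‖ ≤ M'
  peak : Peak R

/-- The rescaled automorphisms `B (ψ j) ∘ c.pi ∘ g j` and their limit `G'`. -/
structure LimD {N n : ℕ} {V : Set (Cn N)} (c : Chart V n) (U : Set (Cn N))
    (G : Set (Cn N → Cn N)) (K : Set (Cn N)) (R : Set (Cn n)) (x0 : Cn n)
    (A B : ℕ → Cn n → Cn n) (ψ : ℕ → ℕ) (g h : ℕ → Cn N → Cn N) (k0 : Cn N)
    (G' : Cn N → Cn n) : Prop where
  psi : Tendsto ψ atTop atTop
  gG : ∀ j, g j ∈ G
  hG : ∀ j, h j ∈ G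
  gh : ∀ j, ∀ x ∈ U, g j (h j x) = x
  hg : ∀ j, ∀ x ∈ U, h j (g j x) = x
  k0K : k0 ∈ K
  hK : ∀ j, h j (c.psi (A (ψ j) x0)) ∈ K
  lim : Tendsto (fun j => h j (c.psi (A (ψ j) x0))) atTop (𝓝 k0)
  loc : ∀ Q ⊆ U, IsCompact Q → ∀ ρ' > 0, ∀ᶠ j in atTop, ∀ x ∈ Q,
    c.pi (g j x) ∈ R ∧ ‖c.pi (g j x)‖ < ρ' ∧ c.psi (c.pi (g j x)) = g j x
  hol : HolOn G' U
  unif : ∀ Q ⊆ U, IsCompact Q →
    TendstoUniformlyOn (fun j x => B (ψ j) (c.pi (g j x))) G' atTop Q
  val : G' k0 = x0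

/-- In a chart the derivative of `G'` is invertible near `x`. -/
def Reg {N n : ℕ} (V U : Set (Cn N)) (G' : Cn N → Cn n) (x : Cn N) : Prop :=
  ∃ (e : Chart V n) (ρ : ℝ), 0 < ρ ∧ x ∈ V ∧ x ∈ e.O ∧ ball (e.pi x) ρ ⊆ e.pre U ∧
    ∀ v ∈ ball (e.pi x) ρ, (fderiv ℂ (fun v => G' (e.psi v)) v).det ≠ 0

/-- The continuity principle (for maps of the closures of bounded connected open subsets of `ℂ`). -/
def KonP {n : ℕ} (D : Set (Cn n)) : Prop := ∀ (B : Set ℂ) (f : ℝ → ℂ → Cn n), IsOpen B →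
  IsPreconnected B → Bornology.IsBounded B →
  ContinuousOn (fun q : ℝ × ℂ => f q.1 q.2) (Icc (0 : ℝ) 1 ×ˢ closure B) →
  (∀ s ∈ Icc (0 : ℝ) 1, DifferentiableOn ℂ (f s) B) →
  (∀ s ∈ Icc (0 : ℝ) 1, ∀ t ∈ frontier B, f s t ∈ D) → (∀ t ∈ closure B, f 0 t ∈ D) →
  ∀ t ∈ closure B, f 1 t ∈ D

/-- Logarithmic concavity of the distance to the complement, along segments in `Om`. -/
def LogC {k : ℕ} (Om : Set (Fin k → ℝ)) : Prop := ∀ a b : Fin k → ℝ, segment ℝ a b ⊆ Om →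
  ∀ α β : ℝ, 0 < α → 0 < β → ball a α ⊆ Om → ball b β ⊆ Om → ∀ s ∈ Icc (0 : ℝ) 1,
    ball ((1 - s) • a + s • b) (α ^ (1 - s) * β ^ s) ⊆ Om

/-- The holomorphic polynomial `-i μ(w) + M(p, p)`. -/
noncomputable def acP {m k : ℕ} (μ : Fin k → ℝ) (M : Matrix (Fin (m + k)) (Fin (m + k)) ℂ)
    (p : Cn (m + k)) : ℂ :=
  -Complex.I * ∑ j, (μ j : ℂ) * wp p j + ∑ a, ∑ b, M a b * p a * p b

/-- The set `R` lies in an acute wedge: `Re P + b (|Im w| + |p|²) ≤ 0` on `R`. -/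
def Acute {m k : ℕ} (R : Set (Cn (m + k))) (μ : Fin k → ℝ)
    (M : Matrix (Fin (m + k)) (Fin (m + k)) ℂ) (b : ℝ) : Prop :=
  0 < b ∧ ∀ p ∈ R, (acP μ M p).re + b * (‖imv (wp p)‖ + ‖p‖ ^ 2) ≤ 0

/-! ## The graph and the frame at one of its points -/

section frames

variable {m k : ℕ}

/-- The real coordinates of `(z, u)`. -/
def dir (z : Cn m) (u : Fin k → ℝ) : Ix m k → ℝ :=
  Sum.elim (Sum.elim (fun a => (z a).re) (fun a => (z a).im)) u

/-- The coordinates `(Re z, Im z, Re w)` of `(z, w)`. -/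
def xof (q : Cn (m + k)) : Ix m k → ℝ := dir (zp q) (rev (wp q))

/-- The height over the graph `Im w = h`. -/
def nu (h : (Ix m k → ℝ) → (Fin k → ℝ)) (q : Cn (m + k)) : Fin k → ℝ :=
  imv (wp q) - h (xof q)

theorem xof_pt (x : Ix m k → ℝ) (v : Fin k → ℝ) : xof (pt x v) = x := by
  ext i
  rcases i with (i | i) | j
  · simp [xof, dir, pt, zp]
  · simp [xof, dir, pt, zp]
  · simp [xof, dir, pt, wp, rev]

theorem imv_pt (x : Ix m k → ℝ) (v : Fin k → ℝ) : imv (wp (pt x v)) = v := by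
  ext j
  simp [pt, wp, imv]

theorem pt_xof (q : Cn (m + k)) : pt (xof q) (imv (wp q)) = q := by
  ext i
  refine Fin.addCases (fun i => ?_) (fun i => ?_) i
  · simp [pt, xof, dir, zp, Complex.re_add_im]
  · simp [pt, xof, dir, wp, rev, imv, Complex.re_add_im]

theorem pt_xof_nu (h : (Ix m k → ℝ) → (Fin k → ℝ)) (q : Cn (m + k)) :
    pt (xof q) (h (xof q) + nu h q) = q := by
  have : h (xof q) + nu h q = imv (wp q) := by simp [nu]
  rw [this, pt_xof]

/-- The value of the holomorphic quadratic map with the matrices `Q j`. -/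
noncomputable def hq (Q : Fin k → Matrix (Fin m) (Fin m) ℂ) (z : Cn m) : Cn k :=
  fun j => ∑ a, ∑ b, Q j a b * z a * z b

/-- The second component of the frame. -/
noncomputable def omg (Lam : Matrix (Fin k) (Fin m) ℂ) (E : Matrix (Fin k) (Fin k) ℂ)
    (Kq : Fin k → Matrix (Fin m) (Fin m) ℂ) (z : Cn m) (w : Cn k) : Cn k :=
  Lam.mulVec z + E.mulVec w + hq Kq z

/-- The frame at `s`. -/
noncomputable def frm (s : Cn (m + k)) (Lam : Matrix (Fin k) (Fin m) ℂ)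
    (E : Matrix (Fin k) (Fin k) ℂ) (Kq : Fin k → Matrix (Fin m) (Fin m) ℂ) (p : Cn (m + k)) :
    Cn (m + k) := s + mk (zp p) (omg Lam E Kq (zp p) (wp p))

/-- The inverse of the frame. -/
noncomputable def fri (s : Cn (m + k)) (Lam : Matrix (Fin k) (Fin m) ℂ)
    (E' : Matrix (Fin k) (Fin k) ℂ) (Kq : Fin k → Matrix (Fin m) (Fin m) ℂ) (q : Cn (m + k)) :
    Cn (m + k) :=
  mk (zp (q - s)) (E'.mulVec (wp (q - s) - Lam.mulVec (zp (q - s)) - hq Kq (zp (q - s))))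

/-- The conditions on the frame of the graph `Im w = h` at the point `pt x0 (h x0)`. -/
structure Frm (h : (Ix m k → ℝ) → (Fin k → ℝ)) (x0 : Ix m k → ℝ)
    (Lam : Matrix (Fin k) (Fin m) ℂ) (E E' : Matrix (Fin k) (Fin k) ℂ)
    (Kq Qm F : Fin k → Matrix (Fin m) (Fin m) ℂ) : Prop where
  inv1 : E * E' = 1
  inv2 : E' * E = 1
  herm : Herm F
  lin : ∀ (z : Cn m) (w : Cn k), imv (omg Lam E Kq z w) -
    fderiv ℝ h x0 (dir z (rev (omg Lam E Kq z w))) = imv w + rev (hq Qm z)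
  qua : ∀ z : Cn m, fderiv ℝ (fderiv ℝ h) x0 (dir z (rev (Lam.mulVec z)))
    (dir z (rev (Lam.mulVec z))) = (2 : ℝ) • (rev (hf F z z) + rev (hq Qm z))

/-- The cone of the inner directions of `A` at the point `c` of the graph. -/
def OmC (A : Set (Cn (m + k))) (h : (Ix m k → ℝ) → (Fin k → ℝ)) (c : Ix m k → ℝ) :
    Set (Fin k → ℝ) :=
  {v | ∃ d > 0, ∀ x ∈ ball c d, ∀ t ∈ Ioo (0 : ℝ) d, ∀ y ∈ ball v d, pt x (h x + t • y) ∈ A}

/-- The genericity of the point `c`. -/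
def P4 (A : Set (Cn (m + k))) (h : (Ix m k → ℝ) → (Fin k → ℝ)) (c : Ix m k → ℝ) : Prop :=
  ∀ (v : Fin k → ℝ) (e : ℝ), 0 < e → (∀ d > 0, ∃ x ∈ ball c d, ∃ t ∈ Ioo (0 : ℝ) d,
    ∀ y ∈ ball v e, pt x (h x + t • y) ∈ A) → v ∈ OmC A h c

theorem fri_frm {s : Cn (m + k)} {Lam : Matrix (Fin k) (Fin m) ℂ}
    {E E' : Matrix (Fin k) (Fin k) ℂ} {Kq : Fin k → Matrix (Fin m) (Fin m) ℂ}
    (h : E' * E = 1) (p : Cn (m + k)) : fri s Lam E' Kq (frm s Lam E Kq p) = p := by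
  apply ext_zw
  · simp [fri, frm]
  · simp only [fri, frm, wp_mk, add_sub_cancel_left, zp_mk, omg]
    have : Lam.mulVec (zp p) + E.mulVec (wp p) + hq Kq (zp p) - Lam.mulVec (zp p) -
        hq Kq (zp p) = E.mulVec (wp p) := by abel
    rw [this, Matrix.mulVec_mulVec, h, Matrix.one_mulVec]

theorem frm_fri {s : Cn (m + k)} {Lam : Matrix (Fin k) (Fin m) ℂ}
    {E E' : Matrix (Fin k) (Fin k) ℂ} {Kq : Fin k → Matrix (Fin m) (Fin m) ℂ}
    (h : E * E' = 1) (q : Cn (m + k)) : frm s Lam E Kq (fri s Lam E' Kq q) = q := by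
  apply ext_zw
  · simp [fri, frm]
  · simp only [fri, frm, wp_mk, wp_add, zp_mk, omg, Matrix.mulVec_mulVec, h, Matrix.one_mulVec,
      wp_sub, zp_sub]
    abel

end frames

end KVC
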