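import Pool.Agent.Lib.KP.Defs

/-!
# KV (MP_64edc4_ag, all dimensions), block M: Bishop discs, definitions
-/

set_option autoImplicit false

open Set Filter Topology Metric

namespace KV

open KP

/-- Euclidean space. -/
abbrev Ek (k : ℕ) := EuclideanSpace ℝ (Fin k)

/-- Continuous and `2 π`-periodic. -/
def PC {F : Type} [TopologicalSpace F] (u : ℝ → F) : Prop :=
  Continuous u ∧ Function.Periodic u (2 * Real.pi)

/-- The mean over a period. -/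
noncomputable def mn {F : Type} [NormedAddCommGroup F] [NormedSpace ℝ F] (u : ℝ → F) : F :=
  (2 * Real.pi)⁻¹ • ∫ s in (0 : ℝ)..(2 * Real.pi), u s

/-- The `L²`-norm (for the normalized measure of the circle). -/
noncomputable def N2 {F : Type} [NormedAddCommGroup F] [NormedSpace ℝ F] (u : ℝ → F) : ℝ :=
  Real.sqrt (mn (fun s => ‖u s‖ ^ 2))

/-- The Schwarz integral: holomorphic in the disc with real part the Poisson integral of `v`. -/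
noncomputable def cT (v : ℝ → ℝ) (ζ : ℂ) : ℂ :=
  mn (fun s : ℝ => (Complex.exp (s * Complex.I) + ζ) / (Complex.exp (s * Complex.I) - ζ) *
    (v s : ℂ))

/-- The conjugate Poisson integral at radius `ρ` of a vector valued function. -/
noncomputable def Qo {k : ℕ} (ρ : ℝ) (u : ℝ → Ek k) (t : ℝ) : Ek k :=
  WithLp.toLp 2 fun j => (cT (fun s => u s j) (ρ * Complex.exp (t * Complex.I))).im

/-- The point `x + i v`. -/
noncomputable def cpt {k : ℕ} (x v : Ek k) : Cn k := fun j => (x j : ℂ) + (v j : ℂ) * Complex.I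

/-- The disc with the boundary values `x + i u` (approximately). -/
noncomputable def dsc {k : ℕ} (ρ : ℝ) (x0 : Ek k) (u : ℝ → Ek k) (ζ : ℂ) : Cn k :=
  fun j => (x0 j : ℂ) + Complex.I * cT (fun s => u s j) (ρ * ζ)

/-- The tent function of width `θ` on the circle. -/
noncomputable def tn (θ t : ℝ) : ℝ := max 0 (1 - ‖Complex.exp (t * Complex.I) - 1‖ / θ)

/-- Limits of holomorphic discs in `A` which lie in `W` and meet `A` lie in `A`. -/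
def TauIn {n : ℕ} (A W : Set (Cn n)) : Prop := ∀ (f : ℕ → ℂ → Cn n) (g : ℂ → Cn n),
  (∀ j, DifferentiableOn ℂ (f j) (ball 0 1)) → (∀ j, MapsTo (f j) (ball 0 1) A) →
  DifferentiableOn ℂ g (ball 0 1) →
  (∀ Q ⊆ ball (0 : ℂ) 1, IsCompact Q → TendstoUniformlyOn f g atTop Q) →
  MapsTo g (ball 0 1) W → (∃ t ∈ ball (0 : ℂ) 1, g t ∈ A) → MapsTo g (ball 0 1) A

/-- The hypotheses of the wedge theorem: the set `A ⊆ ℂᵏ` contains the section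
`x + i (φ x + y x r)`. -/
structure BW {k : ℕ} (A : Set (Cn k)) (x0 : Ek k) (φ : Ek k → Ek k) (y : Ek k → ℝ → Ek k)
    (ρ1 R1 ρ2 C : ℝ) : Prop where
  opn : IsOpen A
  tau : TauIn A (ball (cpt x0 (φ x0)) ρ2)
  hρ1 : 0 < ρ1
  hR1 : 0 < R1
  hρ2 : 0 < ρ2
  hC : 1 ≤ C
  lφ : ∀ x x', ‖φ x - φ x'‖ ≤ 1 / 40 * ‖x - x'‖
  sφ : ∃ A0 : Ek k →L[ℝ] Ek k, ∀ x ∈ closedBall x0 ρ1, ∀ x' ∈ closedBall x0 ρ1,
    ‖φ x - φ x' - A0 (x - x')‖ ≤ C * (‖x - x0‖ + ‖x' - x0‖) * ‖x - x'‖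
  ly : ∀ x x', ∀ r ∈ Ioo (0 : ℝ) R1, ‖y x r - y x' r‖ ≤ 1 / 40 * ‖x - x'‖
  ly0 : ∀ τ > 0, ∃ δ > 0, ∀ x x', ∀ r ∈ Ioo (0 : ℝ) δ, ‖y x r - y x' r‖ ≤ τ * ‖x - x'‖
  lr : ∀ x, ∀ r ∈ Ioo (0 : ℝ) R1, ∀ r' ∈ Ioo (0 : ℝ) R1, ‖y x r - y x r'‖ ≤ C * |r - r'|
  by' : ∀ x, ∀ r ∈ Ioo (0 : ℝ) R1, ‖y x r‖ ≤ C * r
  mem : ∀ x ∈ closedBall x0 ρ1, ∀ r ∈ Ioo (0 : ℝ) R1, cpt x (φ x + y x r) ∈ A

/-- The right hand side of Bishop's equation: the height is `ε + τ (R - ε) (tent of width θ)`, and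
there is the additional shift `η` on the upper part of the tent. -/
noncomputable def Th {k : ℕ} (φ : Ek k → Ek k) (y : Ek k → ℝ → Ek k) (R θ ε τ : ℝ) (η : Ek k)
    (x : Ek k) (t : ℝ) : Ek k :=
  φ x + y x (ε + τ * (R - ε) * tn θ t) + tn (θ / 2) t • η

/-- `x` solves Bishop's equation at radius `ρ` with the right hand side `T`. -/
def Sol {k : ℕ} (ρ : ℝ) (x0 : Ek k) (T : Ek k → ℝ → Ek k) (x : ℝ → Ek k) : Prop :=
  PC x ∧ ∀ t, x t = x0 - Qo ρ (fun s => T (x s) s) t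

/-- The parameters are in the allowed range. -/
structure Rg (k : ℕ) (ρ1 R1 ρ2 C R θ ε τ : ℝ) : Prop where
  hR : 0 < R
  hRR : R < R1
  hRs : 100 * (k + 1) * (C + 1) * R ≤ min ρ1 ρ2
  hθ : 0 < θ
  hθ1 : θ ≤ 1
  hε : 0 < ε
  hεR : ε ≤ R * θ
  hτ : 0 ≤ τ
  hτ1 : τ ≤ 1

end KV
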