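import Mathlib

/-!
# KV (MP_64edc4_ag, all dimensions), block Q: semialgebraic sets, definitions and basic closure
properties
-/

set_option autoImplicit false

open Set Filter Topology Metric

namespace KV

/-- The polynomials of `Q` have the same signs at `x` and at `y`. -/
def SameS {ι : Type} (Q : Finset (MvPolynomial ι ℝ)) (x y : ι → ℝ) : Prop :=
  ∀ q ∈ Q, SignType.sign (MvPolynomial.eval x q) = SignType.sign (MvPolynomial.eval y q)

/-- Semialgebraic sets: unions of sign classes of finitely many polynomials. -/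
def SQ {ι : Type} (A : Set (ι → ℝ)) : Prop :=
  ∃ Q : Finset (MvPolynomial ι ℝ), ∀ x y : ι → ℝ, SameS Q x y → x ∈ A → y ∈ A

/-- Maps with semialgebraic graph. -/
def SF {ι κ : Type} (f : (ι → ℝ) → (κ → ℝ)) : Prop :=
  SQ {z : ι ⊕ κ → ℝ | (fun j => z (Sum.inr j)) = f (fun i => z (Sum.inl i))}

/-- Specialization of a polynomial whose coefficients are polynomials. -/
noncomputable def spz {ι : Type} (x : ι → ℝ) (p : Polynomial (MvPolynomial ι ℝ)) : Polynomial ℝ :=
  p.map (MvPolynomial.eval x)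

/-- The polynomials of `P` have over `x` and over `x'` the same sequence of signs. -/
def RelP {ι : Type} (P : Finset (Polynomial (MvPolynomial ι ℝ))) (x x' : ι → ℝ) : Prop :=
  ∃ φ : ℝ ≃o ℝ, ∀ p ∈ P, ∀ t : ℝ,
    SignType.sign ((spz x p).eval t) = SignType.sign ((spz x' p).eval (φ t))

/-- The point `(t, x)`. -/
def cns {ι : Type} (t : ℝ) (x : ι → ℝ) : Option ι → ℝ := fun o => o.elim t x

@[simp] theorem cns_none {ι : Type} (t : ℝ) (x : ι → ℝ) : cns t x none = t := rfl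
@[simp] theorem cns_some {ι : Type} (t : ℝ) (x : ι → ℝ) (i : ι) : cns t x (some i) = x i := rfl

/-- The point `(x, y)`. -/
def pr {ι κ : Type} (x : ι → ℝ) (y : κ → ℝ) : ι ⊕ κ → ℝ := Sum.elim x y

@[simp] theorem pr_inl {ι κ : Type} (x : ι → ℝ) (y : κ → ℝ) (i : ι) : pr x y (Sum.inl i) = x i :=
  rfl
@[simp] theorem pr_inr {ι κ : Type} (x : ι → ℝ) (y : κ → ℝ) (j : κ) : pr x y (Sum.inr j) = y j :=
  rfl

theorem pr_eta {ι κ : Type} (z : ι ⊕ κ → ℝ) :
    pr (fun i => z (Sum.inl i)) (fun j => z (Sum.inr j)) = z := by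
  ext s; cases s <;> rfl

/-! ## Closure properties -/

variable {ι κ : Type}

theorem SameS.symm {Q : Finset (MvPolynomial ι ℝ)} {x y : ι → ℝ} (h : SameS Q x y) :
    SameS Q y x := fun q hq => (h q hq).symm

theorem SQ.compl {A : Set (ι → ℝ)} (h : SQ A) : SQ Aᶜ := by
  obtain ⟨Q, hQ⟩ := h
  exact ⟨Q, fun x y hxy hx hy => hx (hQ y x hxy.symm hy)⟩

theorem SQ.inter {A B : Set (ι → ℝ)} (h : SQ A) (h' : SQ B) : SQ (A ∩ B) := by
  classical
  obtain ⟨Q, hQ⟩ := h
  obtain ⟨Q', hQ'⟩ := h'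
  refine ⟨Q ∪ Q', fun x y hxy hx => ⟨hQ x y (fun q hq => hxy q ?_) hx.1,
    hQ' x y (fun q hq => hxy q ?_) hx.2⟩⟩
  · exact Finset.mem_union_left _ hq
  · exact Finset.mem_union_right _ hq

theorem SQ.union {A B : Set (ι → ℝ)} (h : SQ A) (h' : SQ B) : SQ (A ∪ B) := by
  have := (h.compl.inter h'.compl).compl
  rwa [Set.compl_inter, compl_compl, compl_compl] at this

theorem SQ.univ' : SQ (Set.univ : Set (ι → ℝ)) := ⟨∅, fun _ _ _ _ => mem_univ _⟩

theorem SQ.empty' : SQ (∅ : Set (ι → ℝ)) := ⟨∅, fun _ _ _ h => h⟩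

/-- Preimages under polynomial maps. -/
theorem SQ.preim {A : Set (κ → ℝ)} (h : SQ A) (f : κ → MvPolynomial ι ℝ) :
    SQ {x : ι → ℝ | (fun j => MvPolynomial.eval x (f j)) ∈ A} := by
  classical
  obtain ⟨Q, hQ⟩ := h
  refine ⟨Q.image (fun q => MvPolynomial.bind₁ f q), fun x y hxy hx => ?_⟩
  refine hQ _ _ (fun q hq => ?_) hx
  have h1 := hxy _ (Finset.mem_image_of_mem _ hq)
  rw [MvPolynomial.eval, MvPolynomial.eval, MvPolynomial.eval₂Hom_bind₁,
    MvPolynomial.eval₂Hom_bind₁] at h1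
  exact h1

/-- Preimages under coordinate maps. -/
theorem SQ.reidx {A : Set (κ → ℝ)} (h : SQ A) (f : κ → ι) :
    SQ {x : ι → ℝ | (fun j => x (f j)) ∈ A} := by
  have := h.preim (fun j => (MvPolynomial.X (f j) : MvPolynomial ι ℝ))
  simpa using this

theorem SQ.pos (p : MvPolynomial ι ℝ) : SQ {x : ι → ℝ | 0 < MvPolynomial.eval x p} := by
  refine ⟨{p}, fun x y hxy hx => ?_⟩
  have h1 := hxy p (Finset.mem_singleton_self _)
  have h2 : SignType.sign (MvPolynomial.eval x p) = 1 := sign_eq_one_iff.2 hx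
  exact sign_eq_one_iff.1 (h1 ▸ h2)

theorem SQ.zero (p : MvPolynomial ι ℝ) : SQ {x : ι → ℝ | MvPolynomial.eval x p = 0} := by
  refine ⟨{p}, fun x y hxy hx => ?_⟩
  have h1 := hxy p (Finset.mem_singleton_self _)
  have h2 : SignType.sign (MvPolynomial.eval x p) = 0 := sign_eq_zero_iff.2 hx
  exact sign_eq_zero_iff.1 (h1 ▸ h2)

/-- `{x | p x < q x}`. -/
theorem SQ.lt (p q : MvPolynomial ι ℝ) :
    SQ {x : ι → ℝ | MvPolynomial.eval x p < MvPolynomial.eval x q} := by
  have := SQ.pos (q - p)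
  simpa [sub_pos] using this

/-- `{x | p x ≤ q x}`. -/
theorem SQ.le (p q : MvPolynomial ι ℝ) :
    SQ {x : ι → ℝ | MvPolynomial.eval x p ≤ MvPolynomial.eval x q} := by
  have := (SQ.lt q p).compl
  have h2 : {x : ι → ℝ | MvPolynomial.eval x q < MvPolynomial.eval x p}ᶜ =
      {x : ι → ℝ | MvPolynomial.eval x p ≤ MvPolynomial.eval x q} := by
    ext x; simp [not_lt]
  rwa [h2] at this

/-- `{x | p x = q x}`. -/
theorem SQ.eq (p q : MvPolynomial ι ℝ) :
    SQ {x : ι → ℝ | MvPolynomial.eval x p = MvPolynomial.eval x q} := by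
  have := SQ.zero (p - q)
  simpa [sub_eq_zero] using this

/-- Finite intersections. -/
theorem SQ.iInter {J : Type} [Finite J] {A : J → Set (ι → ℝ)} (h : ∀ j, SQ (A j)) :
    SQ (⋂ j, A j) := by
  classical
  choose Q hQ using h
  haveI := Fintype.ofFinite J
  refine ⟨Finset.univ.biUnion Q, fun x y hxy hx => ?_⟩
  rw [mem_iInter] at hx ⊢
  intro j
  exact hQ j x y (fun q hq => hxy q (Finset.mem_biUnion.2 ⟨j, Finset.mem_univ _, hq⟩)) (hx j)

/-- Finite unions. -/
theorem SQ.iUnion {J : Type} [Finite J] {A : J → Set (ι → ℝ)} (h : ∀ j, SQ (A j)) :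
    SQ (⋃ j, A j) := by
  have := (SQ.iInter (fun j => (h j).compl)).compl
  rwa [Set.compl_iInter, show (fun j => ((A j)ᶜ)ᶜ) = A from funext fun j => compl_compl _] at this

end KV
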