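import Pool.Agent.Lib.KV.DefsM

/-!
# KV (MP_64edc4_ag, all dimensions), block M: the L²-theory of Bishop's equation and the wedge theorem

The wedge theorem `S_BWc`: if the tau-closed open set `A ⊆ ℂᵏ` contains the points `x + i (φ x + y x r)`,
`0 < r < R1` (with small Lipschitz constants in `x`), then it contains `x0 + i (φ x0 + θ v)` for all `v` in a
fixed ball and arbitrarily small `θ`. The discs have boundary values on the section, at height `ε` outside an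
arc of length `θ` and at height up to `R` on this arc.
-/

set_option autoImplicit false

open Set Filter Topology Metric

namespace KV

open KP

/-! ## Means, the Schwarz integral -/

/-- **NN.** Basic properties of the mean and of the `L²`-norm.

PROOF. Minkowski's inequality for the continuous functions `‖u‖`, `‖v‖` on `[0, 2π]` (e.g. via `MeasureTheory.eLpNorm_add_le`, or directly: `mn (a b) ≤ N2 a * N2 b` from `0 ≤ mn ((a - t b)²)`); monotonicity of the integral; a continuous nonnegative function with integral zero over a period vanishes on `[0, 2π]`, hence everywhere (periodicity); `‖mn u‖ ≤ mn ‖u‖ ≤ N2 u` (Cauchy-Schwarz with `1`);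
translation: `Function.Periodic.intervalIntegral_add_eq`. -/
def S_NN : Prop := ∀ (F : Type) [NormedAddCommGroup F] [NormedSpace ℝ F] (u v : ℝ → F),
  PC u → PC v → N2 (fun s => u s + v s) ≤ N2 u + N2 v ∧
    ((∀ s, ‖u s‖ ≤ ‖v s‖) → N2 u ≤ N2 v) ∧ (N2 u = 0 → ∀ s, u s = 0) ∧ ‖mn u‖ ≤ N2 u ∧
    (∀ a, mn (fun s => u (s + a)) = mn u) ∧ (∀ a, N2 (fun s => u (s + a)) = N2 u) ∧
    (mn (fun s => ‖u s‖ * ‖v s‖) ≤ N2 u * N2 v) ∧ ∀ M : ℝ, 0 ≤ M → (∀ s, ‖u s‖ ≤ M) → N2 u ≤ M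

/-- **CTa.** PROOF. The integrand is holomorphic in `ζ` for `‖ζ‖ < 1` and continuous in `s`: differentiation under the integral sign (`intervalIntegral.hasDerivAt_integral_of_dominated_loc_of_deriv_le`, or `hasDerivAt_integral…`; on `‖ζ‖ ≤ r < 1` the derivative `2 e^{is} v s / (e^{is} - ζ)²` is bounded by `2 M / (1 - r)²`). At `ζ = 0` the kernel is `1`. -/
def S_CTa : Prop := ∀ v : ℝ → ℝ, PC v → DifferentiableOn ℂ (cT v) (ball 0 1) ∧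
  cT v 0 = ((mn v : ℝ) : ℂ)

/-- **CTc.** PROOF. `(z + ζ)/(z (z - ζ)) = 2/(z - ζ) - 1/z`; with `z = e^{is}`, `dz = i z ds` the integral is a circle integral: `(2 π i)⁻¹ (2 · 2 π i - 2 π i) = 1` (`circleIntegral.integral_sub_inv_of_mem_ball`). -/
def S_CTc : Prop := ∀ (c : ℝ) (ζ : ℂ), ‖ζ‖ < 1 → cT (fun _ => c) ζ = c

/-- **CTl.** PROOF. Linearity of the integral (continuous integrands). -/
def S_CTl : Prop := ∀ v w : ℝ → ℝ, PC v → PC w → ∀ (a b : ℝ) (ζ : ℂ), ‖ζ‖ < 1 →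
  cT (fun s => a * v s + b * w s) ζ = a * cT v ζ + b * cT w ζ

/-- **CTr.** Rotations. PROOF. `(e^{i(s - a)} + ζ)/(e^{i(s - a)} - ζ) = (e^{is} + e^{ia} ζ)/(e^{is} - e^{ia} ζ)`, and the integral over a period of the periodic function `s ↦ K(e^{i(s-a)}, ζ) v s` does not change under the translation `s ↦ s + a`. -/
def S_CTr : Prop := ∀ v : ℝ → ℝ, PC v → ∀ (a : ℝ) (ζ : ℂ), ‖ζ‖ < 1 →
  cT (fun s => v (s + a)) ζ = cT v (Complex.exp (a * Complex.I) * ζ)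

/-- **CTb.** Uses `NN`. PROOF. The kernel is bounded by `2 / (1 - ‖ζ‖)`, and `mn |v| ≤ N2 v`. -/
def S_CTb : Prop := ∀ v : ℝ → ℝ, PC v → ∀ ζ : ℂ, ‖ζ‖ < 1 → ‖cT v ζ‖ ≤ 2 / (1 - ‖ζ‖) * N2 v

/-- **CTp.** Uniform approximation by the Poisson integral. Uses `CTc`, `CTl`, `CTr`.

PROOF. By `CTr` we may take `t = 0`. `Re ((e^{is} + ρ)/(e^{is} - ρ)) = (1 - ρ²)/|e^{is} - ρ|² =: P s ≥ 0`, `mn P = 1` (`CTc` with `c = 1`). `Re (cT v ρ) - v 0 = mn (P (v - v 0))`. Integrate over `[-π, π]` (periodicity). On `|s| ≤ δ` the integrand is at most `ω P`, with total contribution `≤ ω`; on `δ ≤ |s| ≤ π` (wlog `δ ≤ 1`): `|e^{is} - ρ| ≥ c(δ) > 0` uniformly in `ρ ∈ [0, 1]` (compactness, or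
`|e^{is} - ρ|² = (1 - ρ)² + 2 ρ (1 - cos s) ≥ min (1/4, 1 - cos δ)`), so the contribution is at most `2 M (1 - ρ²)/c(δ)² ≤ ω` for `ρ` close to `1`. -/
def S_CTp : Prop := ∀ M δ ω : ℝ, 0 < δ → 0 < ω → ∃ ρ0 : ℝ, 0 ≤ ρ0 ∧ ρ0 < 1 ∧
  ∀ ρ ∈ Ioo ρ0 1, ∀ v : ℝ → ℝ, PC v → (∀ s, |v s| ≤ M) →
    (∀ s s', |s - s'| ≤ δ → |v s - v s'| ≤ ω) →
    ∀ t : ℝ, |(cT v (ρ * Complex.exp (t * Complex.I))).re - v t| ≤ 2 * ω

/-- **CT2.** The conjugate Poisson integral is bounded by one in `L²`. Uses `CTa`, `CTc`.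

PROOF. `F = cT v` is holomorphic in the unit disc with `F 0 = mn v` real. The mean of the holomorphic function `F²` over the circle of radius `ρ` is `(F 0)² ≥ 0` (`circleAverage`/mean value property, `circleIntegral` with Cauchy's formula at the centre; for `ρ = 0` trivial). Taking real parts: mean of `(Im F)²` `≤` mean of `(Re F)²`. `Re F (ρ e^{it}) = mn_s (P(s - t) v s)` with `P s = (1 - ρ²)/|e^{is} - ρ|² ≥ 0` of mean `1`,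
so `(Re F (ρ e^{it}))² ≤ mn_s (P(s - t) (v s)²)` (Cauchy-Schwarz) and, integrating over `t` (Fubini for continuous functions on `[0, 2π]²`, `mn_t P(s - t) = 1`), the mean of `(Re F)²` is at most `mn (v²)`. -/
def S_CT2 : Prop := ∀ v : ℝ → ℝ, PC v → ∀ ρ : ℝ, 0 ≤ ρ → ρ < 1 →
  N2 (fun t : ℝ => (cT v (ρ * Complex.exp (t * Complex.I))).im) ≤ N2 v

/-- **QQ.** Properties of the operator `Qo ρ`. Uses `NN`, `CTa`, `CTc`, `CTl`, `CTr`, `CTb`, `CT2`.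

PROOF. Componentwise. Continuity: `cT v` is continuous on the ball. Mean zero: the mean of `Im F` over the circle of radius `ρ` is `Im F 0 = 0` (mean value property, `CTa`). `N2 (Qo ρ u)² = ∑_j N2 (Im cT u_j)² ≤ ∑_j N2 (u_j - c_j)²`, since `cT (u_j - c_j) = cT u_j - c_j` has the same imaginary part (`CTl`, `CTc`), `= N2 (u - c)²` (`EuclideanSpace.norm_eq`, sums and integrals). Pointwise bound: the Euclidean norm is at most the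
sum of the absolute values of the components, `|Im cT u_j| ≤ 2/(1 - ρ) N2 u_j`, `N2 u_j ≤ N2 u`. -/
def S_QQ : Prop := ∀ (k : ℕ) (ρ : ℝ), 0 ≤ ρ → ρ < 1 → ∀ u : ℝ → Ek k, PC u →
  PC (Qo ρ u) ∧ mn (Qo ρ u) = 0 ∧ (∀ c : Ek k, N2 (Qo ρ u) ≤ N2 (fun s => u s - c)) ∧
  (∀ u' : ℝ → Ek k, PC u' → ∀ t, Qo ρ (fun s => u s - u' s) t = Qo ρ u t - Qo ρ u' t) ∧
  (∀ t, ‖Qo ρ u t‖ ≤ k * (2 / (1 - ρ)) * N2 u) ∧
  (∀ a t, Qo ρ (fun s => u (s + a)) t = Qo ρ u (t + a)) ∧ ∀ c : Ek k, ∀ t, Qo ρ (fun _ => c) t = 0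

/-! ## Bishop's equation -/

/-- **BisU.** The basic estimate. Uses `NN`, `QQ`.

PROOF. `x - x' = -Qo ρ (u - u')` with `u s = T (x s) s`, so `N2 (x - x') ≤ N2 (u - u' - c) ≤ N2 (T (x s) s - T (x' s) s) + N2 (T (x' s) s - u' s - c) ≤ (1/4) N2 (x - x') + …`. -/
def S_BisU : Prop := ∀ (k : ℕ) (ρ : ℝ) (x0 : Ek k) (T : Ek k → ℝ → Ek k), 0 ≤ ρ → ρ < 1 →
  Continuous (fun p : Ek k × ℝ => T p.1 p.2) → (∀ x, Function.Periodic (T x) (2 * Real.pi)) →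
  (∀ x x' t, ‖T x t - T x' t‖ ≤ 1 / 4 * ‖x - x'‖) → ∀ x x' u' : ℝ → Ek k, Sol ρ x0 T x →
  PC x' → PC u' → (∀ t, x' t = x0 - Qo ρ u' t) → ∀ c : Ek k,
    N2 (fun s => x s - x' s) ≤ 4 / 3 * N2 (fun s => T (x' s) s - u' s - c)

/-- **Bis.** Existence. Uses `NN`, `QQ`.

PROOF. Picard iteration `x_0 = x0`, `x_(n+1) t = x0 - Qo ρ (fun s => T (x_n s) s) t`, all `PC`. `N2 (x_(n+1) - x_n) ≤ (1/4) N2 (x_n - x_(n-1))`, so `N2 (x_(n+1) - x_n) ≤ C 4⁻ⁿ`, and pointwise `‖x_(n+2) t - x_(n+1) t‖ ≤ k (2/(1-ρ)) (1/4) C 4⁻ⁿ`: uniform convergence to a `PC` function `x`. `T (x_n s) s → T (x s) s` uniformly (Lipschitz), so `Qo ρ` of it converges (pointwise bound), and `x` is a solution. -/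
def S_Bis : Prop := ∀ (k : ℕ) (ρ : ℝ) (x0 : Ek k) (T : Ek k → ℝ → Ek k), 0 ≤ ρ → ρ < 1 →
  Continuous (fun p : Ek k × ℝ => T p.1 p.2) → (∀ x, Function.Periodic (T x) (2 * Real.pi)) →
  (∀ x x' t, ‖T x t - T x' t‖ ≤ 1 / 4 * ‖x - x'‖) → ∃ x, Sol ρ x0 T x

/-- **Fam.** Continuous dependence on a parameter. Uses `NN`, `QQ`, `BisU`.

PROOF. Fix `p0`. For `p` near `p0`: `N2 (x p - x p0) ≤ (4/3) N2 (fun s => T p (x p0 s) s - T p0 (x p0 s) s)` (`BisU` with `T = T p`, `x' = x p0`, `u' s = T p0 (x p0 s) s`, `c = 0`), which tends to `0` as `p → p0` (uniform continuity of `(p, s) ↦ T p (x p0 s) s` on compact sets). Pointwise: `x p t - x p0 t = -Qo ρ (T p (x p) - T p0 (x p0)) t`, of norm at most `k (2/(1-ρ)) ((1/4) N2 (x p - x p0) + N2 (T p (x p0) - T p0 (x p0)))`,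
uniformly in `t`. With the continuity of `x p0` this gives joint continuity at `(p0, t0)`. -/
def S_Fam : Prop := ∀ (k : ℕ) (ρ : ℝ) (x0 : Ek k) (T : ℝ → Ek k → ℝ → Ek k), 0 ≤ ρ → ρ < 1 →
  Continuous (fun q : ℝ × Ek k × ℝ => T q.1 q.2.1 q.2.2) →
  (∀ p x, Function.Periodic (T p x) (2 * Real.pi)) →
  (∀ p x x' t, ‖T p x t - T p x' t‖ ≤ 1 / 4 * ‖x - x'‖) → ∀ x : ℝ → ℝ → Ek k,
    (∀ p, Sol ρ x0 (T p) (x p)) → Continuous (fun q : ℝ × ℝ => x q.1 q.2)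

/-- **Hol.** From `L²`-Lipschitz to Hölder and sup bounds.

PROOF. For `0 < a ≤ 1` let `g_a t = a⁻¹ ∫_0^a g (t + s) ds`: `C¹`, periodic, `g_a' t = (g (t + a) - g t)/a`, so `mn (g_a'²) ≤ K²`, and `mn (g_a²) ≤ mn (g²)` (Cauchy-Schwarz and Fubini), `g_a → g` uniformly as `a → 0`. (i) `|g_a t - g_a t'| = |∫ g_a'| ≤ |t - t'|^(1/2) (∫ over an interval of length ≤ 2π of g_a'²)^(1/2) ≤ (|t - t'| 2π)^(1/2) K`; let `a → 0`. (ii) For `|t - s| ≤ 2π`: `g_a(t)² - g_a(s)² = 2 ∫_s^t g_a g_a' ≤ 4 π N2 g_a N2 g_a'`;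
take the mean over `s ∈ [t - 2π, t]`: `g_a(t)² ≤ N2(g_a)² + 4 π N2(g_a) K ≤ N2(g)² + 4 π N2(g) K`; let `a → 0`. -/
def S_Hol : Prop := ∀ (g : ℝ → ℝ) (K : ℝ), PC g → 0 ≤ K →
  (∀ a : ℝ, N2 (fun s => g (s + a) - g s) ≤ K * |a|) →
  (∀ t t' : ℝ, |t - t'| ≤ 1 → |g t - g t'| ≤ Real.sqrt (2 * Real.pi * |t - t'|) * K) ∧
    ∀ t, g t ^ 2 ≤ N2 g ^ 2 + 4 * Real.pi * N2 g * K

/-- **Tn.** The tent function.

PROOF. `‖e^{it} - 1‖ = 2 |sin (t/2)| ≥ (2/π) |t|` for `|t| ≤ π`, so `{t ∈ [-π, π] | 0 < tn θ t}` is contained in `|t| < π θ/2`, of normalized measure `≤ θ/2`; with `0 ≤ tn ≤ 1` this gives the bounds for the means; the estimate with `g` is Cauchy-Schwarz. Lower bound: `‖e^{it} - 1‖ ≤ |t|`, so `tn θ t ≥ 1 - |t|/θ` for `|t| < θ`, integral `≥ θ`. Lipschitz constant `1/θ` (`‖e^{it} - e^{is}‖ ≤ |t - s|`);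
`tn θ (s + a) - tn θ s` is different from zero only on the union of two sets of normalized measure `≤ θ/2`, so `N2² ≤ (a/θ)² θ`. -/
def S_Tn : Prop := ∀ θ : ℝ, 0 < θ → θ ≤ 1 → PC (tn θ) ∧ (∀ t, 0 ≤ tn θ t ∧ tn θ t ≤ 1) ∧
  N2 (tn θ) ^ 2 ≤ θ / 2 ∧ mn (tn θ) ≤ θ / 2 ∧ θ / (2 * Real.pi) ≤ mn (tn θ) ∧
  (∀ a, N2 (fun s => tn θ (s + a) - tn θ s) ≤ |a| / Real.sqrt θ) ∧
  (∀ t t', |tn θ t - tn θ t'| ≤ |t - t'| / θ) ∧
  (∀ g : ℝ → ℝ, PC g → (∀ s, 0 ≤ g s) →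
    mn (fun s => if 0 < tn θ s then g s else 0) ≤ Real.sqrt (θ / 2) * N2 g) ∧
  ∀ t, 0 < tn (θ / 2) t → 1 / 2 ≤ tn θ t

/-- **ThP.** Properties of the right hand side. Uses `Tn`.

PROOF. The height `ε + τ (R - ε) tn θ t` is in `[ε, R] ⊆ (0, R1)`. `y` is jointly continuous on `Ek k × (0, R1)` by `ly`, `lr`. The Lipschitz constant is `1/40 + 1/40`. Joint continuity also in `τ ∈ [0, 1]` and `η`. -/
def S_ThP : Prop := ∀ (k : ℕ) (A : Set (Cn k)) (x0 : Ek k) (φ : Ek k → Ek k)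
  (y : Ek k → ℝ → Ek k) (ρ1 R1 ρ2 C R θ ε : ℝ), BW A x0 φ y ρ1 R1 ρ2 C →
  Rg k ρ1 R1 ρ2 C R θ ε 1 →
  (∀ τ ∈ Icc (0 : ℝ) 1, ∀ t, ε + τ * (R - ε) * tn θ t ∈ Icc ε R) ∧
  (∀ τ ∈ Icc (0 : ℝ) 1, ∀ η x x' t,
    ‖Th φ y R θ ε τ η x t - Th φ y R θ ε τ η x' t‖ ≤ 1 / 20 * ‖x - x'‖) ∧
  (∀ τ η x, Function.Periodic (Th φ y R θ ε τ η x) (2 * Real.pi)) ∧
  ContinuousOn (fun q : ℝ × Ek k × Ek k × ℝ => Th φ y R θ ε q.1 q.2.1 q.2.2.1 q.2.2.2)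
    {q | q.1 ∈ Icc (0 : ℝ) 1}

/-- **Est.** Estimates for the solutions. Uses `NN`, `QQ`, `BisU`, `Hol`, `Tn`, `ThP`.

PROOF. `T = Th φ y R θ ε τ η`, Lipschitz `1/20 ≤ 1/4`, continuous and periodic (`ThP`). (a) `BisU` with `x' = x0` (constant), `u' = 0`, `c = φ x0`: `N2 (x - x0) ≤ (4/3) N2 (y x0 (h s) + tn (θ/2) s η) ≤ (4/3) (C N2 h + ‖η‖ N2 (tn (θ/2)))`, `N2 h ≤ ε + R N2 (tn θ) ≤ R √θ (1 + 0.71)` (`ε ≤ R θ ≤ R √θ`), `‖η‖ ≤ R`, `N2 (tn (θ/2)) ≤ √θ / 2`: together `≤ 3 (C + 1) R √θ`.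
(b') Let `a` be real, `x' t = x (t + a)`, `u' s = T (x (s + a)) (s + a)`: `x' t = x0 - Qo ρ u' t` (`QQ`). `BisU` with `c = 0`: `N2 (x - x') ≤ (4/3) N2 (T (x' s) s - T (x' s) (s + a)) ≤ (4/3) (C R N2 (tn θ (s + a) - tn θ s) + ‖η‖ N2 (tn (θ/2) (s + a) - tn (θ/2) s)) ≤ (4/3) (C + √2) R |a|/√θ ≤ 3 (C + 1) R |a| / √θ`.
(b), (c): `Hol` for the components `g s = x s j - x0 j` with `K = 3 (C + 1) R/√θ`, `N2 g ≤ 3 (C + 1) R √θ`: `g t ² ≤ 9 (C + 1)² R² (1 + 4 π)`, so `|g t| ≤ 11.2 (C + 1) R`; `√(2π) · 3 ≤ 7.6`. The Euclidean norm is at most the sum of the components. -/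
def S_Est : Prop := ∀ (k : ℕ) (A : Set (Cn k)) (x0 : Ek k) (φ : Ek k → Ek k)
  (y : Ek k → ℝ → Ek k) (ρ1 R1 ρ2 C R θ ε τ : ℝ), BW A x0 φ y ρ1 R1 ρ2 C →
  Rg k ρ1 R1 ρ2 C R θ ε τ → ∀ (η : Ek k), ‖η‖ ≤ R → ∀ ρ : ℝ, 0 ≤ ρ → ρ < 1 →
  ∀ x : ℝ → Ek k, Sol ρ x0 (Th φ y R θ ε τ η) x →
    N2 (fun s => x s - x0) ≤ 3 * (C + 1) * R * Real.sqrt θ ∧
    (∀ t, ‖x t - x0‖ ≤ 12 * (k + 1) * (C + 1) * R) ∧
    ∀ t t', |t - t'| ≤ 1 → ‖x t - x t'‖ ≤ 9 * (k + 1) * (C + 1) * R / Real.sqrt θ *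
      Real.sqrt |t - t'|

/-- **MnB.** The position of the centre is bounded. Uses `NN`, `QQ`, `Tn`, `ThP`, `Est`.

PROOF. `mn (x - x0) = 0` (`QQ`), so `mn (φ (x s)) - φ x0 = mn (φ (x s) - φ x0 - A0 (x s - x0))`, of norm `≤ C mn (‖x - x0‖²) = C N2 (x - x0)² ≤ 9 C (C + 1)² R² θ` (`sφ` with `x' = x0`; `x s ∈ closedBall x0 ρ1` by `Est` and `Rg.hRs`). `‖mn (y (x s) (h s))‖ ≤ C mn h ≤ C (ε + R θ/2) ≤ 2 C R θ`; `‖mn (tn (θ/2)) η‖ ≤ R θ`. -/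
def S_MnB : Prop := ∀ (k : ℕ) (A : Set (Cn k)) (x0 : Ek k) (φ : Ek k → Ek k)
  (y : Ek k → ℝ → Ek k) (ρ1 R1 ρ2 C R θ ε τ : ℝ), BW A x0 φ y ρ1 R1 ρ2 C →
  Rg k ρ1 R1 ρ2 C R θ ε τ → ∀ (η : Ek k), ‖η‖ ≤ R → ∀ ρ : ℝ, 0 ≤ ρ → ρ < 1 →
  ∀ x : ℝ → Ek k, Sol ρ x0 (Th φ y R θ ε τ η) x →
    ‖mn (fun s => Th φ y R θ ε τ η (x s) s) - φ x0‖ ≤
      (9 * C * (C + 1) ^ 2 * R ^ 2 + 2 * C * R + R) * θ

/-- **MnL.** Dependence of the centre on `η`. Uses `NN`, `QQ`, `BisU`, `Tn`, `ThP`, `Est`.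

PROOF. `BisU` with `T` for `η`, `x'` the solution for `η'`, `u' s = Th … η' (x' s) s`, `c = 0`: `N2 (x - x') ≤ (4/3) ‖η - η'‖ N2 (tn (θ/2)) ≤ (2/3) √θ ‖η - η'‖`. The difference of the means minus `mn (tn (θ/2)) • (η - η')` is `mn (φ x - φ x') + mn (y (x s) (h s) - y (x' s) (h s))`. First term: `mn (x - x') = 0`, so (`sφ`) its norm is `≤ C mn ((‖x - x0‖ + ‖x' - x0‖) ‖x - x'‖) ≤ C · 2 · 3 (C + 1) R √θ · (2/3) √θ ‖η - η'‖ = 4 C (C + 1) R θ ‖η - η'‖ ≤ θ/100 ‖η - η'‖`.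
Second term: where `0 < tn θ s` the integrand is at most `(1/40) ‖x - x'‖`, contribution (`Tn`) `≤ (1/40) √(θ/2) (2/3) √θ ‖η - η'‖ ≤ 0.012 θ ‖η - η'‖`; elsewhere `h s = ε` and the integrand is at most `(√θ/100) ‖x - x'‖`, contribution `≤ (√θ/100)(2/3) √θ ‖η - η'‖ ≤ 0.007 θ ‖η - η'‖`. -/
def S_MnL : Prop := ∀ (k : ℕ) (A : Set (Cn k)) (x0 : Ek k) (φ : Ek k → Ek k)
  (y : Ek k → ℝ → Ek k) (ρ1 R1 ρ2 C R θ ε : ℝ), BW A x0 φ y ρ1 R1 ρ2 C →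
  Rg k ρ1 R1 ρ2 C R θ ε 1 → 400 * C * (C + 1) * R ≤ 1 →
  (∀ x x', ‖y x ε - y x' ε‖ ≤ Real.sqrt θ / 100 * ‖x - x'‖) →
  ∀ (η η' : Ek k), ‖η‖ ≤ R → ‖η'‖ ≤ R → ∀ ρ : ℝ, 0 ≤ ρ → ρ < 1 →
  ∀ x x' : ℝ → Ek k, Sol ρ x0 (Th φ y R θ ε 1 η) x → Sol ρ x0 (Th φ y R θ ε 1 η') x' →
    ‖mn (fun s => Th φ y R θ ε 1 η (x s) s) - mn (fun s => Th φ y R θ ε 1 η' (x' s) s) -
      mn (tn (θ / 2)) • (η - η')‖ ≤ 3 / 100 * θ * ‖η - η'‖

/-- **CovB.** Covering by a perturbation of a multiple of the identity.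

PROOF. `T η = η + κ⁻¹ • (m - M η)` maps `closedBall 0 d` into itself: `‖T η‖ = κ⁻¹ ‖-(M η - M 0 - κ η) + (m - M 0)‖ ≤ κ⁻¹ (e d + (κ - e) d) = d`, and it is a contraction with constant `e/κ`; Banach's fixed point theorem on the complete set `closedBall 0 d` (`ContractingWith.exists_fixedPoint'` or iteration). -/
def S_CovB : Prop := ∀ (k : ℕ) (κ e d : ℝ) (M : Ek k → Ek k), 0 ≤ e → e < κ → 0 ≤ d →
  (∀ η ∈ closedBall (0 : Ek k) d, ∀ η' ∈ closedBall (0 : Ek k) d,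
    ‖M η - M η' - κ • (η - η')‖ ≤ e * ‖η - η'‖) →
  ∀ m : Ek k, ‖m - M 0‖ ≤ (κ - e) * d → ∃ η ∈ closedBall (0 : Ek k) d, M η = m

/-! ## The discs -/

/-- **KPc.** The continuity method (Kontinuitaetssatz).

PROOF. `I = {p ∈ [0, 1] | MapsTo (f p) (closedBall 0 1) A}`. `0 ∈ I`. `I` is relatively open: `closedBall 0 1` is compact and `A` is open (tube lemma, continuity of `(p, ζ) ↦ f p ζ`). `I` is closed: let `p_j → p`, `p_j ∈ I`; `f (p_j) → f p` uniformly on `closedBall 0 1`, so `TauIn` applies: `f p` maps the open disc into `W`, and `f p 1 ∈ A`, so `f p t ∈ A` for `t < 1` close to `1`. Hence `f p` maps the open disc into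
`A`; on the boundary this is a hypothesis. `[0, 1]` is connected (`IsPreconnected`/`isClopen`, or a supremum argument). -/
def S_KPc : Prop := ∀ (k : ℕ) (A W : Set (Cn k)) (f : ℝ → ℂ → Cn k), IsOpen A → TauIn A W →
  ContinuousOn (fun q : ℝ × ℂ => f q.1 q.2) (Icc (0 : ℝ) 1 ×ˢ closedBall (0 : ℂ) 1) →
  (∀ p ∈ Icc (0 : ℝ) 1, DifferentiableOn ℂ (f p) (ball 0 1)) →
  (∀ p ∈ Icc (0 : ℝ) 1, MapsTo (f p) (closedBall 0 1) W) →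
  (∀ p ∈ Icc (0 : ℝ) 1, ∀ ζ : ℂ, ‖ζ‖ = 1 → f p ζ ∈ A) → MapsTo (f 0) (closedBall 0 1) A →
  ∀ p ∈ Icc (0 : ℝ) 1, MapsTo (f p) (closedBall 0 1) A

/-- **DscC.** Properties of the discs. Uses `NN`, `CTa`, `CTl`, `CTb`.

PROOF. `cT v` is holomorphic on the ball; `‖cT (u p · j) (ρ ζ) - cT (u p0 · j) (ρ ζ)‖ ≤ 2/(1 - ρ) N2 (u p · j - u p0 · j)`, small for `p` near `p0` uniformly in `ζ` (uniform continuity of `u` on `[p0 - 1, p0 + 1] × [0, 2π]`); so the map is jointly continuous. `‖ρ ζ‖ ≤ ρ < 1`. The value at `0` is `x0 + i mn (u p)` (`CTa`; the component of `mn` is the `mn` of the component).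
On the circle: `I * F = I Re F - Im F`. -/
def S_DscC : Prop := ∀ (k : ℕ) (ρ : ℝ) (x0 : Ek k) (u : ℝ → ℝ → Ek k), 0 ≤ ρ → ρ < 1 →
  Continuous (fun q : ℝ × ℝ => u q.1 q.2) → (∀ p, Function.Periodic (u p) (2 * Real.pi)) →
  ContinuousOn (fun q : ℝ × ℂ => dsc ρ x0 (u q.1) q.2) (univ ×ˢ closedBall (0 : ℂ) 1) ∧
  ∀ p, DifferentiableOn ℂ (dsc ρ x0 (u p)) (ball 0 1) ∧
    dsc ρ x0 (u p) 0 = cpt x0 (mn (u p)) ∧
    ∀ t : ℝ, dsc ρ x0 (u p) (Complex.exp (t * Complex.I)) = fun j =>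
      (((x0 - Qo ρ (u p) t) j : ℝ) : ℂ) +
        ((cT (fun s => u p s j) (ρ * Complex.exp (t * Complex.I))).re : ℂ) * Complex.I

/-- **Room.** PROOF. The set of the points `cpt x (φ x + y x r + v)` with `x ∈ closedBall x0 ρ1`, `r ∈ [a, b]`, `‖v‖ ≤ e` is compact (continuous image: `φ`, `y` are continuous by the Lipschitz conditions) and contained in the open set `A`; `IsCompact.exists_thickening_subset_open` or `exists_cthickening_subset_open`. -/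
def S_Room : Prop := ∀ (k : ℕ) (A : Set (Cn k)) (x0 : Ek k) (φ : Ek k → Ek k)
  (y : Ek k → ℝ → Ek k) (ρ1 R1 ρ2 C : ℝ), BW A x0 φ y ρ1 R1 ρ2 C → ∀ a b e : ℝ, 0 < a →
  b < R1 → 0 ≤ e → (∀ x ∈ closedBall x0 ρ1, ∀ r ∈ Icc a b, ∀ v : Ek k, ‖v‖ ≤ e →
    cpt x (φ x + y x r + v) ∈ A) →
  ∃ d > 0, ∀ x ∈ closedBall x0 ρ1, ∀ r ∈ Icc a b, ∀ v : Ek k, ‖v‖ ≤ e → ∀ q : Cn k,
    ‖q - cpt x (φ x + y x r + v)‖ < d → q ∈ A

/-- **Bdy.** The boundary values of the discs are in `A`, and the discs are in `W`. Uses `Tn`, `ThP`, `Est`, `CTp`, `Room`, `DscC`.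

PROOF. `Room` with `(a, b, e) = (ε, R, 0)` (the hypothesis is `BW.mem`) and `(R/2, R, d0/2)` (from `hd0`): let `d` be the minimum of the two radii (and of `R`). Let `u s = Th φ y R θ ε τ η (x s) s`, `h s` the height. Claim: `‖q - cpt (x t) (u t)‖ < d → q ∈ A`. `x t ∈ closedBall x0 ρ1` (`Est`, `hRs`). If `tn (θ/2) t • η = 0`: first room. Otherwise `η ≠ 0`, so `τ = 1`, and `0 < tn (θ/2) t`, so `tn θ t ≥ 1/2` (`Tn`) and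
`h t ≥ ε + (R - ε)/2 ≥ R/2`; `‖tn (θ/2) t • η‖ ≤ d0/2`: second room. Choice of `ρ0`: the components `v = u_j` satisfy `|v s| ≤ M` with `M = ‖φ x0‖ + 12 (k+1)(C+1) R + C R + R` and, by `Est` (c), `lr` and `Tn`: `|v s - v s'| ≤ (1/20) 9 (k+1)(C+1) R/√θ √|s - s'| + C R |s - s'|/θ + 2 R |s - s'|/θ ≤ d/4` for `|s - s'| ≤ δ`, `δ` depending only on the constants. `CTp` with `ω = d/4` gives `ρ0`:
`|Re cT u_j (ρ e^{it}) - u_j t| ≤ d/2`. By `DscC` (constant family) `‖dsc ρ x0 u (e^{it}) - cpt (x t) (u t)‖ ≤ d/2 < d` (`x t = x0 - Qo ρ u t`). So the boundary values are in `A`. For `W`: by the maximum principle (`Complex.norm_le_of_forall_mem_frontier_norm_le` for each component of `dsc - cpt x0 (φ x0)`, continuous on the closed disc) it is enough to bound the components on the circle: `|x_j t - x0_j| + |Re cT u_j - (φ x0)_j| ≤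
12 (k+1)(C+1) R + d/2 + ‖u t - φ x0‖`, `‖u t - φ x0‖ ≤ (1/40) 12 (k+1)(C+1) R + C R + R`; the sum is `< ρ2` by `hRs`. -/
def S_Bdy : Prop := ∀ (k : ℕ) (A : Set (Cn k)) (x0 : Ek k) (φ : Ek k → Ek k)
  (y : Ek k → ℝ → Ek k) (ρ1 R1 ρ2 C R θ ε d0 : ℝ), BW A x0 φ y ρ1 R1 ρ2 C →
  Rg k ρ1 R1 ρ2 C R θ ε 1 → 0 < d0 → d0 ≤ R →
  (∀ x ∈ closedBall x0 ρ1, ∀ r ∈ Icc (R / 2) R, ∀ v : Ek k, ‖v‖ ≤ d0 →
    cpt x (φ x + y x r + v) ∈ A) →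
  ∃ ρ0 : ℝ, 0 ≤ ρ0 ∧ ρ0 < 1 ∧ ∀ ρ ∈ Ioo ρ0 1, ∀ τ ∈ Icc (0 : ℝ) 1, ∀ η : Ek k, ‖η‖ ≤ d0 / 2 →
    (η = 0 ∨ τ = 1) → ∀ x : ℝ → Ek k, Sol ρ x0 (Th φ y R θ ε τ η) x →
      (∀ ζ : ℂ, ‖ζ‖ = 1 → dsc ρ x0 (fun s => Th φ y R θ ε τ η (x s) s) ζ ∈ A) ∧
      MapsTo (dsc ρ x0 (fun s => Th φ y R θ ε τ η (x s) s)) (closedBall 0 1)
        (ball (cpt x0 (φ x0)) ρ2)

/-- **Dsc.** The centres of the discs are in `A`. Uses `NN`, `QQ`, `CTc`, `Bis`, `BisU`, `Fam`, `ThP`, `KPc`, `DscC`, `Bdy`.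

PROOF. `ρ0` from `Bdy`, `ρ ∈ (ρ0, 1)`. First family: for real `p` let `τ = max 0 (min 1 p)`, `T_p = Th φ y R θ ε τ 0`: jointly continuous, periodic, Lipschitz (`ThP`). `Bis` gives solutions `x_p`, `Fam` joint continuity, `u p s = T_p (x_p s) s` is jointly continuous; `f p = dsc ρ x0 (u p)`. `DscC`, `Bdy` give the hypotheses of `KPc` (`W = ball (cpt x0 (φ x0)) ρ2`, `BW.tau`), except the start: for `p = 0` the right hand side is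
`T_0 x t = φ x + y x ε` (and `tn (θ/2) t • 0 = 0`), the constant `x0` is a solution (`Qo` of a constant is `0`), and by `BisU` (with `c = 0`, `u' = T_0 x0`) and `NN` `x_0 = x0`; `f 0 ζ = x0 + i cT (const) = cpt x0 (φ x0 + y x0 ε) ∈ A` (`CTc`, `BW.mem`). So `f 1` maps the closed disc into `A`. Second family: `T_p = Th φ y R θ ε 1 (max 0 (min 1 p) • η)`; its start `p = 0` is the end of the first family (the solutions agree by `BisU`, `NN`).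
`KPc` again: at `p = 1` the solution agrees with the given `x`, and `f 1 0 = cpt x0 (mn u) ∈ A`. -/
def S_Dsc : Prop := ∀ (k : ℕ) (A : Set (Cn k)) (x0 : Ek k) (φ : Ek k → Ek k)
  (y : Ek k → ℝ → Ek k) (ρ1 R1 ρ2 C R θ ε d0 : ℝ), BW A x0 φ y ρ1 R1 ρ2 C →
  Rg k ρ1 R1 ρ2 C R θ ε 1 → 0 < d0 → d0 ≤ R →
  (∀ x ∈ closedBall x0 ρ1, ∀ r ∈ Icc (R / 2) R, ∀ v : Ek k, ‖v‖ ≤ d0 →
    cpt x (φ x + y x r + v) ∈ A) →
  ∃ ρ : ℝ, 0 ≤ ρ ∧ ρ < 1 ∧ ∀ η : Ek k, ‖η‖ ≤ d0 / 2 →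
    ∀ x : ℝ → Ek k, Sol ρ x0 (Th φ y R θ ε 1 η) x →
      cpt x0 (mn (fun s => Th φ y R θ ε 1 η (x s) s)) ∈ A

/-- **BWc.** The wedge theorem. Uses `Bis`, `Tn`, `ThP`, `MnB`, `MnL`, `CovB`, `Room`, `Dsc`.

PROOF. Choose `0 < R < R1` with `100 (k+1)(C+1) R ≤ min ρ1 ρ2` and `400 C (C+1) R ≤ 1`. `Room` with `(R/2, R, 0)` gives `d > 0`; the sup norm of `cpt x (w + v) - cpt x w` is at most `‖v‖`; so `d0 = min (d/2) R` satisfies the hypothesis of `Dsc`. For `0 < θ ≤ 1` choose `0 < ε ≤ R θ` with `‖y x ε - y x' ε‖ ≤ (√θ/100) ‖x - x'‖` (`ly0`; also `ε < R1`). `Dsc` gives `ρ`; for `‖η‖ ≤ d0/2` let `x_η` be the solution (`Bis`, `ThP`) and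
`M_θ η = θ⁻¹ • (mn (fun s => Th … η (x_η s) s) - φ x0)`. By `MnL` `‖M η - M η' - κ • (η - η')‖ ≤ (3/100) ‖η - η'‖` with `κ = mn (tn (θ/2))/θ ≥ 1/(4π) ≥ 79/1000` (`Tn` for `θ/2`). `CovB` with `d = d0/2`: every `m` with `‖m - M_θ 0‖ ≤ (49/1000)(d0/2)` is some `M_θ η`, so `cpt x0 (φ x0 + θ m) ∈ A` (`Dsc`). `‖M_θ 0‖ ≤ K` with `K` independent of `θ` (`MnB`). Take `θ_n = 1/(n+1)`; a subsequence of `M_(θ_n) 0` converges to `V` (closed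
balls of `Ek k` are compact). `c = d0/100`: for `τ > 0` there is `n` with `θ_n < τ` and `‖M_(θ_n) 0 - V‖ < d0/100`; `v ∈ ball V c` satisfies `‖v - M_(θ_n) 0‖ ≤ d0/50 ≤ (49/1000)(d0/2)`. -/
def S_BWc : Prop := ∀ (k : ℕ) (A : Set (Cn k)) (x0 : Ek k) (φ : Ek k → Ek k)
  (y : Ek k → ℝ → Ek k) (ρ1 R1 ρ2 C : ℝ), BW A x0 φ y ρ1 R1 ρ2 C →
  ∃ (V : Ek k) (c : ℝ), 0 < c ∧ ∀ τ > 0, ∃ θ ∈ Ioo (0 : ℝ) τ, ∀ v ∈ ball V c,
    cpt x0 (φ x0 + θ • v) ∈ A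

end KV
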