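import Pool.Agent.Lib.KV.DefsL
import Pool.Agent.Lib.KV.SpecM
import Pool.Agent.Lib.KP.SpecG

/-!
# KV (MP_64edc4_ag, all dimensions), block L: acute wedge, sections, full wedge

Input: the normal form `NF A O h` and the disc principle `TauIn`. Output: `LocD A O' h`: near every point of
the graph over a smaller open set `O'` the set `A` contains a full wedge.
-/

set_option autoImplicit false

open Set Filter Topology Metric

namespace KV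

open KP

/-! ## The disc principle -/

/-- **TauC.** Tautness in a chart. Uses the statements `CovF`, `Taut` of `KP`.

PROOF. Let `f j → g` as in `TauIn`, `t0` with `g t0 ∈ c.pre U`. `q_j = c.psi (f j t0) ∈ U` tends to `c.psi (g t0) ∈ U` (`c.psi` is continuous at points of the open set `c.W`); the set of all `q_j` and of the limit is compact in `U`, so (`CovF`) there are finitely many elements of `G` such that each `q_j` is mapped into `K` by one of them; by the pigeonhole principle there are `g1 ∈ G` and a strictly monotone `φ` with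
`g1 (q_(φ j)) ∈ K` for all `j`; `h1` = the inverse of `g1` on `U` (`CoCpt.inv`). `D = ball 0 1 ⊆ Cn 1`, `F_j w = g1 (c.psi (f (φ j) (w 0)))`: `HolOn` on `D` (`HolOn.comp`, `CoCpt.hol`), so differentiable on the open set `D` (`holOn_iff`), with values in `U`. `Taut` (`x0 = fun _ => t0`) gives a subsequence converging to `F' : D → U` locally uniformly. For `w ∈ D`: `c.psi (f (φ (φ' j)) (w 0)) = h1 (F_(φ' j) w) → h1 (F' w) ∈ U`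
(`h1` is continuous on `U`, `HolOn.continuousOn`), and the same sequence tends to `c.psi (g (w 0))` (`g (w 0) ∈ W ⊆ c.W`). So `c.psi (g t) ∈ U`, `g t ∈ c.pre U` for all `t ∈ ball 0 1`. -/
def S_TauC : Prop := ∀ (N n : ℕ) (I : Set (MvPolynomial (Fin N) ℂ)) (U : Set (Cn N))
  (G : Set (Cn N → Cn N)) (K : Set (Cn N)), IsDom I n U → CoCpt U G K →
    ∀ (c : Chart (zeroSet I) n) (W : Set (Cn n)), W ⊆ c.W → TauIn (c.pre U) W

/-- **TauS.** Slices. PROOF. For discs `f j : ball 0 1 → Cn k` use the discs `t ↦ Fin.append z (f j t)`. (Holomorphy and uniform convergence componentwise: `differentiableOn_pi`, the sup norm of `Fin.append z w - Fin.append z w'` is the sup norm of `w - w'`.) -/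
def S_TauS : Prop := ∀ (m k : ℕ) (A W : Set (Cn (m + k))) (z : Cn m), TauIn A W →
  TauIn {w : Cn k | Fin.append z w ∈ A} {w : Cn k | Fin.append z w ∈ W}

/-! ## Supporting conormals -/

/-- **Hes.** Strict concavity of small perturbations.

PROOF. `fderiv ℝ F0 x0 = 0` (local maximum) and, by the second order Taylor formula, `D²F0(x0)(v, v) ≤ -2 η ‖v‖²` for all `v`. The second derivative of `G = F0 + ∑ c_j F1 _ j` is continuous near `x0` (`ContDiffAt ℝ 2`), so there are `r, a` with `G` of class `C²` on `ball x0 (2 r)` and `D²G(x)(v, v) ≤ -η ‖v‖²` for `x ∈ ball x0 r`, `‖c‖ ≤ a` (also `r` for the second claim: `‖fderiv G x1‖ ≤ ε'`, and `|b i| ≤ ‖fderiv G x1‖`). For `x, x1 ∈ ball x0 r`,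
`g s = G (x1 + s (x - x1)) + ∑ b_i (x1 + s (x - x1))_i` satisfies `g' 0 = 0`, `g'' < 0` on `[0, 1]` (if `x ≠ x1`), so `g 1 < g 0` (the convex ball contains the segment). -/
def S_Hes : Prop := ∀ (ι κ : Type) [Fintype ι] [DecidableEq ι] [Fintype κ] (F0 : (ι → ℝ) → ℝ)
  (F1 : (ι → ℝ) → (κ → ℝ)) (x0 : ι → ℝ) (η : ℝ), 0 < η → ContDiffAt ℝ 2 F0 x0 →
  ContDiffAt ℝ 2 F1 x0 → (∀ᶠ x in 𝓝 x0, F0 x + η * ‖x - x0‖ ^ 2 ≤ F0 x0) → ∀ ε > 0,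
  ∃ r > 0, ∃ a > 0, ∀ x1 ∈ ball x0 r, ∀ c : κ → ℝ, ‖c‖ ≤ a → ∃ b : ι → ℝ, ‖b‖ ≤ ε ∧
    ∀ x ∈ ball x0 r, x ≠ x1 →
      F0 x + (∑ j, c j * F1 x j) + (∑ i, b i * x i) <
        F0 x1 + (∑ j, c j * F1 x1 j) + (∑ i, b i * x1 i)

/-- **Sup.** All small conormals support `A`. Uses `Hes` and the statements `PkOf`, `LvO`, `NoMax`, `D2A` of `KP`.

PROOF. `p0 = pt x0 (h x0) ∈ Pk A`: `Φ`, `η`. Let `ρ1` be so small that on `closedBall p0 ρ1`: `Φ` is `C²` (at every point of a ball around `p0`), `Lv Φ z v > 0` for `v ≠ 0` (`LvO`), and `Φ z + η nsq (z - p0) ≤ Φ p0` for `z ∈ A ∩ closedBall p0 ρ1`, hence (continuity) for `z ∈ closure A ∩ ball p0 ρ1'`, also for `z ∈ closure A ∩ closedBall p0 ρ1` after decreasing `ρ1`. Every point `pt x (h x)`, `x ∈ O`, is in `closure A`. `F0 x = Φ (pt x (h x))`,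
`F1 = h`: `nsq (pt x (h x) - p0) ≥ ‖x - x0‖²` (every coordinate of `x - x0` is a real or imaginary part of a component), so the hypothesis of `Hes` holds. For `c`, `b` let `Ψ (pt x v) = Φ (pt x v) + ∑ c_j v_j + ∑ b_i x_i`, i.e. `Ψ = Φ + L` with a real linear functional `L` on `Cn (m + k)`; its second derivatives are those of `Φ`, so `Lv Ψ = Lv Φ > 0`. If `‖c‖, ‖b‖ ≤ ε` with `ε` small (depending on `η, ρ1, m, k`), then for
`z ∈ closure A`, `‖z - p0‖ = s ∈ [ρ2, ρ1]`: `Ψ z ≤ Φ p0 - η s² + L p0 + C ε s < Ψ p0`, for any prescribed `0 < ρ2 < ρ1`. So the maximum of `Ψ` over the compact set `closure A ∩ closedBall p0 ρ1` is attained only at points `q ∈ ball p0 ρ2`; `PkOf` gives `q ∈ Pk A`; by `NF.loc` (for `ρ2` small) `q = pt x' (h x')`, `x' ∈ O`, `‖x' - x0‖ ≤ ‖q - p0‖ < ρ2 ≤ r` (`r` from `Hes`). `Hes` with `x1` and `c`, `‖c‖ ≤ a0 := min a ε`, gives `b`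 with `‖b‖ ≤ ε`,
and `Ψ q ≥ Ψ (pt x1 (h x1))` (`x1 ∈ ball x0 r'`, `r'` small, so that `pt x1 (h x1) ∈ closedBall p0 ρ1`) forces `x' = x1`. So `Ψ z ≤ Ψ (pt x1 (h x1))` for all `z ∈ A ∩ closedBall p0 ρ1`, in particular for `z = pt x v` with `‖x - x0‖ < ρ`, `‖v - h x0‖ < ρ`, `ρ` small. -/
def S_Sup : Prop := ∀ (m k : ℕ) (A : Set (Cn (m + k))) (O : Set (Ix m k → ℝ))
  (h : (Ix m k → ℝ) → (Fin k → ℝ)), NF A O h → ∀ x0 ∈ O,
  ∃ Φ : Cn (m + k) → ℝ, ContDiffAt ℝ 2 Φ (pt x0 (h x0)) ∧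
    (∀ v ≠ 0, 0 < Lv Φ (pt x0 (h x0)) v) ∧ ∃ a > 0, ∃ r > 0, ∀ x1 ∈ ball x0 r,
    ∀ c : Fin k → ℝ, ‖c‖ ≤ a → ∃ b : Ix m k → ℝ, ∀ (x : Ix m k → ℝ) (v : Fin k → ℝ),
      ‖x - x0‖ < r → ‖v - h x0‖ < r → pt x v ∈ A →
      Φ (pt x v) + (∑ j, c j * v j) + (∑ i, b i * x i) ≤
        Φ (pt x1 (h x1)) + (∑ j, c j * h x1 j) + (∑ i, b i * x1 i)

/-- **Acu.** The acute wedge. Uses `Sup`.

PROOF. `Φ, a, r` from `Sup`. `φ (x, v) = Φ (pt x v)` is `C²` near `(x0, h x0)`; let `ξ (x, v) ∈ ℝᵏ` be its partial gradient in `v` (`ξ_j = ∂φ/∂v_j`), continuous. On a small ball around `(x0, h x0)`: `|φ (x, v + ν) - φ (x, v) - ∑ ξ_j (x, v) ν_j| ≤ C ‖ν‖²` and `|ξ_j (x, v) - ξ_j (x0, h x0)| ≤ a/4`. Let `x` be near `x0`, `ν` small, `pt x (h x + ν) ∈ A`. `Sup` with `x1 = x`, `c_j = a` if `ν_j ≥ 0`, `c_j = -a` otherwise, and the point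
`(x, v) = (x, h x + ν)` (the terms with `b` cancel): `φ (x, h x + ν) + ∑ c_j ν_j ≤ φ (x, h x)`, so `∑ ξ_j (x, h x) ν_j + a ∑ |ν_j| ≤ C ‖ν‖²`, hence with `λ_j = -ξ_j (x0, h x0)`: `∑ λ_j ν_j ≥ (3 a/4) ∑ |ν_j| - C ‖ν‖² ≥ (a/2) ‖ν‖` for `‖ν‖ ≤ a/(4 (C + 1))` (`‖ν‖ ≤ ∑ |ν_j|`). -/
def S_Acu : Prop := ∀ (m k : ℕ) (A : Set (Cn (m + k))) (O : Set (Ix m k → ℝ))
  (h : (Ix m k → ℝ) → (Fin k → ℝ)), NF A O h → ∀ x0 ∈ O,
  ∃ lam : Fin k → ℝ, ∃ a > 0, ∃ r > 0, ball x0 r ⊆ O ∧ ∀ x ∈ ball x0 r, ∀ ν : Fin k → ℝ,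
    ‖ν‖ < r → pt x (h x + ν) ∈ A → a * ‖ν‖ ≤ ∑ j, lam j * ν j

/-! ## Sections -/

/-- **SqA.** Uses `TSn`. PROOF. `∃ v, v = h x ∧ pt x (v + ν) ∈ A`: `SQ.ex` with `SF h` (reindexed) and the preimage of `{x | cpx x ∈ A}` under the map `(x, ν, v) ↦` (real parts `(Re z, Re w)`, imaginary parts `(Im z, v + ν)`) of `pt x (v + ν)`, which is polynomial (`SQ.preim`; `cpx (…) = pt x (v + ν)`: check on `Fin.castAdd k i` and `Fin.natAdd m j`, `Fin.addCases`). -/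
def S_SqA : Prop := ∀ (m k : ℕ) (A : Set (Cn (m + k))) (h : (Ix m k → ℝ) → (Fin k → ℝ)), SC A →
  SF h → SQ {z : Ix m k ⊕ Fin k → ℝ |
    pt (fun i => z (Sum.inl i)) (h (fun i => z (Sum.inl i)) + fun j => z (Sum.inr j)) ∈ A}

/-- **Sec1.** Over generic points there are points of `A` at every small height. Uses `TSn`, `SqA`, `DL`, `NowD`.

PROOF. `G = {(t, x) | ∃ ν, ‖ν‖ < r ∧ ∑ lam_j ν_j = t ∧ pt x (h x + ν) ∈ A}` is semialgebraic (`SqA`, `SQ.ex`; `‖ν‖ < r` means `∀ j, |ν_j| < r`, `r > 0`). `DL`: `q`; `NowD`: `x1 ∈ ball x0 r` with `q x1 ≠ 0`; `Ev G x1` with `δ`, wlog `ball x1 δ ⊆ ball x0 r`. Claim: the alternative `cns t x ∉ G` for all `x ∈ ball x1 δ`, `t ∈ (0, δ)` is impossible. `x1 ∈ O`, so `pt x1 (h x1) ∈ Pk A ⊆ closure A`: there are points `p ∈ A` arbitrarily close to it;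
write `p = pt x v` (unique), `ν = v - h x`: as `p → pt x1 (h x1)`, `x → x1`, `v → h x1`, so `ν → 0` (`h` is continuous at `x1`). `ν ≠ 0` because `pt x (h x) ∈ Pk A` is not in `A`. By the acute inequality `t = ∑ lam_j ν_j ≥ a ‖ν‖ > 0`, and `t → 0`: so `cns t x ∈ G`. -/
def S_Sec1 : Prop := ∀ (m k : ℕ) (A : Set (Cn (m + k))) (O : Set (Ix m k → ℝ))
  (h : (Ix m k → ℝ) → (Fin k → ℝ)), NF A O h → ∀ x0 ∈ O, ∀ (lam : Fin k → ℝ) (a r : ℝ), 0 < a →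
  0 < r → ball x0 r ⊆ O → (∀ x ∈ ball x0 r, ∀ ν : Fin k → ℝ,
    ‖ν‖ < r → pt x (h x + ν) ∈ A → a * ‖ν‖ ≤ ∑ j, lam j * ν j) →
  ∃ x1 : Ix m k → ℝ, ∃ δ > 0, ball x1 δ ⊆ ball x0 r ∧ ∀ x ∈ ball x1 δ, ∀ t ∈ Ioo (0 : ℝ) δ,
    ∃ ν : Fin k → ℝ, ‖ν‖ < r ∧ ∑ j, lam j * ν j = t ∧ pt x (h x + ν) ∈ A

/-- **Sec2.** A semialgebraic section. Uses `TSn`, `SqA`, `Sel`.

PROOF. First `0 < k`: if `k = 0` then `ν = 0`, `t = 0`, so the hypothesis `hs` is contradictory (take `t = δ/2`). Let `In x ν e` mean `0 < e ∧ ∀ ν', ‖ν' - ν‖ < e → ‖ν'‖ < r ∧ pt x (h x + ν') ∈ A`, and `M (t, x) ν` mean `∑ lam_j ν_j = t ∧ ∃ e, In x ν e ∧ ∀ ν'' e'', ∑ lam_j ν''_j = t → In x ν'' e'' → e'' ≤ e`. This is semialgebraic in `((t, x), ν)`. Let `x ∈ ball x1 δ`, `t ∈ (0, δ)`. The set `E` of the `e` for which there is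
`ν` with `∑ lam ν = t`, `In x ν e` is not empty (by `hs` and openness of `{ν | ‖ν‖ < r, pt x (h x + ν) ∈ A}`) and bounded by `2 r` (`0 < k`). Let `e* = sup E`; choose `ν_i`, `e_i → e*`; a subsequence of `ν_i` converges to `ν`, `∑ lam ν = t`, and `In x ν e*`: if `‖ν' - ν‖ < e*` then `‖ν' - ν_i‖ < e_i` for large `i`. So `e* ∈ E` is the maximum, and `{ν | M (t, x) ν} = {ν | ∑ lam ν = t, In x ν e*}` is not empty, bounded, and closed by the same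
argument: compact. `Sel` (`ι := Option (Ix m k)`, `κ := Fin k`) gives `σ`; `Y j = fun z => σ z j`, `SF1 (Y j)`: `∃ y, y = σ z ∧ z none' = y j`. In `M` we have `pt x (h x + ν) ∈ A`, `‖ν‖ < r` (`ν' = ν`), so `a ‖ν‖ ≤ t`. -/
def S_Sec2 : Prop := ∀ (m k : ℕ) (A : Set (Cn (m + k))) (O : Set (Ix m k → ℝ))
  (h : (Ix m k → ℝ) → (Fin k → ℝ)), NF A O h → ∀ x0 ∈ O, ∀ (lam : Fin k → ℝ) (a r : ℝ), 0 < a →
  0 < r → ball x0 r ⊆ O → (∀ x ∈ ball x0 r, ∀ ν : Fin k → ℝ,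
    ‖ν‖ < r → pt x (h x + ν) ∈ A → a * ‖ν‖ ≤ ∑ j, lam j * ν j) →
  ∀ (x1 : Ix m k → ℝ) (δ : ℝ), 0 < δ → ball x1 δ ⊆ ball x0 r →
  (∀ x ∈ ball x1 δ, ∀ t ∈ Ioo (0 : ℝ) δ,
    ∃ ν : Fin k → ℝ, ‖ν‖ < r ∧ ∑ j, lam j * ν j = t ∧ pt x (h x + ν) ∈ A) →
  ∃ Y : Fin k → (Option (Ix m k) → ℝ) → ℝ, (∀ j, SF1 (Y j)) ∧ ∀ x ∈ ball x1 δ,
    ∀ t ∈ Ioo (0 : ℝ) δ, (∀ j, |Y j (cns t x)| ≤ a⁻¹ * t) ∧
      pt x (h x + fun j => Y j (cns t x)) ∈ A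

/-- **Sec.** Sections with small Lipschitz constants. Uses `Acu`, `Sec1`, `Sec2`, `LipV`.

PROOF. `Acu` at a point `x0 ∈ O`, `Sec1`, `Sec2`, and `LipV` with `f = Y`, `O := ball x1 δ`, `C := a⁻¹`, `δ0 := δ`. (If `LipV` gives a radius `δ2`, take the minimum with `δ`.) -/
def S_Sec : Prop := ∀ (m k : ℕ) (A : Set (Cn (m + k))) (O : Set (Ix m k → ℝ))
  (h : (Ix m k → ℝ) → (Fin k → ℝ)), NF A O h →
  ∃ (x2 : Ix m k → ℝ) (δ C : ℝ) (Y : Fin k → (Option (Ix m k) → ℝ) → ℝ), 0 < δ ∧ 0 ≤ C ∧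
    ball x2 δ ⊆ O ∧ (∀ x ∈ ball x2 δ, ∀ t ∈ Ioo (0 : ℝ) δ, (∀ j, |Y j (cns t x)| ≤ C * t) ∧
      pt x (h x + fun j => Y j (cns t x)) ∈ A) ∧
    (∀ τ > 0, ∃ δ' > 0, ∀ j, ∀ x ∈ ball x2 δ, ∀ x' ∈ ball x2 δ, ∀ t ∈ Ioo (0 : ℝ) δ',
      |Y j (cns t x) - Y j (cns t x')| ≤ τ * ‖x - x'‖) ∧
    ∀ j, ∀ x ∈ ball x2 δ, ∀ t ∈ Ioo (0 : ℝ) δ, ∀ t' ∈ Ioo (0 : ℝ) δ,
      |Y j (cns t x) - Y j (cns t' x)| ≤ C * |t - t'|

/-! ## The full wedge -/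

/-- **Rtr.** The nearest point retraction onto a closed Euclidean ball.

PROOF. `P x = x` if `‖x - x0‖ ≤ ρ`, `x0 + (ρ/‖x - x0‖) • (x - x0)` otherwise. It is the nearest point projection onto a closed convex set in a Hilbert space, hence 1-Lipschitz (`⟪x - P x, P y - P x⟫ ≤ 0` and the same with `x, y` exchanged; add). -/
def S_Rtr : Prop := ∀ (k : ℕ) (x0 : Ek k) (ρ : ℝ), 0 < ρ → ∃ P : Ek k → Ek k,
  (∀ x, P x ∈ closedBall x0 ρ) ∧ (∀ x ∈ closedBall x0 ρ, P x = x) ∧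
    ∀ x x', ‖P x - P x'‖ ≤ ‖x - x'‖

/-- **Qua.** The quadratic remainder of a function of class `C²`.

PROOF. On a ball on which `F` is `C²` with `‖D²F‖ ≤ M`: `F x - F x' - DF(x0)(x - x') = ∫_0^1 (DF(x' + s (x - x')) - DF(x0)) (x - x') ds`, and `‖DF(x' + s (x - x')) - DF(x0)‖ ≤ M (‖x - x0‖ + ‖x' - x0‖)`; or the mean value inequality for `x ↦ F x - DF(x0) x`, whose derivative on the segment is bounded by `M max (‖x - x0‖, ‖x' - x0‖)`. -/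
def S_Qua : Prop := ∀ (E F : Type) [NormedAddCommGroup E] [NormedSpace ℝ E]
  [NormedAddCommGroup F] [NormedSpace ℝ F] (f : E → F) (x0 : E), ContDiffAt ℝ 2 f x0 →
  ∃ C > 0, ∃ r > 0, ∀ x ∈ closedBall x0 r, ∀ x' ∈ closedBall x0 r,
    ‖f x - f x' - fderiv ℝ f x0 (x - x')‖ ≤ C * (‖x - x0‖ + ‖x' - x0‖) * ‖x - x'‖

/-- Replace the last block of coordinates (`Re w`) of `x` by `u`. -/
def rpl {m k : ℕ} (x : Ix m k → ℝ) (u : Fin k → ℝ) : Ix m k → ℝ :=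
  Sum.elim (fun i => x (Sum.inl i)) u

/-- The point `z` of `x`. -/
noncomputable def zof {m k : ℕ} (x : Ix m k → ℝ) : Cn m := fun a =>
  (x (Sum.inl (Sum.inl a)) : ℂ) + (x (Sum.inl (Sum.inr a)) : ℂ) * Complex.I

/-- **BWh.** The hypotheses of the wedge theorem in the slices. Uses `Rtr`, `Qua`, `TauS`.

PROOF. Let `x* ∈ ball x2 δ`; in the slice `z = zof x*` put `x0 = (x*_(inr j))_j ∈ Ek k`, `A1 = {w | Fin.append z w ∈ A}`. Note `pt (rpl x* u) v = Fin.append z (cpt u v)`, `rpl x* x0 = x*`, and `‖rpl x* u - rpl x* u'‖ = ‖u - u'‖_∞ ≤ ‖u - u'‖_2`; vectors of `ℝᵏ` satisfy `‖v‖_2 ≤ √k ‖v‖_∞ ≤ (k + 1) ‖v‖_∞`. Choose `ρ1 > 0` with `rpl x* u ∈ ball x2 δ` for `u ∈ closedBall x0 ρ1`, and `ρ1` at most the radius of `Qua` for `f u = h (rpl x* u)`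
(as a map `Ek k → Ek k`, `C²` at `x0` since `h` is analytic on `O`). `P` = the retraction onto `closedBall x0 ρ1` (`Rtr`), `φ u = h (rpl x* (P u))`, `y u r = (Y j (cns r (rpl x* (P u))))_j`. `lφ`: `‖fderiv ℝ h‖ ≤ 1/(100 (k+1))` on the convex set `ball x2 δ ⊆ O` gives `‖h x - h x'‖_∞ ≤ 1/(100(k+1)) ‖x - x'‖_∞`, so `‖φ u - φ u'‖_2 ≤ (1/100) ‖u - u'‖`. `sφ`: `Qua` (`P u = u` on the ball). `ly`: the Lipschitz property with
`τ = 1/(100 (k+1))` for `r < R1`, `R1` = the minimum of `δ` and the corresponding `δ'`. `ly0`: the same with `τ/(k + 1)`. `lr`, `by'`: constant `(k + 1) C`. `mem`: clear. `tau`: the hypothesis at `x*` gives `TauIn A (ball (pt x* (h x*)) r)`; `TauS`; `TauIn` is inherited by smaller sets `W`: `ball (cpt x0 (φ x0)) ρ2 ⊆ {w | Fin.append z w ∈ ball (pt x* (h x*)) r}` for `ρ2 = r`. The constant is the maximum of `1`, `(k+1) C` and that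 of `Qua`. -/
def S_BWh : Prop := ∀ (m k : ℕ) (A : Set (Cn (m + k))) (O : Set (Ix m k → ℝ))
  (h : (Ix m k → ℝ) → (Fin k → ℝ)), NF A O h →
  (∀ x ∈ O, ∃ r > 0, TauIn A (ball (pt x (h x)) r)) →
  ∀ (x2 : Ix m k → ℝ) (δ C : ℝ) (Y : Fin k → (Option (Ix m k) → ℝ) → ℝ), 0 < δ → 0 ≤ C →
    ball x2 δ ⊆ O → (∀ x ∈ ball x2 δ, ∀ t ∈ Ioo (0 : ℝ) δ, (∀ j, |Y j (cns t x)| ≤ C * t) ∧
      pt x (h x + fun j => Y j (cns t x)) ∈ A) →
    (∀ τ > 0, ∃ δ' > 0, ∀ j, ∀ x ∈ ball x2 δ, ∀ x' ∈ ball x2 δ, ∀ t ∈ Ioo (0 : ℝ) δ',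
      |Y j (cns t x) - Y j (cns t x')| ≤ τ * ‖x - x'‖) →
    (∀ j, ∀ x ∈ ball x2 δ, ∀ t ∈ Ioo (0 : ℝ) δ, ∀ t' ∈ Ioo (0 : ℝ) δ,
      |Y j (cns t x) - Y j (cns t' x)| ≤ C * |t - t'|) →
    ∀ xs ∈ ball x2 δ, ∃ (φ : Ek k → Ek k) (y : Ek k → ℝ → Ek k) (ρ1 R1 ρ2 C' : ℝ),
      BW {w : Cn k | Fin.append (zof xs) w ∈ A} (WithLp.toLp 2 fun j => xs (Sum.inr j)) φ y
        ρ1 R1 ρ2 C' ∧
      ∀ j, φ (WithLp.toLp 2 fun j => xs (Sum.inr j)) j = h xs j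

/-- **WdP.** Thin wedges at every point. Uses `Sec`, `BWh`, `BWc`.

PROOF. `Sec`, and for `xs ∈ ball x2 δ`: `BWh`, `BWc`: `V, c` with `cpt x0 (φ x0 + θ • v) ∈ A1` for `v ∈ ball V c` and arbitrarily small `θ`; this point is `pt xs (h xs + θ • v)` in the slice: `Fin.append (zof xs) (cpt x0 (φ x0 + θ • v)) = pt xs (h xs + θ • v)`. The sup norm ball of radius `c/(k+1)` around `V` is contained in the Euclidean ball of radius `c`. -/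
def S_WdP : Prop := ∀ (m k : ℕ) (A : Set (Cn (m + k))) (O : Set (Ix m k → ℝ))
  (h : (Ix m k → ℝ) → (Fin k → ℝ)), NF A O h →
  (∀ x ∈ O, ∃ r > 0, TauIn A (ball (pt x (h x)) r)) →
  ∃ O1 ⊆ O, IsOpen O1 ∧ O1.Nonempty ∧ ∀ x ∈ O1, ∃ (V : Fin k → ℝ) (c : ℝ), 0 < c ∧
    ∀ τ > 0, ∃ θ ∈ Ioo (0 : ℝ) τ, ∀ y ∈ ball V c, pt x (h x + θ • y) ∈ A

/-- **LL.** The output of block L. Uses `TSn`, `SqA`, `WdP`, `Bai`, `DL`, `NowD`.

PROOF. `O1` from `WdP`. For rational `v : Fin k → ℚ` and rational `e > 0` let `H(v, e) = {x | ∀ τ > 0, ∃ θ ∈ (0, τ), ∀ y ∈ ball v e, pt x (h x + θ • y) ∈ A}` (semialgebraic: `SqA`, `SQ.preim`, quantifiers). For `x ∈ O1` with `V, c` choose rational `v` with `‖v - V‖ < c/2`, `e` rational, `0 < e < c/2`: `x ∈ H(v, e)`. So `O1` is contained in the countable union of the `H(v, e)`; `Bai` (enumerate the countable index set): some `H(v, e)`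 contains a
non-empty open set `O2 ⊆ O1`. `DL` for `G = {(t, x) | ∀ y ∈ ball v e, pt x (h x + t • y) ∈ A}`: `q`. `O3 = O2 ∩ {q ≠ 0}`: open, not empty (`NowD`). For `x ∈ O3`: `Ev G x`, and the second alternative contradicts `x ∈ H(v, e)`; so the wedge property holds with `y0 = v`, `δ = min δ e`. `NF` for `O3`: `NF.mono`; the last condition: every coordinate of `x' - x` is bounded by `‖pt x' v' - pt x v‖` (real and imaginary parts of components), and `O3` is open. -/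
def S_LL : Prop := ∀ (m k : ℕ) (A : Set (Cn (m + k))) (O : Set (Ix m k → ℝ))
  (h : (Ix m k → ℝ) → (Fin k → ℝ)), NF A O h →
  (∀ x ∈ O, ∃ r > 0, TauIn A (ball (pt x (h x)) r)) → ∃ O' ⊆ O, LocD A O' h

end KV
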