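import Pool.Agent.Lib.KV.DefsC
import Pool.Agent.Lib.KV.SpecL
import Pool.Agent.Lib.KP.SpecL

/-!
# KV (MP_64edc4_ag, all dimensions), block C: from the local structure `LocD` to a Siegel domain

Notation: `p = mk z w`, `z = zp p`, `w = wp p`, `dil σ (z, w) = (σ z, σ² w)`, `hgt F p = Im w - F(z, z)`,
`SDn F Om = {p | hgt F p ∈ Om}` (definitionally, `mem_SDn`). Output `S_CMain`: a domain `U` with the local
structure `LocD` in a chart is biholomorphic to a Siegel domain of the second kind.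
-/

set_option autoImplicit false

open Set Filter Topology Metric

namespace KVC

open KP KVB KV

/-! ## Hurwitz and the quantitative inverse function theorem -/

/-- **Hur.** Hurwitz' theorem in one variable.

PROOF. `g'` is holomorphic on the ball (`TendstoLocallyUniformlyOn.differentiableOn`). Suppose `g'` is not identically zero on the ball. Then it is not identically zero near `0` (identity theorem), so its zero `0` is isolated (`AnalyticAt.eventually_eq_zero_or_eventually_ne_zero`): there is `0 < s < r` with `g' t ≠ 0` for `‖t‖ = s`, so by compactness `‖g' t‖ ≥ 2 δ > 0` on this circle. For `j` large `‖g j t‖ ≥ δ` on the circle and `‖g j 0‖ < δ` (`g' 0 = 0`).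
The function `1 / g j` is holomorphic on `ball 0 r`, bounded by `1/δ` on the circle, so `‖1 / g j 0‖ ≤ 1/δ` (`Complex.norm_le_of_forall_mem_frontier_norm_le`), a contradiction. -/
def S_Hur : Prop := ∀ (g : ℕ → ℂ → ℂ) (g' : ℂ → ℂ) (r : ℝ), 0 < r →
  (∀ᶠ j in atTop, DifferentiableOn ℂ (g j) (ball 0 r)) →
  TendstoUniformlyOn g g' atTop (ball 0 r) →
  (∀ᶠ j in atTop, ∀ t ∈ ball (0 : ℂ) r, g j t ≠ 0) → g' 0 = 0 → ∀ t ∈ ball (0 : ℂ) r, g' t = 0

/-- **HurN.** Hurwitz' theorem for Jacobian determinants. Uses `Hur`.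

PROOF. `H'` is differentiable on the ball, and `fderiv (H j) → fderiv H'` uniformly on every smaller closed ball (Cauchy estimates: `Osgood.norm_fderiv_le` for `H j - H i`, see `Pool/Agent/Lib/KP/G/HLim.lean`). Let `δ_j v = det (fderiv ℂ (H j) v)`, `δ v = det (fderiv ℂ H' v)`: holomorphic on the ball (`H j` is analytic by `Osgood.analyticOnNhd`, so is `v ↦ fderiv ℂ (H j) v`, and the determinant is a polynomial in the entries), `δ_j → δ` uniformly on smaller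
closed balls. Suppose `δ v1 ≠ 0`, `δ v2 = 0` for two points of the ball. The set `D = {t : ℂ | v2 + t • (v1 - v2) ∈ ball w0 r}` is open, convex and contains `0`, `1`. `φ t = δ (v2 + t • (v1 - v2))` is holomorphic on `D`, `φ 0 = 0`; on a small ball around `0` `Hur` applies (`φ_j` has no zeros), so `φ = 0` near `0`, hence on `D` (identity theorem), and `δ v1 = φ 1 = 0`, a contradiction. -/
def S_HurN : Prop := ∀ (n : ℕ) (w0 : Cn n) (r : ℝ) (H : ℕ → Cn n → Cn n) (H' : Cn n → Cn n),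
  0 < r → (∀ᶠ j in atTop, DifferentiableOn ℂ (H j) (ball w0 r)) →
  TendstoUniformlyOn H H' atTop (ball w0 r) →
  (∀ᶠ j in atTop, ∀ v ∈ ball w0 r, (fderiv ℂ (H j) v).det ≠ 0) →
  (∃ v ∈ ball w0 r, (fderiv ℂ H' v).det ≠ 0) → ∀ v ∈ ball w0 r, (fderiv ℂ H' v).det ≠ 0

/-- **QIFT.** Quantitative inverse function theorem.

PROOF. `L = fderiv ℂ H' w0` is bijective (`ContinuousLinearMap.toContinuousLinearEquivOfDetNeZero`). If `n = 0` everything is a point. `c = ‖L⁻¹‖⁻¹ / 2 > 0`. `H'` is analytic on the ball, so there is `0 < s < r/2` with `‖fderiv ℂ H' v - L‖ ≤ c/2` on `closedBall w0 s`; the derivatives converge uniformly there (as in `HurN`), so `‖fderiv ℂ (H j) v - L‖ ≤ c` for `j` large. By the mean value inequality on the convex set `closedBall w0 s`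
`H j` approximates `L` with constant `c` (`ApproximatesLinearOn`), so it maps `closedBall w0 s` onto a set containing `closedBall (H j w0) ((‖L⁻¹‖⁻¹ - c) s)` (`ApproximatesLinearOn.surjOn_closedBall_of_nonlinearRightInverse`). `H j w0 → H' w0`; `ρ = c s / 2`. -/
def S_QIFT : Prop := ∀ (n : ℕ) (w0 : Cn n) (r : ℝ) (H : ℕ → Cn n → Cn n) (H' : Cn n → Cn n),
  0 < r → (∀ᶠ j in atTop, DifferentiableOn ℂ (H j) (ball w0 r)) →
  TendstoUniformlyOn H H' atTop (ball w0 r) → (fderiv ℂ H' w0).det ≠ 0 →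
  ∃ ρ > 0, ∀ᶠ j in atTop, ball (H' w0) ρ ⊆ H j '' ball w0 r

/-! ## The scaling theorem -/

/-- **Bnd2.** The rescaled automorphisms are locally bounded.

PROOF. Word by word the proof of `KP.S_Bnd` (`Pool/Agent/Lib/KP/G/Bnd.lean`), which uses only the fields `normal`, `difB`, `AB`, `BA` of `KP.Scaling`; they are also fields of `Scal`. -/
def S_Bnd2 : Prop := ∀ (N n : ℕ) (I : Set (MvPolynomial (Fin N) ℂ)) (U : Set (Cn N))
  (G : Set (Cn N → Cn N)) (K : Set (Cn N)), IsDom I n U → CoCpt U G K →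
    ∀ (c : Chart (zeroSet I) n) (R : Set (Cn n)) (x0 : Cn n) (A B : ℕ → Cn n → Cn n),
    Scal R x0 A B → R ⊆ c.pre U → ∀ (ψ : ℕ → ℕ) (g : ℕ → Cn N → Cn N) (k : ℕ → Cn N) (k0 : Cn N),
      Tendsto ψ atTop atTop → (∀ j, g j ∈ G) → k0 ∈ U → (∀ j, k j ∈ U) →
      Tendsto k atTop (𝓝 k0) → (∀ j, c.pi (g j (k j)) = A (ψ j) x0) →
      (∀ Q ⊆ U, IsCompact Q → ∀ ρ' > 0, ∀ᶠ j in atTop, ∀ x ∈ Q,
          c.pi (g j x) ∈ R ∧ ‖c.pi (g j x)‖ < ρ' ∧ c.psi (c.pi (g j x)) = g j x) →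
      ∀ Q ⊆ U, IsCompact Q → ∃ M : ℝ, ∀ᶠ j in atTop, ∀ x ∈ Q, ‖B (ψ j) (c.pi (g j x))‖ ≤ M

/-- **ScLim.** The limit of the rescaled automorphisms. Uses the statements `PeakL`, `Mon`, `Exh` of `KP`, and `Bnd2`.

PROOF. The first half of the proof of `KP.tScale` (`Pool/Agent/Lib/KP/G/Scale.lean`, up to the line `G' maps U into D`); `A j x0 → 0` by `Scal.toz` for `Q = {x0}`. -/
def S_ScLim : Prop := ∀ (N n : ℕ) (I : Set (MvPolynomial (Fin N) ℂ)) (U : Set (Cn N))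
  (G : Set (Cn N → Cn N)) (K : Set (Cn N)), IsDom I n U → CoCpt U G K →
    ∀ (c : Chart (zeroSet I) n) (R : Set (Cn n)) (x0 : Cn n) (A B : ℕ → Cn n → Cn n),
    BdR c U R → Scal R x0 A B → ∃ (ψ : ℕ → ℕ) (g h : ℕ → Cn N → Cn N) (k0 : Cn N)
      (G' : Cn N → Cn n), LimD c U G K R x0 A B ψ g h k0 G'

/-- **ScF.** The limit of the inverse maps. Uses the statement `Taut` of `KP`.

PROOF. The second half of the proof of `KP.tScale` (from `the inverse maps`). For compact `Q ⊆ D ⊆ DInf R A` the maps `A j` with large `j` map `Q` into `R` (cover `Q` by finitely many balls), and `ψ → ∞`; so `F_j = h j ∘ c.psi ∘ A (ψ j)` is holomorphic near `Q` with values in `U` for `j` large, `F_j x0 ∈ K`. `Taut`: a subsequence converges to `F' : D → U` uniformly on compact sets. For `x ∈ D`: `B (ψ j) (c.pi (g j (F_j x))) = x`, so `G' (F' x) = x`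
(`ScaleAux.tendsto_eval`). For `x ∈ U` with `G' x ∈ D`: `F_j (B (ψ j) (c.pi (g j x))) = x` for `j` large, so `F' (G' x) = x`. -/
def S_ScF : Prop := ∀ (N n : ℕ) (I : Set (MvPolynomial (Fin N) ℂ)) (U : Set (Cn N))
  (G : Set (Cn N → Cn N)) (K : Set (Cn N)), IsDom I n U → CoCpt U G K →
    ∀ (c : Chart (zeroSet I) n) (R : Set (Cn n)) (x0 : Cn n) (A B : ℕ → Cn n → Cn n),
    BdR c U R → Scal R x0 A B → ∀ (ψ : ℕ → ℕ) (g h : ℕ → Cn N → Cn N) (k0 : Cn N)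
      (G' : Cn N → Cn n), LimD c U G K R x0 A B ψ g h k0 G' →
    ∀ D : Set (Cn n), IsOpen D → IsPreconnected D → x0 ∈ D → D ⊆ DInf R A →
      ∃ F' : Cn n → Cn N, DifferentiableOn ℂ F' D ∧ MapsTo F' D U ∧ (∀ x ∈ D, G' (F' x) = x) ∧
        ∀ x ∈ U, G' x ∈ D → F' (G' x) = x

/-- **RegF.** PROOF. `y = F' x ∈ U`, `e` a chart at `y`, `ball (e.pi y) r ⊆ e.pre U` (`IsDom.isOpen_pre`). `H' = G' ∘ e.psi` is differentiable on this ball (`HolOn.comp`, `holOn_iff`). Near `x` the map `e.pi ∘ F'` is differentiable with values in this ball, and `H' (e.pi (F' x')) = G' (F' x') = x'` (`F' x' ∈ zeroSet I ∩ e.O`, `Chart.right`). So `fderiv H' (e.pi y) ∘ fderiv (e.pi ∘ F') x = id` and `det (fderiv H' (e.pi y)) ≠ 0`.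
By continuity of `v ↦ fderiv ℂ H' v` (`H'` is analytic) the determinant is not zero on a smaller ball. -/
def S_RegF : Prop := ∀ (N n : ℕ) (I : Set (MvPolynomial (Fin N) ℂ)) (U : Set (Cn N)),
  IsDom I n U → ∀ (G' : Cn N → Cn n), HolOn G' U → ∀ (D : Set (Cn n)) (F' : Cn n → Cn N),
  IsOpen D → DifferentiableOn ℂ F' D → MapsTo F' D U → (∀ x ∈ D, G' (F' x) = x) →
  ∀ x ∈ D, Reg (zeroSet I) U G' (F' x)

/-- **RegU.** The derivative of `G'` is invertible everywhere. Uses `HurN`.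

PROOF. Let `T` be the set of the `x ∈ U` with `Reg (zeroSet I) U G' x`. `T` is relatively open in `U`: if `e, ρ` are as in `Reg` for `x`, then for `y ∈ U` near `x`: `y ∈ e.O`, `‖e.pi y - e.pi x‖ < ρ/2`, and `e, ρ/2` work for `y`. `T` is closed in `U`: let `x ∈ U ∩ closure T`, `e` a chart at `x`, `w0 = e.pi x`, `closedBall w0 r ⊆ e.pre U`, `Q = e.psi '' closedBall w0 r`, a compact subset of `U`. `H_j v = B (ψ j) (c.pi (g j (e.psi v)))`, `H' v = G' (e.psi v)`: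
`H_j → H'` uniformly on `ball w0 r`. (a) `H_j` is differentiable on `ball w0 r` for `j` large (`LimD.loc` for `Q`; as in `ScaleAux.holG`). (b) For `j` large and `v ∈ ball w0 r`: `det (fderiv H_j v) ≠ 0`. Namely `A (ψ j) (H_j v) = c.pi (g j (e.psi v)) ∈ R`, and `R` is open; on the open set `D_j = {q | A (ψ j) q ∈ R}` the map `q ↦ h j (c.psi (A (ψ j) q))` is holomorphic with values in `U`, and its value at `H_j v` is `h j (g j (e.psi v)) = e.psi v ∈ e.O`; so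
`E_j q = e.pi (h j (c.psi (A (ψ j) q)))` is differentiable at `H_j v`, and `E_j (H_j v') = v'` for `v'` near `v`: `fderiv E_j ∘ fderiv H_j = id`. (c) There is `v ∈ ball w0 r` with `det (fderiv H' v) ≠ 0`: let `y ∈ T` be close to `x`, so `y ∈ e.O`, `e.pi y ∈ ball w0 r`; `e1` the chart of `Reg` for `y`. Near `e1.pi y`: `G' ∘ e1.psi = H' ∘ (e.pi ∘ e1.psi)`, so `det (fderiv (G' ∘ e1.psi)) = det (fderiv H' (e.pi y)) · det (…)` is not zero at `e1.pi y`.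
`HurN`: `det (fderiv H' v) ≠ 0` on `ball w0 r`, so `x ∈ T`. `U` is connected (`ScaleAux.conn_ind` in `KP/G/Scale.lean`). -/
def S_RegU : Prop := ∀ (N n : ℕ) (I : Set (MvPolynomial (Fin N) ℂ)) (U : Set (Cn N))
  (G : Set (Cn N → Cn N)) (K : Set (Cn N)), IsDom I n U → CoCpt U G K →
    ∀ (c : Chart (zeroSet I) n) (R : Set (Cn n)) (x0 : Cn n) (A B : ℕ → Cn n → Cn n),
    BdR c U R → Scal R x0 A B → ∀ (ψ : ℕ → ℕ) (g h : ℕ → Cn N → Cn N) (k0 : Cn N)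
      (G' : Cn N → Cn n), LimD c U G K R x0 A B ψ g h k0 G' →
    (∃ x ∈ U, Reg (zeroSet I) U G' x) → ∀ x ∈ U, Reg (zeroSet I) U G' x

/-- **RegD.** Uses `QIFT`.

PROOF. `e, ρ` from `Reg` for `x`, `w0 = e.pi x`, `0 < r < ρ`, `Q = e.psi '' closedBall w0 r` compact in `U`. `H_j`, `H'` as in `RegU`: differentiable for `j` large, `H_j → H'` uniformly on `ball w0 r`, `H' w0 = G' x`. `QIFT` gives `ρ' > 0` such that for `j` large every `q ∈ ball (G' x) ρ'` is `H_j v` with `v ∈ ball w0 r`, so `A (ψ j) q = c.pi (g j (e.psi v)) ∈ R` (`Scal.AB`, `LimD.loc` for `Q`). Since `ψ → ∞`: `∃ᶠ j', ∀ q ∈ ball (G' x) ρ', A j' q ∈ R`; `Scal.stab`. -/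
def S_RegD : Prop := ∀ (N n : ℕ) (I : Set (MvPolynomial (Fin N) ℂ)) (U : Set (Cn N))
  (G : Set (Cn N → Cn N)) (K : Set (Cn N)), IsDom I n U → CoCpt U G K →
    ∀ (c : Chart (zeroSet I) n) (R : Set (Cn n)) (x0 : Cn n) (A B : ℕ → Cn n → Cn n),
    BdR c U R → Scal R x0 A B → ∀ (ψ : ℕ → ℕ) (g h : ℕ → Cn N → Cn N) (k0 : Cn N)
      (G' : Cn N → Cn n), LimD c U G K R x0 A B ψ g h k0 G' →
    ∀ x ∈ U, Reg (zeroSet I) U G' x → G' x ∈ DInf R A

/-- **Scale2.** The scaling theorem. Uses `ScLim`, `ScF`, `RegF`, `RegU`, `RegD`.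

PROOF. `D` = the connected component of `x0` in `DInf R A`. `DInf R A` is open (if `r` works for `q` then `r/2` works for the points of `ball q (r/2)`), so `D` is open (`IsOpen.connectedComponentIn`), preconnected, `x0 ∈ D` (`Scal.base`). `ScLim`, `ScF` (`connectedComponentIn_subset`). `RegF` for `x0`: `F' x0 ∈ U` is regular; `RegU`, `RegD`: `G'` maps `U` into `DInf R A`. The image `G' '' U` is preconnected (`HolOn.continuousOn`) and contains `G' k0 = x0`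
(`k0 ∈ K ⊆ U`), so it is contained in `D` (`IsPreconnected.subset_connectedComponentIn`). `G'` and `F'` are inverse to each other. -/
def S_Scale2 : Prop := ∀ (N n : ℕ) (I : Set (MvPolynomial (Fin N) ℂ)) (U : Set (Cn N))
  (G : Set (Cn N → Cn N)) (K : Set (Cn N)), IsDom I n U → CoCpt U G K →
    ∀ (c : Chart (zeroSet I) n) (R : Set (Cn n)) (x0 : Cn n) (A B : ℕ → Cn n → Cn n),
    BdR c U R → Scal R x0 A B → Biholo U (connectedComponentIn (DInf R A) x0)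

/-! ## The continuity principle and convexity -/

/-- **Kon.** The continuity principle. Uses the statement `Taut` of `KP`.

PROOF. `f1 : U → D`, `g1 : D → U` from `Biholo U D` (both `HolOn`, continuous, inverse to each other). If `B` is empty, so is its closure. Let `X` be the set of the `s ∈ [0, 1]` with `f s t ∈ D` for all `t ∈ closure B`. `0 ∈ X`. `X` is relatively open in `[0, 1]`: `closure B` is compact, `D` is open, `(s, t) ↦ f s t` is continuous (tube lemma). `X` is closed: let `s_j ∈ X`, `s_j → s`. `B` is open, bounded, not empty, so its frontier contains a point `t0` (otherwise `B` would be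
clopen in `ℂ`); `f s t0 ∈ D`, so there is `b ∈ B` near `t0` with `f s b ∈ D` (continuity of `f s` on `closure B`). `u = g1 (f s b) ∈ U`; `CoCpt.cov`: `g ∈ G` which maps the points of `U` near `u` into `K`, `h ∈ G` its inverse (`CoCpt.inv`). `D' = {v : Cn 1 | v 0 ∈ B}`, `F_j v = g (g1 (f s_j (v 0)))`: holomorphic on the open set `D'` with values in `U`, and `F_j (fun _ => b) ∈ K` for `j` large (`f s_j b → f s b`; drop the first members). `Taut`: a subsequence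
converges to `F' : D' → U` locally uniformly. For `t ∈ B`: `g1 (f s_j t) = h (F_j (fun _ => t)) → h (F' (fun _ => t)) ∈ U`, so `f s_j t = f1 (g1 (f s_j t))` tends to `f1 (h (F' (fun _ => t))) ∈ D`; and it tends to `f s t`. So `f s t ∈ D` for `t ∈ B`; for `t ∈ frontier B` it is a hypothesis (`closure B = B ∪ frontier B`). So `X = [0, 1]` (`[0, 1]` is preconnected). -/
def S_Kon : Prop := ∀ (N n : ℕ) (I : Set (MvPolynomial (Fin N) ℂ)) (U : Set (Cn N))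
  (G : Set (Cn N → Cn N)) (K : Set (Cn N)), IsDom I n U → CoCpt U G K →
    ∀ D : Set (Cn n), IsOpen D → Biholo U D → KonP D

/-- **LogK.** PROOF. Let `a, b, α, β, s` be as in `LogC`, `v ∈ ball ((1 - s) • a + s • b) (α ^ (1 - s) * β ^ s)`; write `v = (1 - s) • a + s • b + ρ • e`, `‖e‖ ≤ 1`, `0 ≤ ρ < α ^ (1 - s) * β ^ s`. By continuity there are `0 < α' < α`, `0 < β' < β`, `ε > 0` with `ρ ≤ ρ' := α' ^ (1 - s) * β' ^ s * exp (-ε s (1 - s))`; `λ = ρ / ρ' ∈ [0, 1]`. `δ > 0` such that the `δ`-neighbourhood of the compact segment is in `Om`; `L > 0` with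
`max α' β' * exp (-ε L²) < δ`. `B = {ζ | 0 < Re ζ < 1, |Im ζ| < L}`: open, convex, bounded, its closure is the closed rectangle. `E ζ = exp ((1 - ζ) log α' + ζ log β' + ε (ζ² - ζ))`, `|E ζ| = α' ^ (1-x) β' ^ x exp (ε (x² - y² - x)) ≤ α' ^ (1-x) β' ^ x exp (-ε y²)` for `ζ = x + i y`, `x ∈ [0, 1]`. `f τ ζ = mk 0 (I • ((1 - ζ) • cx a + ζ • cx b + (τ λ E ζ) • cx e))`: `hgt F (f τ ζ) = (1 - x) • a + x • b + (τ λ Re (E ζ)) • e`
(`hf F 0 0 = 0`). For `x = 0` it is in `ball a α` (`|E| ≤ α'`), for `x = 1` in `ball b β`, for `|y| = L` in the `δ`-neighbourhood of the segment; for `τ = 0` in the segment. `KonP` for `SDn F Om` (`mem_SDn`): `hgt F (f 1 s) ∈ Om`, and `E s = ρ'` is real: `hgt F (f 1 s) = v`. -/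
def S_LogK : Prop := ∀ (m k : ℕ) (F : Fin k → Matrix (Fin m) (Fin m) ℂ)
  (Om : Set (Fin k → ℝ)), IsOpen Om → KonP (SDn F Om) → LogC Om

/-- **CvxL.** PROOF. (1) If `segment x y ⊆ Om` and `segment y z ⊆ Om`, then `segment x z ⊆ Om`: let `y_t = (1 - t) • y + t • z`, `X = {t ∈ [0, 1] | segment x y_t ⊆ Om}`. `0 ∈ X`. By compactness there is `δ > 0` with `ball x δ ⊆ Om`, `ball y_t δ ⊆ Om` for all `t ∈ [0, 1]`. `X` is relatively open (compactness of the segment, `Om` open). `X` is closed: `t_j → t`, `t_j ∈ X`: by `LogC` (`α = β = δ`, `δ ^ (1 - s) * δ ^ s = δ`) the balls of radius `δ` around the points of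
`segment x y_(t_j)` are in `Om`; every point of `segment x y_t` has distance `< δ` from `segment x y_(t_j)` for `j` large. So `1 ∈ X`. (2) Fix `x ∈ Om`; `{y ∈ Om | segment x y ⊆ Om}` contains `x`, is open, and closed in `Om`: if `y ∈ Om` is in its closure, `ball y r ⊆ Om`, take `y' ∈ ball y r` in the set; `segment y' y ⊆ Om` and (1). `Om` is preconnected, so it is all of `Om`: convex. -/
def S_CvxL : Prop := ∀ (k : ℕ) (Om : Set (Fin k → ℝ)), IsOpen Om → IsPreconnected Om →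
  LogC Om → Convex ℝ Om

/-- **PsdK.** PROOF. `hf F z z` is real (`Herm`): `hf F z z = cx (rev (hf F z z))`. For `y ∈ Om` and `z` let `B = ball 0 1`, `f s ζ = mk ((s ζ) • z) (I • (cx y + (s²) • hf F z z))`. `hgt F (f s ζ) = y + (s² - s² ‖ζ‖²) • rev (hf F z z)` (`hf F (c • z) (c • z) = ‖c‖² • hf F z z`). For `‖ζ‖ = 1` or `s = 0` it is `y ∈ Om`. `KonP` at `ζ = 0`: `y + rev (hf F z z) ∈ Om`. Apply this to `t • y`, `t → 0+`: `t • y + rev (hf F z z) ∈ Om` tends to `rev (hf F z z)`. -/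
def S_PsdK : Prop := ∀ (m k : ℕ) (F : Fin k → Matrix (Fin m) (Fin m) ℂ)
  (Om : Set (Fin k → ℝ)), Herm F → Om.Nonempty → (∀ y ∈ Om, ∀ t : ℝ, 0 < t → t • y ∈ Om) →
  KonP (SDn F Om) → ∀ z : Cn m, rev (hf F z z) ∈ closure Om

/-- **CompD.** PROOF. `hgt F` is continuous, and the image of the component is preconnected, contained in `C`, and contains `hgt F (mk 0 (I • cx y0)) = y0`: so it is contained in the component `C0` of `y0` in `C`; this is `⊆`. Conversely `{p | hgt F p ∈ C0}` is the image of the preconnected set `C0 ×ˢ univ ×ˢ univ` under the continuous map `(y, z, u) ↦ mk z (cx u + I • cx (y + rev (hf F z z)))` (`u : Fin k → ℝ`; a point `p` is the image of `(hgt F p, zp p, rev (wp p))`),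
contains the base point, and is contained in `{p | hgt F p ∈ C}`; `IsPreconnected.subset_connectedComponentIn`. -/
def S_CompD : Prop := ∀ (m k : ℕ) (F : Fin k → Matrix (Fin m) (Fin m) ℂ)
  (C : Set (Fin k → ℝ)) (y0 : Fin k → ℝ), y0 ∈ C →
  connectedComponentIn {p : Cn (m + k) | hgt F p ∈ C} (mk 0 (Complex.I • cx y0)) =
    SDn F (connectedComponentIn C y0)

/-- **ConeC.** PROOF. Let `C0` be the component, `t > 0`. The set `{s • y | s ∈ [min 1 t, max 1 t]}` is preconnected, contained in `C`, and contains `y` and `t • y`; so `t • y` is in the component of `y` in `C`, which is `C0` (`connectedComponentIn_eq`). -/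
def S_ConeC : Prop := ∀ (k : ℕ) (C : Set (Fin k → ℝ)) (y0 : Fin k → ℝ),
  (∀ y ∈ C, ∀ t : ℝ, 0 < t → t • y ∈ C) →
  ∀ y ∈ connectedComponentIn C y0, ∀ t : ℝ, 0 < t → t • y ∈ connectedComponentIn C y0

/-! ## The acute wedge -/

/-- **AcN.** Normality. Uses the statement `HP` of `KP`.

PROOF. `dil σ p` has the components `σ^(d_a) p_a`, `d_a = 1` for the first `m` and `d_a = 2` for the last `k` indices. So `acP μ M (dil σ p) = σ² P_σ(p)`, `P_σ(p) = -i μ(wp p) + ∑ M a b σ^(d_a + d_b - 2) p_a p_b`, and `‖P_σ(p)‖ ≤ C1 (‖p‖ + ‖p‖²)` for `0 < σ ≤ 1`. Let `κ t = -P_σ (f t)`: holomorphic on `ball 0 1`. `Acute` divided by `σ²`: `Re κ t ≥ b (‖imv (wp (f t))‖ + ‖dil σ (f t)‖²/σ²) ≥ b (‖imv (wp (f t))‖ + ‖zp (f t)‖²) ≥ 0`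
(`‖imv (σ² w)‖ = σ² ‖imv w‖`, `‖dil σ p‖ ≥ σ ‖zp p‖`). `HP` (`ρ = 1`): `‖κ t‖ ≤ 7 ‖κ 0‖ ≤ T0 := 7 C1 (|M0| + M0²)` for `‖t‖ ≤ 3/4`. So `‖zp (f t)‖² ≤ T0/b` and `‖imv (wp (f t))‖ ≤ T0/b =: T` for `‖t‖ ≤ 3/4`. For each `j` the function `T + i (wp (f t)) j` has real part `≥ 0` on `ball 0 (3/4)`; `HP` (`ρ = 3/4`): its norm is at most `5 (T + |M0|)` for `‖t‖ ≤ 1/2`. So `M'` exists (`x² ≤ y → x ≤ y + 1`). -/
def S_AcN : Prop := ∀ (m k : ℕ) (R : Set (Cn (m + k))) (μ : Fin k → ℝ)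
  (M : Matrix (Fin (m + k)) (Fin (m + k)) ℂ) (b : ℝ), Acute R μ M b → ∀ M0 : ℝ, ∃ M' : ℝ,
  ∀ σ : ℝ, 0 < σ → σ ≤ 1 → ∀ f : ℂ → Cn (m + k), DifferentiableOn ℂ f (ball 0 1) →
    (∀ t ∈ ball (0 : ℂ) 1, dil σ (f t) ∈ R) → ‖f 0‖ ≤ M0 → ∀ t : ℂ, ‖t‖ ≤ 1 / 2 → ‖f t‖ ≤ M'

/-- **AcPk.** Uses the statement `MinP` of `KP`.

PROOF. The inequality of `Acute` holds on `closure R` (continuity). For `f` as in `Peak` let `κ t = -acP μ M (f t)`: holomorphic, `Re κ t ≥ b ‖f t‖² ≥ 0`, `κ 0 = 0`. `MinP` (`t0 = 0`, `ρ = 1`): `Re κ = 0` on the ball, so `f = 0`. -/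
def S_AcPk : Prop := ∀ (m k : ℕ) (R : Set (Cn (m + k))) (μ : Fin k → ℝ)
  (M : Matrix (Fin (m + k)) (Fin (m + k)) ℂ) (b : ℝ), Acute R μ M b → Peak R

/-- **AcLi.** The limit of the acute inequality. PROOF. Divide the inequality for `dil σ p` by `σ²` (see `AcN`) and let `σ → 0+`: only the terms with `d_a = d_b = 1` of the quadratic form survive; `‖dil σ p‖²/σ² ≥ ‖zp p‖²`. -/
def S_AcLi : Prop := ∀ (m k : ℕ) (R : Set (Cn (m + k))) (μ : Fin k → ℝ)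
  (M : Matrix (Fin (m + k)) (Fin (m + k)) ℂ) (b : ℝ), Acute R μ M b → ∀ p : Cn (m + k),
  (∀ᶠ σ in 𝓝[>] (0 : ℝ), dil σ p ∈ R) →
    ∑ j, μ j * imv (wp p) j +
      (∑ a, ∑ a', M (Fin.castAdd k a) (Fin.castAdd k a') * zp p a * zp p a').re +
      b * (‖imv (wp p)‖ + ‖zp p‖ ^ 2) ≤ 0

/-- **AcPD.** PROOF. For `y ∈ Om`: `p = mk 0 (I • cx y)` has `hgt F p = y`, so `μ(y) + b ‖y‖ ≤ 0`; by continuity for `y ∈ closure Om`. If `y, -y ∈ closure Om`: add: `2 b ‖y‖ ≤ 0`. Second claim: let `hf F z z = 0`, `y ∈ Om`, `t > 0`. For `ζ ∈ {1, -1, I, -I}`: `p = mk (ζ • z) (I • cx (t • y))` has `hgt F p = t • y ∈ Om` (`hf F (ζ z) (ζ z) = 0`), so `t μ(y) + Re (ζ² q) + b ‖z‖² ≤ 0` with `q = ∑∑ Mz a a' z_a z_a'`.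
Add the inequalities for `ζ = 1` and `ζ = I`: `2 t μ(y) + 2 b ‖z‖² ≤ 0`; `t → 0+`: `‖z‖ = 0`. -/
def S_AcPD : Prop := ∀ (m k : ℕ) (F : Fin k → Matrix (Fin m) (Fin m) ℂ)
  (Om : Set (Fin k → ℝ)) (μ : Fin k → ℝ) (Mz : Matrix (Fin m) (Fin m) ℂ) (b : ℝ), 0 < b →
  Om.Nonempty → (∀ y ∈ Om, ∀ t : ℝ, 0 < t → t • y ∈ Om) →
  (∀ p : Cn (m + k), hgt F p ∈ Om → ∑ j, μ j * imv (wp p) j +
    (∑ a, ∑ a', Mz a a' * zp p a * zp p a').re + b * (‖imv (wp p)‖ + ‖zp p‖ ^ 2) ≤ 0) →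
  (∀ y : Fin k → ℝ, y ∈ closure Om → -y ∈ closure Om → y = 0) ∧
    ∀ z : Cn m, hf F z z = 0 → z = 0

/-- **Soft.** The soft part. Uses `Scale2`, `Kon`, `LogK`, `CvxL`, `PsdK`, `CompD`, `ConeC`, `AcN`, `AcPk`, `AcLi`, `AcPD`.

PROOF. `p0 = mk 0 (I • cx y0)`, `hgt F p0 = y0 ∈ C`; `(D1)` gives `r0`, `δ0`. `σ j = min (δ0/2) (1/(j + 2))`, `A j = dil (σ j)`, `B j = dil (σ j)⁻¹`. `Scal R p0 A B`: `difA`, `difB`: `differentiable_dil`; `AB`, `BA`: `dil_inv`, `dil_inv'`; `toz`: `‖dil σ p‖ ≤ σ ‖p‖` for `0 < σ ≤ 1`; `start`: `(D1)`; `base`: `(D1)` with the ball `ball p0 r0`; `stab`: if `∃ᶠ j, ∀ x ∈ ball q r, dil (σ j) x ∈ R` then `∃ᶠ σ in 𝓝[>] 0, …` (`σ j → 0+`), so `hgt F q ∈ C` by `(D2)`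
and `q ∈ DInf R A` by `(D1)`; `normal`: `AcN` (`ρ' = 1`, `J = 0`); `peak`: `AcPk`. Also `DInf R A = {p | hgt F p ∈ C}` (`⊆`: eventually implies frequently, `(D2)`; `⊇`: `(D1)`). `Scale2`, `CompD`: `Biholo U (SDn F Om)` with `Om = connectedComponentIn C y0`. `Om` is open (`IsOpen.connectedComponentIn`), preconnected, contains `y0`, is a cone (`ConeC`). `SDn F Om` is open (`hgt F` is continuous). `Kon` (`n = m + k`): `KonP (SDn F Om)`.
`LogK`, `CvxL`: convex. `PsdK`: `psd`. `AcLi` for `p` with `hgt F p ∈ Om` (`(D1)` with `x = p`) and `AcPD` (`Mz a a' = M (castAdd a) (castAdd a')`): `pnt`, `pd`. -/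
def S_Soft : Prop := ∀ (N m k : ℕ) (I : Set (MvPolynomial (Fin N) ℂ)) (U : Set (Cn N))
  (G : Set (Cn N → Cn N)) (K : Set (Cn N)), IsDom I (m + k) U → CoCpt U G K →
  ∀ (c : Chart (zeroSet I) (m + k)) (R : Set (Cn (m + k)))
    (F : Fin k → Matrix (Fin m) (Fin m) ℂ) (C : Set (Fin k → ℝ)) (y0 : Fin k → ℝ)
    (μ : Fin k → ℝ) (M : Matrix (Fin (m + k)) (Fin (m + k)) ℂ) (b : ℝ),
    BdR c U R → Acute R μ M b → Herm F → IsOpen C →
    (∀ y ∈ C, ∀ t : ℝ, 0 < t → t • y ∈ C) → y0 ∈ C →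
    (∀ p : Cn (m + k), hgt F p ∈ C → ∃ r > 0, ∃ δ > 0, ∀ σ ∈ Ioo (0 : ℝ) δ, ∀ x ∈ ball p r,
      dil σ x ∈ R) →
    (∀ (p : Cn (m + k)) (r : ℝ), 0 < r →
      (∃ᶠ σ in 𝓝[>] (0 : ℝ), ∀ x ∈ ball p r, dil σ x ∈ R) → hgt F p ∈ C) →
    ∃ Om : Set (Fin k → ℝ), Sie F Om ∧ Biholo U (SDn F Om)

/-! ## Frames -/

/-- **QF1.** The holomorphic part of a real quadratic form.

PROOF. `T u v = (S u v - S (I • u) (I • v))/2 - I * (S u (I • v) + S (I • u) v)/2` (a complex number) is complex linear in `u`: `T (I • u) v = (S (I u) v + S u (I v))/2 - I (S (I u) (I v) - S u v)/2 = I * T u v` (and real linear), and symmetric. So `T v v = ∑ a, ∑ b, M a b * v a * v b` with `M a b = T (Pi.single a 1) (Pi.single b 1)`, and `Re (T v v) = (S v v - S (I v) (I v))/2`. -/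
def S_QF1 : Prop := ∀ (n : ℕ) (S : Cn n →L[ℝ] Cn n →L[ℝ] ℝ), (∀ u v, S u v = S v u) →
  ∃ M : Matrix (Fin n) (Fin n) ℂ, ∀ v : Cn n,
    S v v = (S v v + S (Complex.I • v) (Complex.I • v)) / 2 +
      (∑ a, ∑ b, M a b * v a * v b).re

/-- **QF.** Hermitian and holomorphic part of a vector valued real quadratic form. Uses `QF1`.

PROOF. `Q j` from `QF1` for the `j`-th component. `H u v = (S_j u v + S_j (I u) (I v))/2 + I (S_j u (I v) - S_j (I u) v)/2` is complex linear in `u`: `H (I u) v = (S (I u) v - S u (I v))/2 + I (S (I u) (I v) + S u v)/2 = I * H u v`, and `H v u = conj (H u v)`; so `F j a b = H (Pi.single a 1) (Pi.single b 1)` is hermitian and `hf F z z j = H z z = (S_j z z + S_j (I z) (I z))/2`. -/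
def S_QF : Prop := ∀ (m k : ℕ) (S : Cn m →L[ℝ] Cn m →L[ℝ] (Fin k → ℝ)),
  (∀ u v, S u v = S v u) → ∃ F Q : Fin k → Matrix (Fin m) (Fin m) ℂ, Herm F ∧
    ∀ z : Cn m, S z z = rev (hf F z z) + rev (hq Q z)

/-- **FrEx.** Existence of the frame. Uses `QF`.

PROOF. `L = fderiv ℝ h x0`, `ℓ z = L (dir z 0)`, `β u = L (dir 0 u)`; `dir` is real linear (jointly), `‖dir z u‖ ≤ max ‖z‖ ‖u‖`, so `‖β u‖ ≤ ‖u‖/2`. `T w = w - I • (cx (β (rev w)) + I • cx (β (imv w)))` is a complex linear map `Cn k → Cn k` (`w = cx (rev w) + I • cx (imv w)`; `T (I w) = I T w`). `imv (T w) = imv w - β (rev w)`. `T` is injective: `T w = 0` gives `rev w = -β (imv w)`, `imv w = β (rev w)`, so `‖rev w‖ ≤ ‖imv w‖/2`,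
`‖imv w‖ ≤ ‖rev w‖/2`, `w = 0`. So `T` is bijective; let `T0`, `E` be the matrices of `T` and of its inverse, `E' = T0`. `α z = cx (ℓ (I • z)) + I • cx (ℓ z)` is complex linear in `z` (`α (I z) = cx (ℓ (-z)) + I cx (ℓ (I z)) = I α z`); `Lam` = the matrix of `T⁻¹ ∘ α`. `S u v = (1/2) D²h(x0) (dir u (rev (Lam u))) (dir v (rev (Lam v)))`, symmetric (`ContDiffAt.isSymmSndFDerivAt`); `QF`: `F`, `Q`. `Qm = Q` and `Kq` the matrices with
`hq Kq z = T⁻¹ (I • hq Q z)`: `Kq j a b = ∑ l, E j l * (I * Q l a b)`. Check of `lin`: for `ω = omg Lam E Kq z w`: `T ω = α z + w + I • hq Q z`, so `imv (T ω) = ℓ z + imv w + rev (hq Q z)`, and `imv (T ω) = imv ω - β (rev ω)`; `L (dir z (rev ω)) = ℓ z + β (rev ω)`. `qua`: `D²h(..)(..) = 2 S z z`. -/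
def S_FrEx : Prop := ∀ (m k : ℕ) (h : (Ix m k → ℝ) → (Fin k → ℝ)) (x0 : Ix m k → ℝ),
  ContDiffAt ℝ 2 h x0 → ‖fderiv ℝ h x0‖ ≤ 1 / (100 * (k + 1)) →
  ∃ (Lam : Matrix (Fin k) (Fin m) ℂ) (E E' : Matrix (Fin k) (Fin k) ℂ)
    (Kq Qm F : Fin k → Matrix (Fin m) (Fin m) ℂ), Frm h x0 Lam E E' Kq Qm F

/-- **FrAs.** The asymptotic normal form in the frame.

PROOF. Let `‖p‖ ≤ M0`, `0 < σ ≤ 1`, `z = zp p`, `w = wp p`, `ω = omg Lam E Kq (σ z) (σ² w) = σ Lam z + σ² (E w + hq Kq z)`, `q = frm (pt x0 (h x0)) Lam E Kq (dil σ p) = pt x0 (h x0) + mk (σ z) ω`. `xof q = x0 + v`, `v = dir (σ z) (rev ω)`, `‖v‖ ≤ C σ`; `imv (wp q) = h x0 + imv ω`. Second order Taylor formula for `h` at `x0` (`ContDiffAt ℝ 2`; vector valued version of the statement `Tay` of `KP`, apply it to the components or repeat its proof): `h (x0 + v) = h x0 + L v + (1/2) D²h(x0) v v + o(σ²)`,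
uniformly for `‖p‖ ≤ M0`. So `nu h q = imv ω - L v - (1/2) D²h(x0) v v + o(σ²)`. `Frm.lin` (for `σ z`, `σ² w`): `imv ω - L v = σ² (imv w + rev (hq Qm z))`. `v = σ dir z (rev (Lam z)) + σ² dir 0 (rev (E w + hq Kq z))`, so `D²h(x0) v v = σ² D²h(x0) (dir z (rev (Lam z)))² + O(σ³)`, and by `Frm.qua` it is `2 σ² (rev (hf F z z) + rev (hq Qm z)) + O(σ³)`. Together `nu h q = σ² (imv w - rev (hf F z z)) + o(σ²)`. -/
def S_FrAs : Prop := ∀ (m k : ℕ) (h : (Ix m k → ℝ) → (Fin k → ℝ)) (x0 : Ix m k → ℝ)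
  (Lam : Matrix (Fin k) (Fin m) ℂ) (E E' : Matrix (Fin k) (Fin k) ℂ)
  (Kq Qm F : Fin k → Matrix (Fin m) (Fin m) ℂ), ContDiffAt ℝ 2 h x0 →
  Frm h x0 Lam E E' Kq Qm F → ∀ M0 η : ℝ, 0 < η → ∃ δ > 0, ∀ σ ∈ Ioo (0 : ℝ) δ,
    ∀ p : Cn (m + k), ‖p‖ ≤ M0 →
      ‖nu h (frm (pt x0 (h x0)) Lam E Kq (dil σ p)) - (σ ^ 2) • hgt F p‖ ≤ η * σ ^ 2 ∧
      ‖xof (frm (pt x0 (h x0)) Lam E Kq (dil σ p)) - x0‖ ≤ η

/-- **AcF.** The acute inequality in the frame. Uses `Sup` (block L), `QF1`, and the statements `Tay`, `LvO`, `D2N` of `KP`.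

PROOF. `p0 = pt x0 (h x0)`; `Φ, a, r` from `Sup`, used only for `x1 = x0`: for `‖c‖ ≤ a` there is `b_c` with `Φ (pt x v) - Φ p0 + c·(v - h x0) + b_c·(x - x0) ≤ 0` for `pt x v ∈ A` near `p0` (*). `pt x v - p0 = mk' (x - x0) (v - h x0)`, real linear in `(x - x0, v - h x0)`. Step 1. (*) holds by continuity for the points `pt x (h x)`, `x ∈ O` near `x0` (they are in `closure A`: `NF.pk`), so the `C²` function `x ↦ Φ (pt x (h x)) + c·h x + b_c·x` has a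
local maximum at `x0`; its derivative vanishes: with `L = fderiv ℝ h x0`, `T ξ = mk' ξ (L ξ)`: `b_c·ξ = -DΦ(p0)(T ξ) - c·(L ξ)`. Step 2. For `q = pt x v ∈ A` near `p0`, `ξ = x - x0`, `κ = v - h x0 - L ξ`: `q - p0 = T ξ + mk 0 (I • cx κ)`, and (*) becomes `Φ q - Φ p0 - DΦ(p0)(T ξ) + c·κ ≤ 0`. Let `0 < a' ≤ a`, `c_j = a'` if `κ_j ≥ 0`, `-a'` otherwise: `c·κ ≥ a' ‖κ‖`. `Tay`: `Φ q - Φ p0 = DΦ(p0)(q - p0) + (1/2) D2 Φ p0 (q - p0) + o(‖q - p0‖²)`. With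
`μ_j = DΦ(p0)(mk 0 (I • cx (Pi.single j 1)))`: `∑ μ_j κ_j + (1/2) D2 Φ p0 (q - p0) + a' ‖κ‖ ≤ o(‖q - p0‖²)`. `QF1` for `S = fderiv (fderiv Φ) p0` (symmetric): `D2 Φ p0 v = (1/2) Lv Φ p0 v + Re M0(v, v)`, and `Lv Φ p0 v ≥ m0 ‖v‖²`, `m0 > 0` (`LvO`, `D2N`). Step 3. Let `q = frm p0 Lam E Kq p`, `z = zp p`, `w = wp p`, `ω = omg Lam E Kq z w`: `q - p0 = mk z ω = J p + mk 0 (hq Kq z)`, `J p = mk z (Lam z + E w)` complex linear and injective (`E` is invertible): for small `p`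
`l0 ‖p‖ ≤ ‖q - p0‖ ≤ l1 ‖p‖` with `l0 > 0`. `ξ = dir z (rev ω)`, `v - h x0 = imv ω`, so `κ = imv w + rev (hq Qm z)` (`Frm.lin`). Hence `∑ μ_j κ_j = Re (-I ∑ μ_j w_j) + Re (∑ μ_j hq Qm z j)`, `‖κ‖ ≥ ‖imv w‖ - C1 ‖p‖²`, `M0(q - p0, q - p0) = M0(J p, J p) + O(‖p‖³)`. With `M(p, p) = ∑ μ_j hq Qm z j + (1/2) M0(J p, J p)` (a quadratic form in the coordinates of `p`): `Re (acP μ M p) + a' ‖imv w‖ + ((1/4) m0 l0² - a' C1 - o(1)) ‖p‖² ≤ 0`.
Choose `a' ≤ a` with `a' C1 ≤ m0 l0²/16`, and `ρ` small: `b = min a' (m0 l0²/16)`. -/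
def S_AcF : Prop := ∀ (m k : ℕ) (A : Set (Cn (m + k))) (O : Set (Ix m k → ℝ))
  (h : (Ix m k → ℝ) → (Fin k → ℝ)), NF A O h → ∀ x0 ∈ O, ∀ (Lam : Matrix (Fin k) (Fin m) ℂ)
  (E E' : Matrix (Fin k) (Fin k) ℂ) (Kq Qm F : Fin k → Matrix (Fin m) (Fin m) ℂ),
  Frm h x0 Lam E E' Kq Qm F →
  ∃ (μ : Fin k → ℝ) (M : Matrix (Fin (m + k)) (Fin (m + k)) ℂ) (b ρ : ℝ), 0 < ρ ∧
    Acute {p | p ∈ ball (0 : Cn (m + k)) ρ ∧ frm (pt x0 (h x0)) Lam E Kq p ∈ A} μ M b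

/-! ## Genericity -/

/-- **OmO.** PROOF. If `d` works for `v`, then `d/2` works for the points of `ball v (d/2)`. For `s > 0`: `pt x (h x + t • y) = pt x (h x + (t s) • (s⁻¹ • y))`, and `y ∈ ball (s • v) d'` implies `s⁻¹ • y ∈ ball v (d'/s)`; take `d' = min (d s) (min d (d/s))`. The wedge condition of `LocD` gives an element. -/
def S_OmO : Prop := ∀ (m k : ℕ) (A : Set (Cn (m + k))) (O : Set (Ix m k → ℝ))
  (h : (Ix m k → ℝ) → (Fin k → ℝ)), LocD A O h → ∀ c ∈ O, IsOpen (OmC A h c) ∧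
  (OmC A h c).Nonempty ∧ ∀ y ∈ OmC A h c, ∀ t : ℝ, 0 < t → t • y ∈ OmC A h c

/-- **GenE.** Generic points exist. Uses `TSn`, `SqA`, `DL`, `GenP`.

PROOF. For `v : Fin k → ℚ` and a rational `e > 0` the set `G_(v, e) = {cns t x | ∀ y, (∀ j, |y j - v j| < e) → pt x (h x + t • y) ∈ A}` is semialgebraic: the preimage of the set of `SqA` under the polynomial map `(t, x, y) ↦ (x, t • y)` (`SQ.preim`), `SQ.all` (`SQ.compl`, `SQ.union`, `SQ.lt` for the condition on `y`). `DL` gives `q_(v, e) ≠ 0`; the index set is countable: enumerate it (`ℕ → …`, `Encodable`/`Countable.exists_eq_range`-like; the constant `1` for missing indices). `GenP` gives `c ∈ O`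
with `q_(v, e)(c) ≠ 0` for all `(v, e)`, so `Ev G_(v, e) c`. `P4`: let `v`, `e` be as in `P4`. Choose a rational `v'` with `‖v' - v‖ < e/4` and a rational `e' ∈ (e/4, e/2)`: `v ∈ ball v' e' ⊆ ball v e` (if `k = 0` everything is trivial). `Ev G_(v', e') c` with `δ`: the second alternative contradicts the hypothesis for `d = δ` (`ball v' e' ⊆ ball v e`; the ball of the sup norm is the box). So `pt x (h x + t • y) ∈ A` for `x ∈ ball c δ`, `t ∈ (0, δ)`, `y ∈ ball v' e'`, and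
`d = min δ (e' - ‖v - v'‖)` shows `v ∈ OmC A h c`. -/
def S_GenE : Prop := ∀ (m k : ℕ) (A : Set (Cn (m + k))) (O : Set (Ix m k → ℝ))
  (h : (Ix m k → ℝ) → (Fin k → ℝ)), LocD A O h → ∃ c ∈ O, P4 A h c

/-- **CD1.** Uses `FrAs`.

PROOF. `v0 = hgt F p ∈ OmC A h c`: `d > 0`. `hgt F` is continuous: `r ≤ 1` with `‖hgt F x - v0‖ < d/2` for `x ∈ ball p r`. `FrAs` with `M0 = ‖p‖ + 1`, `η = d/3`: `δ ≤ min 1 d`. For `σ ∈ (0, δ)`, `x ∈ ball p r`, `q = frm … (dil σ x)`: `‖xof q - c‖ < d`, `nu h q = σ² • y` with `‖y - hgt F x‖ ≤ d/3`, so `y ∈ ball v0 d`, and `σ² ∈ (0, d)` (`σ² < σ`): `q = pt (xof q) (h (xof q) + σ² • y) ∈ A` (`pt_xof_nu`). -/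
def S_CD1 : Prop := ∀ (m k : ℕ) (A : Set (Cn (m + k))) (h : (Ix m k → ℝ) → (Fin k → ℝ))
  (c : Ix m k → ℝ) (Lam : Matrix (Fin k) (Fin m) ℂ) (E E' : Matrix (Fin k) (Fin k) ℂ)
  (Kq Qm F : Fin k → Matrix (Fin m) (Fin m) ℂ), ContDiffAt ℝ 2 h c →
  Frm h c Lam E E' Kq Qm F → ∀ p : Cn (m + k), hgt F p ∈ OmC A h c →
  ∃ r > 0, ∃ δ > 0, ∀ σ ∈ Ioo (0 : ℝ) δ, ∀ x ∈ ball p r,
    frm (pt c (h c)) Lam E Kq (dil σ x) ∈ A

/-- **CD2.** Uses `FrAs`.

PROOF. `v0 = hgt F p`. Let `C0 ≥ 1` with `‖E'.mulVec w‖ ≤ C0 ‖w‖` for all `w`, `e = r/(3 C0)`. We apply `P4` with `v0`, `e`. Let `d > 0`. `FrAs` with `M0 = ‖p‖`, `η = min (e/2) (d/2)`: `δ`. By the hypothesis there is `σ ∈ (0, min δ (min 1 d))` with `frm … (dil σ x) ∈ A` for all `x ∈ ball p r`. `q = frm … (dil σ p)`, `x1 = xof q ∈ ball c d`, `t = σ² ∈ (0, d)`, `nu h q = σ² • y1`, `‖y1 - v0‖ ≤ e/2`. For `y ∈ ball v0 e` the point `q' = pt x1 (h x1 + t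 • y)` is
`q + mk 0 (I • cx (σ² • (y - y1)))` (`pt_xof_nu`), so `q' = frm … (dil σ x)` with `zp x = zp p`, `wp x = wp p + E'.mulVec (I • cx (y - y1))` (`E (σ² E' u) = σ² u`), `‖x - p‖ ≤ C0 ‖y - y1‖ < C0 (3/2) e < r`. So `q' ∈ A`. -/
def S_CD2 : Prop := ∀ (m k : ℕ) (A : Set (Cn (m + k))) (h : (Ix m k → ℝ) → (Fin k → ℝ))
  (c : Ix m k → ℝ) (Lam : Matrix (Fin k) (Fin m) ℂ) (E E' : Matrix (Fin k) (Fin k) ℂ)
  (Kq Qm F : Fin k → Matrix (Fin m) (Fin m) ℂ), ContDiffAt ℝ 2 h c →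
  Frm h c Lam E E' Kq Qm F → P4 A h c → ∀ (p : Cn (m + k)) (r : ℝ), 0 < r →
  (∃ᶠ σ in 𝓝[>] (0 : ℝ), ∀ x ∈ ball p r, frm (pt c (h c)) Lam E Kq (dil σ x) ∈ A) →
    hgt F p ∈ OmC A h c

/-- **CMain.** The output of block C. Uses `GenE`, `FrEx`, `AcF`, `OmO`, `CD1`, `CD2`, `Soft`.

PROOF. `A = ch.pre U`. `GenE`: `c ∈ O` with `P4 A h c`. `h` is analytic at `c`, so `ContDiffAt ℝ 2 h c`; `NF.sm`; `FrEx`: the frame. `s = pt c (h c) ∈ ch.W`. Chart `e` of `univ`: `W = O = univ`, `psi = frm s Lam E Kq`, `pi = fri s Lam E' Kq` (polynomial maps, differentiable; `fri_frm`, `frm_fri`). `c' = ch.comp e` (`Chart.comp_pre`): `c'.W = {p | frm p ∈ ch.W}`, `c'.pre U = {p | frm p ∈ A}`; `frm 0 = s`, so `0 ∈ c'.W`. `AcF`: `μ, M, b, ρ`. Choose `0 < ρ1 ≤ ρ` with `ball 0 ρ1 ⊆ c'.W`,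
`R = c'.pre U ∩ ball 0 ρ1`: `BdR c' U R` (`R` is open by `IsDom.isOpen_pre`, the difference is empty), `Acute R μ M b` (smaller set). `C = OmC A h c`, `OmO`: open, a cone, `y0 ∈ C`. `(D1)` of `Soft`: `CD1` and `‖dil σ x‖ ≤ σ (1 + ‖x‖)…  < ρ1` for `x ∈ ball p r` and `σ` small. `(D2)`: `CD2` (drop the condition `dil σ x ∈ ball 0 ρ1`). `Soft`. -/
def S_CMain : Prop := ∀ (N m k : ℕ) (I : Set (MvPolynomial (Fin N) ℂ)) (U : Set (Cn N))
  (G : Set (Cn N → Cn N)) (K : Set (Cn N)), IsDom I (m + k) U → CoCpt U G K →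
  ∀ (ch : Chart (zeroSet I) (m + k)) (O : Set (Ix m k → ℝ)) (h : (Ix m k → ℝ) → (Fin k → ℝ)),
    LocD (ch.pre U) O h → (∀ x ∈ O, pt x (h x) ∈ ch.W) →
    ∃ (F : Fin k → Matrix (Fin m) (Fin m) ℂ) (Om : Set (Fin k → ℝ)), Sie F Om ∧
      Biholo U (SDn F Om)

end KVC
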