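import Pool.Agent.Lib.KV.DefsL

/-!
# KV (MP_64edc4_ag, all dimensions), blocks K1, K2: algebraic charts, the set of the peak points is
semialgebraic
-/

set_option autoImplicit false

open Set Filter Topology Metric

namespace KV

open KP

theorem reim_cpx {n : ℕ} (x : Fin n ⊕ Fin n → ℝ) : reim (cpx x) = x := by
  ext i
  rcases i with i | i <;> simp [reim, cpx]

theorem cpx_reim {n : ℕ} (z : Cn n) : cpx (reim z) = z := by
  ext i
  simp [reim, cpx, Complex.re_add_im]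

/-! ## Algebraic charts -/

/-- **SaQ.** PROOF. Induction on `SemiAlg U`: `reim (cpx x) = x` (`reim_cpx`), `SQ.pos`, `SQ.zero`, `SQ.compl`, `SQ.inter`. -/
def S_SaQ : Prop := ∀ (n : ℕ) (U : Set (Cn n)), SemiAlg U → SC U

/-- **Row.** PROOF. Let `M = LinearMap.toMatrix' L` (rows indexed by `Fin N`); `L` is injective, so the rank is `n`; the rank is the dimension of the span of the rows (`Matrix.rank_eq_finrank_span_row` or the transpose). `exists_linearIndependent'` gives an injective family `a : κ → Fin N` of linearly independent rows with the same span; `card κ = n`, `κ ≃ Fin n`: `j : Fin n → Fin N`. The square matrix of these rows is invertible, so its `mulVec` is injective. -/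
def S_Row : Prop := ∀ (n N : ℕ) (L : Cn n →L[ℂ] Cn N), Function.Injective L →
  ∃ j : Fin n → Fin N, Function.Injective (fun v : Cn n => (fun i => L v (j i) : Cn n))

/-- **InvC.** The holomorphic inverse function theorem.

PROOF. `φ` is analytic on `W` (`Osgood`, see the uses in `KP`, for example `Osgood.analyticOnNhd`), so it has a strict derivative at `w0`; the derivative is injective, so bijective (finite dimension) and comes from a `ContinuousLinearEquiv`. `HasStrictFDerivAt.toOpenPartialHomeomorph` (or `ContDiffAt.toOpenPartialHomeomorph`): `P` with `w0` in the source, `P = φ`. Let `S` be the open set of the points of `W ∩ P.source` at which the derivative of `φ` is invertible (determinant not zero, continuous);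
`P '' S` is open, contains `φ w0`, so it contains `ball (φ w0) r`. `e.W = ball (φ w0) r`, `e.psi = P.symm`, `e.O = S ∩ φ ⁻¹' ball (φ w0) r`, `e.pi = φ`. `P.symm` is differentiable on the ball: `OpenPartialHomeomorph.hasFDerivAt_symm` (the derivative of `φ` at `P.symm y ∈ S` is invertible). -/
def S_InvC : Prop := ∀ (n : ℕ) (W : Set (Cn n)) (φ : Cn n → Cn n) (w0 : Cn n), IsOpen W → w0 ∈ W →
  DifferentiableOn ℂ φ W → Function.Injective (fderiv ℂ φ w0) →
  ∃ (e : Chart (univ : Set (Cn n)) n) (r : ℝ), 0 < r ∧ e.W = ball (φ w0) r ∧ e.O ⊆ W ∧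
    e.psi (φ w0) = w0 ∧ e.pi = φ

/-- **AlC.** Algebraic charts. Uses `TSn`, `SaQ`, `Row`, `InvC`.

PROOF. `b = c.psi w0`; the derivative of `c.psi` at `w0` is injective (`c.pi ∘ c.psi = id` near `w0`); `Row`: `j`; `φ w = fun i => c.psi w (j i)` on `c.W`; `InvC`: `e0, r` with `e0.O ⊆ c.W`, `w0 ∈ e0.O` (`e0.psi (φ w0) = w0`, `Chart.psi_mem`). Choose `ρ > 0` with `z ∈ c.O`, `c.pi z ∈ e0.O` for all `z ∈ ball b ρ` (`c.pi b = w0`, continuity of `c.pi` on the open set `c.O`), and `0 < r' ≤ r` with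
`c.psi (e0.psi w) ∈ ball b ρ` for `w ∈ ball (φ w0) r'` (continuity of `c.psi ∘ e0.psi` at `φ w0`). `e` = the restriction of `e0` to `W = ball (φ w0) r'`, `O = e0.O ∩ φ ⁻¹' ball (φ w0) r'`, `v0 = φ w0`. For `U ⊆ zeroSet J`: `e.pre (c.pre U) = {w ∈ ball v0 r' | ∃ z ∈ U ∩ ball b ρ, ∀ i, z (j i) = w i}`. (`⊆`: `z = c.psi (e.psi w)`, `z (j i) = φ (e.psi w) i = w i`. `⊇`: `z ∈ zeroSet J ∩ c.O`, so with `w' = c.pi z ∈ e0.O`:
`c.psi w' = z`, `φ w' = w`, `e0.psi (e0.pi w') = w'` (`Chart.right`, `e0.pi = φ`), so `e.psi w = w'`, `c.psi (e.psi w) = z ∈ U`.) This set is semialgebraic: `SaQ`, `SQ.ex` (`TSn`) in the real coordinates of `z`; a ball of the maximum norm is given by the finitely many inequalities `normSq (w i - v0 i) < r' ^ 2`. -/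
def S_AlC : Prop := ∀ (N n : ℕ) (J : Set (MvPolynomial (Fin N) ℂ)) (c : Chart (zeroSet J) n)
  (w0 : Cn n), w0 ∈ c.W → ∃ (e : Chart (univ : Set (Cn n)) n) (v0 : Cn n), v0 ∈ e.W ∧
    e.psi v0 = w0 ∧ ∀ U ⊆ zeroSet J, SemiAlg U → SC (e.pre (c.pre U))

/-! ## Peak points -/

/-- The quadratic form. -/
def Bq {ι : Type} [Fintype ι] (B : ι × ι → ℝ) (y : ι → ℝ) : ℝ := ∑ i, ∑ j, B (i, j) * y i * y j

/-- The real coordinates of `I • z`. -/
def jr {n : ℕ} (y : Fin n ⊕ Fin n → ℝ) : Fin n ⊕ Fin n → ℝ :=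
  Sum.elim (fun i => - y (Sum.inr i)) (fun i => y (Sum.inl i))

/-- **QdF.** PROOF. The function is a polynomial of degree two in the real coordinates of `z - c`: its first derivative at `z` in the direction `v` is `∑ a_i y_i(v) + ∑∑ B (i,j) (y_i(v) y_j(z-c) + y_i(z-c) y_j(v))`, `y = reim`; the second derivative at `c` in the direction `v, v` is `2 Bq B (reim v)`; `reim (I • v) = jr (reim v)`. -/
def S_QdF : Prop := ∀ (n : ℕ) (a : Fin n ⊕ Fin n → ℝ)
  (B : (Fin n ⊕ Fin n) × (Fin n ⊕ Fin n) → ℝ) (c : Cn n),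
  ContDiffAt ℝ 2 (fun z => (∑ i, a i * reim (z - c) i) + Bq B (reim (z - c))) c ∧
  ∀ v, Lv (fun z => (∑ i, a i * reim (z - c) i) + Bq B (reim (z - c))) c v =
    2 * (Bq B (reim v) + Bq B (jr (reim v)))

/-- **PkQ.** Peak points by quadratic functions. Uses `QdF` and the statement `Tay` of `KP`.

PROOF. `⇐`: `Φ z = ∑ a_i reim (z - c) i + Bq B (reim (z - c))`, `Φ c = 0` (`QdF`); `nsq (z - c) = ∑ i, reim (z - c) i ^ 2`, `cpx (fun i => reim c i + reim (z - c) i) = z`, and `|reim (z - c) i| ≤ ‖z - c‖`. `⇒`: `Φ, η`; `u_i = cpx (Pi.single i 1)`, `a i = fderiv ℝ Φ c (u_i)`, `B (i, j) = fderiv ℝ (fderiv ℝ Φ) c u_i u_j / 2`. Since `v = ∑ reim v i • u_i`: `fderiv ℝ Φ c v = ∑ a i * reim v i`, `D2 Φ c v / 2 = Bq B (reim v)`,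
`Lv Φ c v = 2 (Bq B (reim v) + Bq B (jr (reim v)))` (`reim (I • v) = jr (reim v)`). `Tay` with `η/2`: for `‖v‖` small, `|Φ (c + v) - Φ c - ∑ a_i reim v i - Bq B (reim v)| ≤ (η/2) ‖v‖² ≤ (η/2) nsq v`; so the inequality holds with `η/2`. (`‖cpx y‖ ≤ 2 r` if all `|y i| < r`.) -/
def S_PkQ : Prop := ∀ (n : ℕ) (A : Set (Cn n)) (c : Cn n), c ∈ Pk A ↔ c ∉ A ∧ c ∈ closure A ∧
  ∃ (a : Fin n ⊕ Fin n → ℝ) (B : (Fin n ⊕ Fin n) × (Fin n ⊕ Fin n) → ℝ),
    (∀ y : Fin n ⊕ Fin n → ℝ, y ≠ 0 → 0 < Bq B y + Bq B (jr y)) ∧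
    ∃ η > 0, ∃ r > 0, ∀ y : Fin n ⊕ Fin n → ℝ, (∀ i, |y i| < r) →
      cpx (fun i => reim c i + y i) ∈ A → (∑ i, a i * y i) + Bq B y + η * ∑ i, y i ^ 2 ≤ 0

/-- **PkS.** The set of the peak points is semialgebraic. Uses `TSn`, `PkQ`.

PROOF. `{x | cpx x ∈ Pk A}` by `PkQ` with `c = cpx x`, `reim c = x` (`reim_cpx`). `c ∉ A`: `SQ.compl`. `c ∈ closure A`: for all `ε > 0` there is `y` with `|y i - x i| < ε` for all `i` and `cpx y ∈ A`. Then existential quantifiers over `(a, B) ∈ ℝ^(ι ⊕ ι × ι)` (`SQ.ex`), the universal quantifier over `y` (`SQ.all`), `η`, `r` (`SQ.ex1`), `y` (`SQ.all`): all atoms are polynomial inequalities, except `cpx (x + y) ∈ A`, the preimage of an `SQ` set under a polynomial map (`SQ.preim`). -/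
def S_PkS : Prop := ∀ (n : ℕ) (A : Set (Cn n)), SC A → SC (Pk A)

/-! ## Output -/

/-- **KA.** A semialgebraic chart with a peak point. Uses `AlC` and the statements `VSing`, `BdMax`, `PkC` of `KP`.

PROOF. `VSing`: `J`, `g`; `BdMax`: `c0` with `0 ∈ c0.W`, `0 ∈ Pk (c0.pre U)`; `AlC` for `c0`, `w0 = 0`: `e`, `v0`. `c = c0.comp e`, `w = v0`: `c.pre U = e.pre (c0.pre U)` (`Chart.comp_pre`), `v0 ∈ c.W`, `U ⊆ zeroSet J` (`IsDom.opn`); `PkC` for `A = c0.pre U` (open, `IsDom.isOpen_pre`). -/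
def S_KA : Prop := ∀ (N n : ℕ) (I : Set (MvPolynomial (Fin N) ℂ)) (U : Set (Cn N)), 0 < n →
  IsDom I n U → SemiAlg U → ∃ J : Set (MvPolynomial (Fin N) ℂ), IsDom J n U ∧
    ∃ c : Chart (zeroSet J) n, SC (c.pre U) ∧ ∃ w ∈ c.W, w ∈ Pk (c.pre U)

end KV
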