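import Pool.Agent.Lib.KV.DefsL
import Pool.Agent.Lib.KP.SpecW

/-!
# KV (MP_64edc4_ag, all dimensions), block K, second part: the set of the peak points is near some of its
points the graph `Im w = h (Re z, Im z, Re w)` of a semialgebraic analytic map with small derivative

Input (first part of block K): a chart `c0` with `SC (c0.pre U)`, `SC (Pk (c0.pre U))` and a peak point.
Output: `S_NFb`.
-/

set_option autoImplicit false

open Set Filter Topology Metric

namespace KV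

open KP

/-! ## Semialgebraic sets are graphs near some of their points -/

/-- Projection onto the coordinates in `D`. -/
def prD {ι : Type} (D : Finset ι) (T : Set (ι → ℝ)) : Set ({i // i ∈ D} → ℝ) :=
  {u | ∃ x ∈ T, ∀ i : {i // i ∈ D}, x i = u i}

/-- Near the points `g u`, `u ∈ O`, the set `T` is the graph of `g`; the parameters `u` are the
coordinates in `D`. -/
structure Gra {ι : Type} [Fintype ι] (T : Set (ι → ℝ)) (D : Finset ι)
    (O : Set ({i // i ∈ D} → ℝ)) (g : ({i // i ∈ D} → ℝ) → (ι → ℝ)) : Prop where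
  hO : IsOpen O
  nO : O.Nonempty
  ana : AnalyticOnNhd ℝ g O
  sec : ∀ u ∈ O, ∀ i : {i // i ∈ D}, g u i = u i
  mem : ∀ u ∈ O, g u ∈ T
  loc : ∃ δ > 0, ∀ u ∈ O, ∀ x ∈ T, (∀ i : {i // i ∈ D}, x i = u i) → ‖x - g u‖ < δ → x = g u

/-- **ChD.** A maximal set of coordinates such that the projection has interior points.

PROOF. The sets `D` with `(interior (prD D T)).Nonempty` include `∅`: the space `{i // i ∈ ∅} → ℝ` has exactly one point and `prD ∅ T = univ` because `T` is not empty. Choose one with the largest number of elements (`Finset.exists_max_image` on the finite type `Finset ι`). For `j ∉ D` the set `insert j D` has more elements. -/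
def S_ChD : Prop := ∀ (ι : Type) [Fintype ι] [DecidableEq ι] (T : Set (ι → ℝ)), T.Nonempty →
  ∃ D : Finset ι, (interior (prD D T)).Nonempty ∧ ∀ j ∉ D, interior (prD (insert j D) T) = ∅

/-- **FbF.** Finite fibres over generic points. Uses `TSn`, `Dich`.

PROOF. For `j ∉ D` let `B_j` be the set of the `z : Option {i // i ∈ D} → ℝ` such that there is `x ∈ T` with `x i = z (some i)` for `i ∈ D` and `x j = z none`: semialgebraic (`TSn` with `κ = ι`, `SQ.reidx`, `SQ.eq`, `SQ.iInter`). It has empty interior: under the homeomorphism induced by the equivalence `Option {i // i ∈ D} ≃ {i // i ∈ insert j D}` it corresponds to `prD (insert j D) T`. `Dich` gives `P_j ≠ 0` such that `P_j` vanishes on `B_j`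
(if `z ∈ B_j` and `P_j z ≠ 0` then a neighbourhood of `z` would be in `B_j`). Let `F_j = MvPolynomial.optionEquivLeft ℝ _ P_j ≠ 0` and let `c_j ≠ 0` be one of its coefficients. `a = ∏_(j ∉ D) c_j` (a finite product over the `j ∉ D`). If `eval u a ≠ 0` then `spz u F_j ≠ 0` for all `j ∉ D`, so it has a finite set `R_j` of roots, and every `x ∈ T` with `x i = u i` for `i ∈ D` satisfies `x j ∈ R_j`
(`(spz u F_j).eval (x j) = eval z P_j` with `z = cns (x j) u`, as in `TS1`). So the fibre is contained in the finite set `{x | (∀ i ∈ D, x i = u i) ∧ ∀ j ∉ D, x j ∈ R_j}` (`Set.Finite.pi`). -/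
def S_FbF : Prop := ∀ (ι : Type) [Fintype ι] [DecidableEq ι] (T : Set (ι → ℝ)), SQ T →
  ∀ D : Finset ι, (∀ j ∉ D, interior (prD (insert j D) T) = ∅) →
    ∃ a : MvPolynomial {i // i ∈ D} ℝ, a ≠ 0 ∧ ∀ u, MvPolynomial.eval u a ≠ 0 →
      {x : ι → ℝ | x ∈ T ∧ ∀ i : {i // i ∈ D}, x i = u i}.Finite

/-- **GrE.** Existence of the graph. Uses `TSn`, `ChD`, `FbF`, `NowD`, `Sel`, `AnaV`, `Bai`.

PROOF. `D` from `ChD`, `a` from `FbF`; `O1 = interior (prD D T) ∩ {a ≠ 0}` is open and not empty (`NowD`). The set `{z : {i // i ∈ D} ⊕ ι → ℝ | (z ∘ inr) ∈ T ∧ ∀ i, z (inr i) = z (inl i)}` is semialgebraic; `Sel` (`κ = ι`) gives `σ`, `SF σ`, and for `u ∈ O1` the fibre is finite, hence compact, and not empty, so `σ u ∈ T`, `σ u i = u i`. `AnaV` gives a point of `O1` at which `σ` is analytic; it is analytic on an open neighbourhood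
`O2 ⊆ O1` (`AnalyticAt.eventually_analyticAt`). For `N : ℕ` let `E_N = {u | ∀ x ∈ T, (∀ i, x i = u i) → x ≠ σ u → ∃ j, 1/(N+1) ≤ |x j - σ u j|}`: semialgebraic (`SQ.all`-type arguments with `TSn`; `σ u` is expressed by `∃ y, y = σ u`, i.e. `SF σ`). `O2 ⊆ ⋃ E_N` because the fibres are finite (the minimum of finitely many positive numbers `‖x - σ u‖`, sup norm). `Bai` gives `N` and `O = interior E_N ∩ O2` not empty. `g = σ`, `δ = 1/(N+1)`. -/
def S_GrE : Prop := ∀ (ι : Type) [Fintype ι] [DecidableEq ι] (T : Set (ι → ℝ)), SQ T →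
  T.Nonempty → ∃ (D : Finset ι) (O : Set ({i // i ∈ D} → ℝ))
    (g : ({i // i ∈ D} → ℝ) → (ι → ℝ)), Gra T D O g

/-! ## Complexification and constant rank -/

/-- The complex rank of a complex linear map. -/
noncomputable def rk {d n : ℕ} (M : Cn d →L[ℂ] Cn n) : ℕ :=
  Module.finrank ℂ (LinearMap.range M.toLinearMap)

/-- **RkC.** Bounds for the rank extend from real to complex points. Uses `RId` (KP).

PROOF. (Linear algebra) `rk M ≤ r` iff for all complex linear `α : Cn (r + 1) → Cn d`, `β : Cn n → Cn (r + 1)` the determinant of `β ∘ M ∘ α` is zero: if `rk M ≤ r` the composition is not surjective; if `rk M ≥ r + 1`, let `y_0, …, y_r` be linearly independent vectors `M x_i`, `α` maps the basis vectors to the `x_i`, `β` maps `y_i` to the basis vectors (extend the `y_i` to a basis), so `β M α = 1`.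
For fixed `α, β` the function `ξ ↦ det (β ∘ fderiv ℂ F ξ ∘ α)` is holomorphic on the ball (`F` is analytic, `Osgood.analyticOnNhd`; `LinearMap.det` or the determinant of the matrix is a polynomial in the entries) and vanishes at the real points of the ball; by `RId` (translated: `z ↦ φ (a + z)`) it vanishes on the ball. -/
def S_RkC : Prop := ∀ (d n r : ℕ) (F : Cn d → Cn n) (a : Fin d → ℝ) (ρ : ℝ), 0 < ρ →
  DifferentiableOn ℂ F (ball (fun i => (a i : ℂ)) ρ) →
  (∀ u : Fin d → ℝ, ‖u - a‖ < ρ → rk (fderiv ℂ F (fun i => (u i : ℂ))) ≤ r) →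
  ∀ ξ ∈ ball (fun i => (a i : ℂ) : Cn d) ρ, rk (fderiv ℂ F ξ) ≤ r

/-- **CRT.** Maps of constant rank smaller than the dimension of the target satisfy an equation.

PROOF. `M = fderiv ℂ F a`, `W = range M`, of dimension `r < n`. Choose a complex linear projection `P : Cn n → W` (`P w = w` for `w ∈ W`) and `Q : Cn d → ker M` (`Q κ = κ` for `κ ∈ ker M`), and a linear form `λ` on `Cn n` with `λ = 0` on `W` and `λ v = 1` for some `v` with `P v = 0` (`v ∈ ker P`, `v ≠ 0`, exists because `r < n`; `λ = λ' ∘ (1 - P)` with `λ' v = 1`). `Ψ ξ = (P (F ξ), Q (ξ - a))` is holomorphic with values in `W × ker M`, and its derivative at `a`,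
`x ↦ (M x, Q x)`, is injective (`M x = 0` gives `x ∈ ker M`, `Q x = x`), hence bijective (dimensions: rank-nullity). Inverse function theorem over `ℂ`: a local inverse `χ`, holomorphic near `Ψ a = (P (F a), 0)`. For `ξ` near `a`: `P ∘ fderiv F ξ` still has rank `≥ r` (`r` vectors with linearly independent images: an open condition, `isOpen_setOf_linearIndependent`), and `fderiv F ξ` has rank `r`; `ker (fderiv F ξ) ⊆ ker (P ∘ fderiv F ξ)`
and both have dimension `d - r` (the second has dimension `≤ d - r`), so they are equal. Let `B1 × B2` be a product of small balls around `Ψ a` on which `χ` is defined and holomorphic with values close to `a`. For `(w, κ) ∈ B1 × B2` and `κ' ∈ ker M`: `P (F (χ (w, κ))) = w`, so the vector `x = (d/dκ χ) κ'` satisfies `P (fderiv F x) = 0`, hence `fderiv F x = 0`: the derivative of `κ ↦ F (χ (w, κ))` is zero on the convex set `B2`,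
so `F (χ (w, κ)) = F (χ (w, 0))`. For `ξ` near `a`, `ξ = χ (P (F ξ), Q (ξ - a))`, so `F ξ = F (χ (P (F ξ), 0))`. `h z = λ (z - F (χ (P z, 0)))` is holomorphic near `F a`, `h (F ξ) = 0` for `ξ` near `a`, and `h (z + t v) = h z + t`, so `h` is not identically zero near `F a`. -/
def S_CRT : Prop := ∀ (d n r : ℕ) (F : Cn d → Cn n) (a : Cn d) (ρ : ℝ), 0 < ρ →
  DifferentiableOn ℂ F (ball a ρ) → r < n → (∀ ξ ∈ ball a ρ, rk (fderiv ℂ F ξ) = r) →
  ∃ ρ' > 0, ∃ h : Cn n → ℂ, DifferentiableOn ℂ h (ball (F a) ρ') ∧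
    (∃ z ∈ ball (F a) ρ', h z ≠ 0) ∧ ∀ᶠ ξ in 𝓝 a, h (F ξ) = 0

/-- **Dep.** Real analytic maps whose derivatives do not span over `ℂ` satisfy a holomorphic equation.
Uses `Cplx` (KP), `RkC`, `CRT`.

PROOF. Reindex `κ ≃ Fin d` (composition with the linear homeomorphism `(Fin d → ℝ) ≃ (κ → ℝ)`), so wlog `κ = Fin d`. For `u ∈ O` let `r(u) = finrank ℂ (span ℂ (range (fderiv ℝ s u)))`, `r(u) < n` (a submodule of `Cn n` different from `⊤`: `Submodule.finrank_lt`). Choose `u1 ∈ O` with `r = r(u1)` maximal. `Cplx` at `u1`: `F`, holomorphic on the ball of radius `ρ` around `u1`, `F = s` at the real points `u`, `‖u - u1‖ < ρ`; decrease `ρ` such that these `u` are in `O`.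
At such real points `fderiv ℂ F u (e_j) = fderiv ℝ s u (e_j)` (both are the derivative of `t ↦ s (u + t e_j)` at `0`, `t` real), so the range of `fderiv ℂ F u` is the span over `ℂ` of the vectors `fderiv ℝ s u (e_j)`, i.e. of `range (fderiv ℝ s u)`: `rk (fderiv ℂ F u) = r(u) ≤ r`. `RkC`: `rk ≤ r` on the ball. At `u1` it is `r`: `r` vectors with linearly independent images; this remains true for `ξ` near `u1` (`isOpen_setOf_linearIndependent`,
continuity of `fderiv ℂ F`), so `rk ≥ r` on a smaller ball. `CRT` on this ball gives `h`; `h (F u) = 0` for real `u` near `u1`. -/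
def S_Dep : Prop := ∀ (κ : Type) [Fintype κ] (n : ℕ) (s : (κ → ℝ) → Cn n) (O : Set (κ → ℝ)),
  IsOpen O → O.Nonempty → AnalyticOnNhd ℝ s O →
  (∀ u ∈ O, Submodule.span ℂ (range (fderiv ℝ s u)) ≠ ⊤) →
  ∃ u1 ∈ O, ∃ ρ > 0, ∃ h : Cn n → ℂ, DifferentiableOn ℂ h (ball (s u1) ρ) ∧
    (∃ z ∈ ball (s u1) ρ, h z ≠ 0) ∧ ∀ᶠ u in 𝓝 u1, h (s u) = 0

/-- **Gnr.** The submanifold of the peak points is generic. Uses `PkD` (KP), `Dep`.

PROOF. Suppose not. `s u = cpx (g u)` is analytic on `O` (`cpx` is real linear and continuous). `Dep` gives `u1, ρ, h`. `c = s u1 ∈ Pk A`. Let `δ` be from `Gra.loc`. For `c' ∈ Pk A` let `x'` be the real coordinates of `c'` (`x' (inl i) = re`, `x' (inr i) = im`, `cpx x' = c'`). If `c'` is close enough to `c`, then `c' ∈ B` (`B` is open, `c ∈ B`), `x'` is close to `g u1` (`|x' _ - g u1 _| ≤ ‖c' - c‖`), so `u' i = x' i` (`i ∈ D`) is close to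
`u1` (`Gra.sec`), `u' ∈ O`, `‖x' - g u'‖ ≤ ‖x' - g u1‖ + ‖g u1 - g u'‖ < δ`, so `x' = g u'`, `c' = s u'` and `h c' = 0`. This contradicts `PkD` (`c`, `h`, `r = ρ`, `r'` small). -/
def S_Gnr : Prop := ∀ (n : ℕ) (A B : Set (Cn n)), IsOpen A → IsOpen B →
  ∀ (D : Finset (Fin n ⊕ Fin n)) (O : Set ({i // i ∈ D} → ℝ))
    (g : ({i // i ∈ D} → ℝ) → (Fin n ⊕ Fin n → ℝ)),
    Gra {x : Fin n ⊕ Fin n → ℝ | cpx x ∈ Pk A ∩ B} D O g →
    ∃ u ∈ O, Submodule.span ℂ (range (fderiv ℝ (fun v => cpx (g v)) u)) = ⊤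

/-! ## Normal form -/

/-- The last `k` coordinates are real. -/
def RealW {m k : ℕ} (q : Cn (m + k)) : Prop := ∀ j : Fin k, (q (Fin.natAdd m j)).im = 0

/-- **Bas.** Complex coordinates adapted to a real subspace which spans over `ℂ`.

PROOF. `H = {v ∈ V | I • v ∈ V}` is a complex subspace contained in `V`. Let `v_1, …, v_m` be a complex basis of `H`, `R` a real complement of `H` in `V` (`Submodule.exists_isCompl` in the real vector space `V`), `w_1, …, w_k` a real basis of `R`. They span `Cn n` over `ℂ` because `V` does. They are linearly independent over `ℂ`: let `∑ a_j v_j + ∑ (β_l + i γ_l) w_l = 0` with real `β_l, γ_l`; `w = ∑ β_l w_l`, `w' = ∑ γ_l w_l ∈ R`. `I w' = - w - ∑ a_j v_j ∈ V`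
and `w' ∈ V`, so `w' ∈ H ∩ R = 0`, `γ = 0`; then `w ∈ H ∩ R = 0`, `β = 0`, and `a = 0`. So `m + k = n` and `L q = ∑ q_j v_j + ∑ q_(m+l) w_l` is an isomorphism. If `q` satisfies `RealW` then `L q ∈ V`. Conversely let `L q ∈ V`, `q_(m+l) = β_l + i γ_l`: `I (∑ γ_l w_l) ∈ V`, so `∑ γ_l w_l ∈ H ∩ R = 0` and `γ = 0`. -/
def S_Bas : Prop := ∀ (n : ℕ) (V : Submodule ℝ (Cn n)),
  Submodule.span ℂ (V : Set (Cn n)) = ⊤ →
  ∃ (m k : ℕ), m + k = n ∧ ∃ L : Cn (m + k) ≃L[ℂ] Cn n, ∀ q, L q ∈ V ↔ RealW q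

/-- **SCa.** Affine coordinate changes preserve semialgebraic sets.

PROOF. The real and imaginary parts of the components of `c + L (cpx x)` are polynomials of degree `≤ 1` in the coordinates of `x : Fin n ⊕ Fin n → ℝ` (`L (cpx x) = ∑ i, cpx x i • L (Pi.single i 1)`); `SQ.preim`. -/
def S_SCa : Prop := ∀ (n : ℕ) (A : Set (Cn n)) (c : Cn n) (L : Cn n ≃L[ℂ] Cn n), SC A →
  SC ((Chart.aff c L).pre A)

/-- The set `T ⊆ ℂᵐ⁺ᵏ` is near `0` parametrized by `σ`, with the tangent space `Im w = 0` at `0`. -/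
structure Par {m k : ℕ} (T : Set (Cn (m + k))) (κ : Type) [Fintype κ] (u0 : κ → ℝ)
    (σ : (κ → ℝ) → Cn (m + k)) (τ : Cn (m + k) → (κ → ℝ)) : Prop where
  ana : AnalyticAt ℝ σ u0
  zero : σ u0 = 0
  mem : ∀ᶠ u in 𝓝 u0, σ u ∈ T
  cont : ContinuousAt τ 0
  tau0 : τ 0 = u0
  inv : ∀ᶠ q in 𝓝 (0 : Cn (m + k)), q ∈ T → σ (τ q) = q
  inj : Function.Injective (fderiv ℝ σ u0)
  tan : ∀ q, q ∈ range (fderiv ℝ σ u0) ↔ RealW q

/-- **PaG.** From the parametrization to a graph.

PROOF. Let `π q = (Re z, Im z, Re w)`, `ν q = Im w` for `q = (z, w)` (`z a = q (Fin.castAdd k a)`, `w j = q (Fin.natAdd m j)`): real linear, continuous, `pt (π q) (ν q) = q`, `π (pt x v) = x`, `ν (pt x v) = v`. The derivative of `π ∘ σ` at `u0` is `π ∘ fderiv σ u0`: injective (`π` is injective on the set of the `q` with `ν q = 0`, which contains the range) and surjective (for `x` the point `pt x 0` satisfies `RealW`, so it is in the range). So it is a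
continuous linear equivalence and the analytic inverse function theorem (`HasStrictFDerivAt.toOpenPartialHomeomorph` and analyticity of the inverse, as in `Ana1`, or `ContDiffAt … ω`) gives `β`, analytic near `0`, `β 0 = u0`, with `π (σ (β x)) = x` for `x` near `0` and `β (π (σ u)) = u` for `u` near `u0`. `h0 x = ν (σ (β x))`: analytic near `0`, `h0 0 = 0`, `fderiv h0 0 = ν ∘ fderiv σ u0 ∘ fderiv β 0 = 0`.
For `x` near `0`: `pt x (h0 x) = σ (β x) ∈ T`. If `q = pt x v ∈ T` is near `0` then `u = τ q` is near `u0` and `σ u = q`, so `β x = β (π (σ u)) = u` and `v = ν (σ u) = h0 x`. Choose first `r2 ≤ ρ` and a radius such that the last statement holds for `‖x‖, ‖v‖ < r2` (then `‖pt x v‖` is small), then `r1 ≤ r2` such that everything is defined and `‖h0 x‖ < r2` for `‖x‖ < r1`, and the bound of the derivative (it is `0` at `0` and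
continuous, `AnalyticAt.fderiv`). -/
def S_PaG : Prop := ∀ (m k : ℕ) (T : Set (Cn (m + k))) (κ : Type) [Fintype κ] (u0 : κ → ℝ)
  (σ : (κ → ℝ) → Cn (m + k)) (τ : Cn (m + k) → (κ → ℝ)), Par T κ u0 σ τ →
  ∀ ε > 0, ∀ ρ > 0, ∃ (r1 r2 : ℝ) (h0 : (Ix m k → ℝ) → (Fin k → ℝ)), 0 < r1 ∧ r1 ≤ ρ ∧ 0 < r2 ∧
    r2 ≤ ρ ∧ AnalyticOnNhd ℝ h0 (ball 0 r1) ∧
    (∀ x ∈ ball (0 : Ix m k → ℝ) r1, ‖fderiv ℝ h0 x‖ ≤ ε ∧ ‖h0 x‖ < r2 ∧
      ∀ v : Fin k → ℝ, ‖v‖ < r2 → (pt x v ∈ T ↔ v = h0 x))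

/-- **NFa.** The normal form. Uses `Sel`.

PROOF. The set `{z : Ix m k ⊕ Fin k → ℝ | (∀ i, |z (inl i)| < r1) ∧ (∀ j, |z (inr j)| < r2) ∧ pt (z ∘ inl) (z ∘ inr) ∈ Pk A}` is semialgebraic: `pt x v = cpx y` where `y` is `(x, v)` with the coordinates renumbered (`y (inl (castAdd a)) = x (inl (inl a))`, `y (inl (natAdd j)) = x (inr j)`, `y (inr (castAdd a)) = x (inl (inr a))`, `y (inr (natAdd j)) = v j`), so `SQ.reidx` applies to `SC (Pk A)`; absolute values: `SQ.lt` twice. `Sel` gives `h`, `SF h`;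
for `x ∈ ball 0 r1` (`‖x‖ < r1` iff all `|x i| < r1`) the fibre is the single point `h0 x`, so `h x = h0 x`. `O = ball 0 r1` (not empty). `ana`, `sm`: `h = h0` on the open set `O` (`Filter.EventuallyEq.fderiv_eq`). `pk`: clear. `loc`: for `q` near `pt x (h x)`: `q = pt x' v'` with `x'` near `x`, `v'` near `h0 x`, so `x' ∈ O`, `‖v'‖ < r2`; `q ∈ Pk A` gives `v' = h0 x' = h x'`. The last property: `‖pt x v‖ ≤ ‖x‖ + ‖x‖ + ‖v‖` or so, `≤ 3 ρ`. -/
def S_NFa : Prop := ∀ (m k : ℕ) (A : Set (Cn (m + k))), IsOpen A → SC A → SC (Pk A) →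
  ∀ (r1 r2 ρ : ℝ) (h0 : (Ix m k → ℝ) → (Fin k → ℝ)), 0 < r1 → r1 ≤ ρ → 0 < r2 → r2 ≤ ρ →
    AnalyticOnNhd ℝ h0 (ball 0 r1) →
    (∀ x ∈ ball (0 : Ix m k → ℝ) r1, ‖fderiv ℝ h0 x‖ ≤ 1 / (100 * (k + 1)) ∧ ‖h0 x‖ < r2 ∧
      ∀ v : Fin k → ℝ, ‖v‖ < r2 → (pt x v ∈ Pk A ↔ v = h0 x)) →
    ∃ h : (Ix m k → ℝ) → (Fin k → ℝ), NF A (ball 0 r1) h ∧
      ∀ x ∈ ball (0 : Ix m k → ℝ) r1, ‖pt x (h x)‖ ≤ 3 * ρ

/-- **PaE.** The parametrization in the adapted coordinates. Uses `PkC` (KP).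

PROOF. `s v = cpx (g v)`, `p = s u0`, `e = Chart.aff p L`, `e.psi q = p + L q`, `e.pi z = L⁻¹ (z - p)`. `T = Pk (e.pre A)`; by `PkC`: `q ∈ T ↔ p + L q ∈ Pk A` (`e.W = univ`). `σ u = L⁻¹ (s u - p)`, `τ q i =` the coordinate `i` of the real coordinates of `p + L q` (`x' (inl j) = re`, `x' (inr j) = im`, `cpx x' = p + L q`).
`ana`, `zero`: clear (`cpx` is real linear). `mem`: `p + L (σ u) = s u ∈ Pk A` for `u ∈ O` (`Gra.mem`, `O` open). `cont`, `tau0`: `τ` is real affine; `Gra.sec`. `inv`: for `q` near `0` with `q ∈ T` let `x'` be the real coordinates of `c' = p + L q ∈ Pk A`, `c' ∈ B` (open, `p ∈ B`); `u' = τ q` is near `u0`, so in `O`, `‖x' - g u'‖ < δ`, so `x' = g u'` (`Gra.loc`) and `σ u' = L⁻¹ (c' - p) = q`.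
`inj`: `fderiv σ u0 = L⁻¹ ∘ fderiv s u0`, and `fderiv s u0` is injective: the coordinates in `D` of the real coordinates of `s u` are `u` for `u ∈ O` (`Gra.sec`), so composing the derivative with this linear map gives the identity. `tan`: `q ∈ range (fderiv σ u0)` iff `L q ∈ range (fderiv s u0)` iff `RealW q`. -/
def S_PaE : Prop := ∀ (m k : ℕ) (A B : Set (Cn (m + k))), IsOpen A → IsOpen B →
  ∀ (D : Finset (Fin (m + k) ⊕ Fin (m + k))) (O : Set ({i // i ∈ D} → ℝ))
    (g : ({i // i ∈ D} → ℝ) → (Fin (m + k) ⊕ Fin (m + k) → ℝ)),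
    Gra {x : Fin (m + k) ⊕ Fin (m + k) → ℝ | cpx x ∈ Pk A ∩ B} D O g →
    ∀ u0 ∈ O, ∀ L : Cn (m + k) ≃L[ℂ] Cn (m + k),
      (∀ q, L q ∈ range (fderiv ℝ (fun v => cpx (g v)) u0) ↔ RealW q) →
      ∃ (σ : ({i // i ∈ D} → ℝ) → Cn (m + k)) (τ : Cn (m + k) → ({i // i ∈ D} → ℝ)),
        Par (Pk ((Chart.aff (cpx (g u0)) L).pre A)) {i // i ∈ D} u0 σ τ

/-- **Kpos.** The codimension is positive.

PROOF. Let `x0 ∈ O`, `q0 = pt x0 (h x0)`. For `k = 0` the map `x ↦ pt x (h x) = pt x 0` is a bijection of `Ix m 0 → ℝ` onto `Cn (m + 0)` with the continuous inverse `q ↦ (Re, Im)`; so the image of `O` is an open neighbourhood of `q0`. It is contained in `Pk A`, so it is disjoint from `A`, but `q0 ∈ closure A`: a contradiction. -/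
def S_Kpos : Prop := ∀ (m : ℕ) (A : Set (Cn (m + 0))) (O : Set (Ix m 0 → ℝ))
  (h : (Ix m 0 → ℝ) → (Fin 0 → ℝ)), ¬ NF A O h

/-- **NFb.** Output of block K. Uses `GrE`, `Gnr`, `Bas`, `PaE`, `PaG`, `NFa`, `SCa`, `Kpos`, `PkC` (KP).

PROOF. `A = c0.pre U`. `B = ball p r ⊆ c0.W`. `T = {x | cpx x ∈ Pk A ∩ B}` is semialgebraic: `SC (Pk A)` intersected with a ball of the sup norm of complex numbers, given by the inequalities `(x (inl i) - re (p i))² + (x (inr i) - im (p i))² < r²`; it is not empty. `GrE`: `D, O', g`; `Gnr`: `u0`; `Bas` for `V` = the range of `fderiv ℝ (fun v => cpx (g v)) u0` (`LinearMap.range` as a real submodule): `m, k`, `m + k = n` (substitute `n`), `L`; `PaE`: `σ, τ`. `c1 = cpx (g u0) ∈ B ⊆ c0.W` (`Gra.mem`), `e = Chart.aff c1 L`, `c = c0.comp e`, `c.pre U = e.pre A` (`Chart.comp_pre`). `e.psi` is continuous: there is `ρ > 0` with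
`e.psi q ∈ c0.W` for `‖q‖ ≤ 3 ρ`, so `q ∈ c.W`. `PaG` for `T = Pk (e.pre A)` with `ε = 1/(100 (k+1))` and `ρ`; `SC (e.pre A)` by `SCa`, `SC (Pk (e.pre A))`: `Pk (e.pre A) = e.pre (Pk A)` (`PkC`, `e.W = univ`) and `SCa`; `e.pre A` is open (preimage under a continuous map). `NFa` gives `NF (c.pre U) (ball 0 r1) h` and the points in `c.W`. `k = 0` is excluded by `Kpos`. -/
def S_NFb : Prop := ∀ (N n : ℕ) (V U : Set (Cn N)) (c0 : Chart V n) (p : Cn n), 0 < n →
  IsOpen (c0.pre U) → SC (c0.pre U) → SC (Pk (c0.pre U)) → p ∈ c0.W → p ∈ Pk (c0.pre U) →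
  ∃ (m k : ℕ), 0 < k ∧ m + k = n ∧ ∃ (c : Chart V (m + k)) (O : Set (Ix m k → ℝ))
    (h : (Ix m k → ℝ) → (Fin k → ℝ)), NF (c.pre U) O h ∧ ∀ x ∈ O, pt x (h x) ∈ c.W

end KV
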