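import Pool.Agent.Lib.KV.SpecZ
import Pool.Agent.Lib.KP.L.Dim
import Pool.Agent.Lib.KP.L.DimC
import Pool.Agent.Lib.KP.G.Coc
import Pool.Agent.Lib.KP.T.BsdP
import Pool.Agent.Lib.KP.T.Pt
import Pool.Agent.Lib.KV.Q.Prem
import Pool.Agent.Lib.KV.Q.Theta
import Pool.Agent.Lib.KV.Q.Adj
import Pool.Agent.Lib.KV.Q.SgT
import Pool.Agent.Lib.KV.Q.NewZ
import Pool.Agent.Lib.KV.Q.AllZ
import Pool.Agent.Lib.KV.Q.StepL
import Pool.Agent.Lib.KV.Q.TSrec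
import Pool.Agent.Lib.KV.Q.TS1
import Pool.Agent.Lib.KV.Q.TSn
import Pool.Agent.Lib.KV.K1.SaQ
import Pool.Agent.Lib.KV.K1.Row
import Pool.Agent.Lib.KV.K1.InvC
import Pool.Agent.Lib.KV.K1.AlC
import Pool.Agent.Lib.KP.L.VRank
import Pool.Agent.Lib.KP.L.VImp
import Pool.Agent.Lib.KP.L.VFlat
import Pool.Agent.Lib.KP.L.VSing
import Pool.Agent.Lib.KP.L.Tay
import Pool.Agent.Lib.KP.L.NoMax
import Pool.Agent.Lib.KP.L.D2N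
import Pool.Agent.Lib.KP.L.LvO
import Pool.Agent.Lib.KP.L.D2A
import Pool.Agent.Lib.KP.L.PkOf
import Pool.Agent.Lib.KP.L.LvC
import Pool.Agent.Lib.KP.L.LvH
import Pool.Agent.Lib.KP.L.BdMax
import Pool.Agent.Lib.KP.L.PkC
import Pool.Agent.Lib.KV.K1.KA
import Pool.Agent.Lib.KV.K1.QdF
import Pool.Agent.Lib.KV.K1.PkQ
import Pool.Agent.Lib.KV.K1.PkS
import Pool.Agent.Lib.KV.K3.ChD
import Pool.Agent.Lib.KV.Q.Dich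
import Pool.Agent.Lib.KV.K3.FbF
import Pool.Agent.Lib.KV.Q.NowD
import Pool.Agent.Lib.KV.Q.Sel1
import Pool.Agent.Lib.KV.Q.Sel
import Pool.Agent.Lib.KV.Q.Bai
import Pool.Agent.Lib.KV.Q.Cnt
import Pool.Agent.Lib.KV.Q.AlgF
import Pool.Agent.Lib.KV.Q.Ana1
import Pool.Agent.Lib.KV.Q.AnaV
import Pool.Agent.Lib.KV.K3.GrE
import Pool.Agent.Lib.KP.L.PkD
import Pool.Agent.Lib.KP.S.Cplx
import Pool.Agent.Lib.KP.W.RId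
import Pool.Agent.Lib.KV.K3.RkC
import Pool.Agent.Lib.KV.K3.CRT
import Pool.Agent.Lib.KV.K3.Dep
import Pool.Agent.Lib.KV.K3.Gnr
import Pool.Agent.Lib.KV.K3.Bas
import Pool.Agent.Lib.KV.K3.PaE
import Pool.Agent.Lib.KV.K3.PaG
import Pool.Agent.Lib.KV.K3.NFa
import Pool.Agent.Lib.KV.K3.SCa
import Pool.Agent.Lib.KV.K3.Kpos
import Pool.Agent.Lib.KV.K3.NFb
import Pool.Agent.Lib.KP.G.CovF
import Pool.Agent.Lib.KP.G.Step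
import Pool.Agent.Lib.KP.G.Asc
import Pool.Agent.Lib.KP.G.Lip
import Pool.Agent.Lib.KP.G.HLim
import Pool.Agent.Lib.KP.G.Mon
import Pool.Agent.Lib.KP.G.Taut
import Pool.Agent.Lib.KV.L.TauC
import Pool.Agent.Lib.KV.L.SqA
import Pool.Agent.Lib.KV.L.Hes
import Pool.Agent.Lib.KV.L.Sup
import Pool.Agent.Lib.KV.L.Acu
import Pool.Agent.Lib.KV.Q.DL
import Pool.Agent.Lib.KV.L.Sec1
import Pool.Agent.Lib.KV.L.Sec2
import Pool.Agent.Lib.KV.Q.ContF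
import Pool.Agent.Lib.KV.Q.Dini
import Pool.Agent.Lib.KV.Q.DirF
import Pool.Agent.Lib.KV.Q.PLip
import Pool.Agent.Lib.KV.Q.LipS
import Pool.Agent.Lib.KV.Q.LipT
import Pool.Agent.Lib.KV.Q.LipV
import Pool.Agent.Lib.KV.L.Sec
import Pool.Agent.Lib.KV.L.Rtr
import Pool.Agent.Lib.KV.L.Qua
import Pool.Agent.Lib.KV.L.TauS
import Pool.Agent.Lib.KV.L.BWh
import Pool.Agent.Lib.KV.M.NN
import Pool.Agent.Lib.KV.M.CTa
import Pool.Agent.Lib.KV.M.CTc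
import Pool.Agent.Lib.KV.M.CTl
import Pool.Agent.Lib.KV.M.CTr
import Pool.Agent.Lib.KV.M.CTb
import Pool.Agent.Lib.KV.M.CT2
import Pool.Agent.Lib.KV.M.QQ
import Pool.Agent.Lib.KV.M.Bis
import Pool.Agent.Lib.KV.M.Tn
import Pool.Agent.Lib.KV.M.ThP
import Pool.Agent.Lib.KV.M.BisU
import Pool.Agent.Lib.KV.M.Hol
import Pool.Agent.Lib.KV.M.Est
import Pool.Agent.Lib.KV.M.MnB
import Pool.Agent.Lib.KV.M.MnL
import Pool.Agent.Lib.KV.M.CovB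
import Pool.Agent.Lib.KV.M.Room
import Pool.Agent.Lib.KV.M.Fam
import Pool.Agent.Lib.KV.M.KPc
import Pool.Agent.Lib.KV.M.DscC
import Pool.Agent.Lib.KV.M.CTp
import Pool.Agent.Lib.KV.M.Bdy
import Pool.Agent.Lib.KV.M.Dsc
import Pool.Agent.Lib.KV.M.BWc
import Pool.Agent.Lib.KV.L.WdP
import Pool.Agent.Lib.KV.L.LL
import Pool.Agent.Lib.KV.Q.GenP
import Pool.Agent.Lib.KV.C.GenE
import Pool.Agent.Lib.KV.C.QF1
import Pool.Agent.Lib.KV.C.QF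
import Pool.Agent.Lib.KV.C.FrEx
import Pool.Agent.Lib.KV.C.AcF
import Pool.Agent.Lib.KV.C.OmO
import Pool.Agent.Lib.KV.C.FrAs
import Pool.Agent.Lib.KV.C.CD1
import Pool.Agent.Lib.KV.C.CD2
import Pool.Agent.Lib.KP.G.Exh
import Pool.Agent.Lib.KP.G.Ident
import Pool.Agent.Lib.KP.G.PeakL
import Pool.Agent.Lib.KV.C.Bnd2
import Pool.Agent.Lib.KV.C.ScLim
import Pool.Agent.Lib.KV.C.ScF
import Pool.Agent.Lib.KV.C.RegF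
import Pool.Agent.Lib.KV.C.Hur
import Pool.Agent.Lib.KV.C.HurN
import Pool.Agent.Lib.KV.C.RegU
import Pool.Agent.Lib.KV.C.QIFT
import Pool.Agent.Lib.KV.C.RegD
import Pool.Agent.Lib.KV.C.Scale2
import Pool.Agent.Lib.KV.C.Kon
import Pool.Agent.Lib.KV.C.LogK
import Pool.Agent.Lib.KV.C.CvxL
import Pool.Agent.Lib.KV.C.PsdK
import Pool.Agent.Lib.KV.C.CompD
import Pool.Agent.Lib.KV.C.ConeC
import Pool.Agent.Lib.KP.T.HP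
import Pool.Agent.Lib.KV.C.AcN
import Pool.Agent.Lib.KP.T.MinP
import Pool.Agent.Lib.KV.C.AcPk
import Pool.Agent.Lib.KV.C.AcLi
import Pool.Agent.Lib.KV.C.AcPD
import Pool.Agent.Lib.KV.C.Soft
import Pool.Agent.Lib.KV.C.CMain
import Pool.Agent.Lib.KV.Z.PA
import Pool.Agent.Lib.KV.B.S.LamP
import Pool.Agent.Lib.KV.B.E.Cay
import Pool.Agent.Lib.KV.B.E.TrA
import Pool.Agent.Lib.KV.B.A.CdB
import Pool.Agent.Lib.KV.B.A.HypB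
import Pool.Agent.Lib.KV.B.E.HypS
import Pool.Agent.Lib.KV.B.S.HPL
import Pool.Agent.Lib.KV.B.A.CnB
import Pool.Agent.Lib.KV.B.A.FlB
import Pool.Agent.Lib.KV.B.S.HalfP
import Pool.Agent.Lib.KV.B.S.TRi
import Pool.Agent.Lib.KV.B.S.Pola
import Pool.Agent.Lib.KV.B.S.Del
import Pool.Agent.Lib.KV.B.S.Ext
import Pool.Agent.Lib.KV.B.S.BR
import Pool.Agent.Lib.KV.B.S.CirL
import Pool.Agent.Lib.KV.B.S.ZP
import Pool.Agent.Lib.KV.B.S.PolF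
import Pool.Agent.Lib.KV.B.S.PolX
import Pool.Agent.Lib.KV.B.S.Hei
import Pool.Agent.Lib.KV.B.A.AdC
import Pool.Agent.Lib.KV.B.A.Itr
import Pool.Agent.Lib.KV.B.A.Eul
import Pool.Agent.Lib.KV.B.A.Lin
import Pool.Agent.Lib.KV.B.U.EvC
import Pool.Agent.Lib.KV.B.S.Wts
import Pool.Agent.Lib.KV.B.S.K5
import Pool.Agent.Lib.KV.B.S.K4
import Pool.Agent.Lib.KV.B.S.K3
import Pool.Agent.Lib.KV.B.S.Gr
import Pool.Agent.Lib.KV.B.S.Rela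
import Pool.Agent.Lib.KV.B.A.Iso
import Pool.Agent.Lib.KV.B.A.LA1
import Pool.Agent.Lib.KV.B.A.CUm
import Pool.Agent.Lib.KV.B.A.CUf
import Pool.Agent.Lib.KV.B.S.Inj1
import Pool.Agent.Lib.KV.B.S.Inj2
import Pool.Agent.Lib.KV.B.S.FamE
import Pool.Agent.Lib.KV.B.U.Evl
import Pool.Agent.Lib.KV.B.A.AdD
import Pool.Agent.Lib.KV.B.U.Str
import Pool.Agent.Lib.KV.B.A.DnB
import Pool.Agent.Lib.KV.B.U.Rep1
import Pool.Agent.Lib.KV.B.U.Rep2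
import Pool.Agent.Lib.KV.B.U.TauI
import Pool.Agent.Lib.KV.B.U.MsI
import Pool.Agent.Lib.KV.B.A.CnP
import Pool.Agent.Lib.KV.B.U.Nrm
import Pool.Agent.Lib.KV.B.U.Bar
import Pool.Agent.Lib.KV.B.U.Chi
import Pool.Agent.Lib.KV.B.U.DInt
import Pool.Agent.Lib.KV.B.U.IntB
import Pool.Agent.Lib.KV.B.U.Uni
import Pool.Agent.Lib.KV.B.S.E2
import Pool.Agent.Lib.KV.B.E.Sym0
import Pool.Agent.Lib.KV.B.E.SymD
import Pool.Agent.Lib.KV.B.E.Bsd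
import Pool.Agent.Lib.KV.B.E.PB
import Pool.Agent.Lib.KV.Z.PB

/-!
# KV (MP_64edc4_ag), all modules put together
-/

set_option autoImplicit false

namespace KVAll

theorem KP_Dim : KP.S_Dim := KP.tDim 

theorem KP_DimC : KP.S_DimC := KP.tDimC KP_Dim

theorem KP_Coc : KP.S_Coc := KP.tCoc 

theorem KP_BsdP : KP.S_BsdP := KP.tBsdP 

theorem KP_Pt : KP.S_Pt := KP.tPt KP_BsdP

theorem KV_Prem : KV.S_Prem := KV.tPrem 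

theorem KV_Theta : KV.S_Theta := KV.tTheta 

theorem KV_Adj : KV.S_Adj := KV.tAdj KV_Theta

theorem KV_SgT : KV.S_SgT := KV.tSgT 

theorem KV_NewZ : KV.S_NewZ := KV.tNewZ 

theorem KV_AllZ : KV.S_AllZ := KV.tAllZ 

theorem KV_StepL : KV.S_StepL := KV.tStepL KV_Adj KV_SgT KV_NewZ KV_AllZ

theorem KV_TSrec : KV.S_TSrec := KV.tTSrec KV_Prem KV_StepL

theorem KV_TS1 : KV.S_TS1 := KV.tTS1 KV_TSrec

theorem KV_TSn : KV.S_TSn := KV.tTSn KV_TS1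

theorem KV_SaQ : KV.S_SaQ := KV.tSaQ 

theorem KV_Row : KV.S_Row := KV.tRow 

theorem KV_InvC : KV.S_InvC := KV.tInvC 

theorem KV_AlC : KV.S_AlC := KV.tAlC KV_TSn KV_SaQ KV_Row KV_InvC

theorem KP_VRank : KP.S_VRank := KP.tVRank 

theorem KP_VImp : KP.S_VImp := KP.tVImp 

theorem KP_VFlat : KP.S_VFlat := KP.tVFlat 

theorem KP_VSing : KP.S_VSing := KP.tVSing KP_VRank KP_VImp KP_VFlat KP_Dim

theorem KP_Tay : KP.S_Tay := KP.tTay 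

theorem KP_NoMax : KP.S_NoMax := KP.tNoMax KP_Tay

theorem KP_D2N : KP.S_D2N := KP.tD2N 

theorem KP_LvO : KP.S_LvO := KP.tLvO KP_D2N

theorem KP_D2A : KP.S_D2A := KP.tD2A 

theorem KP_PkOf : KP.S_PkOf := KP.tPkOf KP_NoMax KP_LvO KP_D2A KP_D2N

theorem KP_LvC : KP.S_LvC := KP.tLvC 

theorem KP_LvH : KP.S_LvH := KP.tLvH 

theorem KP_BdMax : KP.S_BdMax := KP.tBdMax KP_PkOf KP_LvC KP_LvH KP_D2A KP_D2N

theorem KP_PkC : KP.S_PkC := KP.tPkC KP_LvC KP_LvO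

theorem KV_KA : KV.S_KA := KV.tKA KV_AlC KP_VSing KP_BdMax KP_PkC

theorem KV_QdF : KV.S_QdF := KV.tQdF 

theorem KV_PkQ : KV.S_PkQ := KV.tPkQ KV_QdF KP_Tay

theorem KV_PkS : KV.S_PkS := KV.tPkS KV_TSn KV_PkQ

theorem KV_ChD : KV.S_ChD := KV.tChD 

theorem KV_Dich : KV.S_Dich := KV.tDich 

theorem KV_FbF : KV.S_FbF := KV.tFbF KV_TSn KV_Dich

theorem KV_NowD : KV.S_NowD := KV.tNowD 

theorem KV_Sel1 : KV.S_Sel1 := KV.tSel1 KV_TSn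

theorem KV_Sel : KV.S_Sel := KV.tSel KV_TSn KV_Sel1

theorem KV_Bai : KV.S_Bai := KV.tBai KV_NowD KV_Dich

theorem KV_Cnt : KV.S_Cnt := KV.tCnt KV_TSn KV_Dich KV_Bai KV_NowD

theorem KV_AlgF : KV.S_AlgF := KV.tAlgF KV_Dich KV_NowD

theorem KV_Ana1 : KV.S_Ana1 := KV.tAna1 KV_TSn KV_Cnt KV_AlgF KV_NowD KV_Dich

theorem KV_AnaV : KV.S_AnaV := KV.tAnaV KV_TSn KV_Ana1

theorem KV_GrE : KV.S_GrE := KV.tGrE KV_TSn KV_ChD KV_FbF KV_NowD KV_Sel KV_AnaV KV_Bai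

theorem KP_PkD : KP.S_PkD := KP.tPkD KP_PkOf KP_LvO KP_LvH KP_D2A KP_D2N

theorem KP_Cplx : KP.S_Cplx := KP.pCplx 

theorem KP_RId : KP.S_RId := KP.tRId 

theorem KV_RkC : KV.S_RkC := KV.tRkC KP_RId

theorem KV_CRT : KV.S_CRT := KV.tCRT 

theorem KV_Dep : KV.S_Dep := KV.tDep KP_Cplx KV_RkC KV_CRT

theorem KV_Gnr : KV.S_Gnr := KV.tGnr KP_PkD KV_Dep

theorem KV_Bas : KV.S_Bas := KV.tBas 

theorem KV_PaE : KV.S_PaE := KV.tPaE KP_PkC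

theorem KV_PaG : KV.S_PaG := KV.tPaG 

theorem KV_NFa : KV.S_NFa := KV.tNFa KV_Sel

theorem KV_SCa : KV.S_SCa := KV.tSCa 

theorem KV_Kpos : KV.S_Kpos := KV.tKpos 

theorem KV_NFb : KV.S_NFb := KV.tNFb KV_GrE KV_Gnr KV_Bas KV_PaE KV_PaG KV_NFa KV_SCa KV_Kpos KP_PkC

theorem KP_CovF : KP.S_CovF := KP.tCovF 

theorem KP_Step : KP.S_Step := KP.tStep KP_CovF

theorem KP_Asc : KP.S_Asc := KP.tAsc 

theorem KP_Lip : KP.S_Lip := KP.tLip 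

theorem KP_HLim : KP.S_HLim := KP.tHLim 

theorem KP_Mon : KP.S_Mon := KP.tMon KP_Asc KP_Lip KP_HLim

theorem KP_Taut : KP.S_Taut := KP.tTaut KP_Step KP_Mon

theorem KV_TauC : KV.S_TauC := KV.tTauC KP_CovF KP_Taut

theorem KV_SqA : KV.S_SqA := KV.tSqA KV_TSn

theorem KV_Hes : KV.S_Hes := KV.tHes 

theorem KV_Sup : KV.S_Sup := KV.tSup KV_Hes KP_PkOf KP_LvO KP_NoMax KP_D2A

theorem KV_Acu : KV.S_Acu := KV.tAcu KV_Sup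

theorem KV_DL : KV.S_DL := KV.tDL 

theorem KV_Sec1 : KV.S_Sec1 := KV.tSec1 KV_TSn KV_SqA KV_DL KV_NowD

theorem KV_Sec2 : KV.S_Sec2 := KV.tSec2 KV_TSn KV_SqA KV_Sel

theorem KV_ContF : KV.S_ContF := KV.tContF KV_TSn KV_Cnt KV_DL KV_NowD

theorem KV_Dini : KV.S_Dini := KV.tDini 

theorem KV_DirF : KV.S_DirF := KV.tDirF KV_TSn KV_ContF KV_DL KV_Dini

theorem KV_PLip : KV.S_PLip := KV.tPLip KV_Dini

theorem KV_LipS : KV.S_LipS := KV.tLipS KV_TSn KV_DirF KV_Bai KV_Dich KV_NowD KV_PLip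

theorem KV_LipT : KV.S_LipT := KV.tLipT KV_TSn KV_ContF KV_DL KV_Dini KV_NowD

theorem KV_LipV : KV.S_LipV := KV.tLipV KV_LipS KV_LipT

theorem KV_Sec : KV.S_Sec := KV.tSec KV_Acu KV_Sec1 KV_Sec2 KV_LipV

theorem KV_Rtr : KV.S_Rtr := KV.tRtr 

theorem KV_Qua : KV.S_Qua := KV.tQua 

theorem KV_TauS : KV.S_TauS := KV.tTauS 

theorem KV_BWh : KV.S_BWh := KV.tBWh KV_Rtr KV_Qua KV_TauS

theorem KV_NN : KV.S_NN := KV.tNN 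

theorem KV_CTa : KV.S_CTa := KV.tCTa 

theorem KV_CTc : KV.S_CTc := KV.tCTc 

theorem KV_CTl : KV.S_CTl := KV.tCTl 

theorem KV_CTr : KV.S_CTr := KV.tCTr 

theorem KV_CTb : KV.S_CTb := KV.tCTb KV_NN

theorem KV_CT2 : KV.S_CT2 := KV.tCT2 KV_CTa KV_CTc

theorem KV_QQ : KV.S_QQ := KV.tQQ KV_NN KV_CTa KV_CTc KV_CTl KV_CTr KV_CTb KV_CT2

theorem KV_Bis : KV.S_Bis := KV.tBis KV_NN KV_QQ

theorem KV_Tn : KV.S_Tn := KV.tTn 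

theorem KV_ThP : KV.S_ThP := KV.tThP KV_Tn

theorem KV_BisU : KV.S_BisU := KV.tBisU KV_NN KV_QQ

theorem KV_Hol : KV.S_Hol := KV.tHol 

theorem KV_Est : KV.S_Est := KV.tEst KV_NN KV_QQ KV_BisU KV_Hol KV_Tn KV_ThP

theorem KV_MnB : KV.S_MnB := KV.tMnB KV_NN KV_QQ KV_Tn KV_ThP KV_Est

theorem KV_MnL : KV.S_MnL := KV.tMnL KV_NN KV_QQ KV_BisU KV_Tn KV_ThP KV_Est

theorem KV_CovB : KV.S_CovB := KV.tCovB 

theorem KV_Room : KV.S_Room := KV.tRoom 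

theorem KV_Fam : KV.S_Fam := KV.tFam KV_NN KV_QQ KV_BisU

theorem KV_KPc : KV.S_KPc := KV.tKPc 

theorem KV_DscC : KV.S_DscC := KV.tDscC KV_NN KV_CTa KV_CTl KV_CTb

theorem KV_CTp : KV.S_CTp := KV.tCTp KV_CTc KV_CTl KV_CTr

theorem KV_Bdy : KV.S_Bdy := KV.tBdy KV_Tn KV_ThP KV_Est KV_CTp KV_Room KV_DscC

theorem KV_Dsc : KV.S_Dsc := KV.tDsc KV_NN KV_QQ KV_CTc KV_Bis KV_BisU KV_Fam KV_ThP KV_KPc KV_DscC KV_Bdy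

theorem KV_BWc : KV.S_BWc := KV.tBWc KV_Bis KV_Tn KV_ThP KV_MnB KV_MnL KV_CovB KV_Room KV_Dsc

theorem KV_WdP : KV.S_WdP := KV.tWdP KV_Sec KV_BWh KV_BWc

theorem KV_LL : KV.S_LL := KV.tLL KV_TSn KV_SqA KV_WdP KV_Bai KV_DL KV_NowD

theorem KV_GenP : KV.S_GenP := KV.tGenP KV_NowD

theorem KVC_GenE : KVC.S_GenE := KVC.tGenE KV_TSn KV_SqA KV_DL KV_GenP

theorem KVC_QF1 : KVC.S_QF1 := KVC.tQF1 

theorem KVC_QF : KVC.S_QF := KVC.tQF KVC_QF1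

theorem KVC_FrEx : KVC.S_FrEx := KVC.tFrEx KVC_QF

theorem KVC_AcF : KVC.S_AcF := KVC.tAcF KV_Sup KVC_QF1 KP_Tay KP_LvO KP_D2N

theorem KVC_OmO : KVC.S_OmO := KVC.tOmO 

theorem KVC_FrAs : KVC.S_FrAs := KVC.tFrAs 

theorem KVC_CD1 : KVC.S_CD1 := KVC.tCD1 KVC_FrAs

theorem KVC_CD2 : KVC.S_CD2 := KVC.tCD2 KVC_FrAs

theorem KP_Exh : KP.S_Exh := KP.tExh 

theorem KP_Ident : KP.S_Ident := KP.tIdent 

theorem KP_PeakL : KP.S_PeakL := KP.tPeakL KP_Mon KP_Exh KP_Ident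

theorem KVC_Bnd2 : KVC.S_Bnd2 := KVC.tBnd2 

theorem KVC_ScLim : KVC.S_ScLim := KVC.tScLim KP_PeakL KVC_Bnd2 KP_Mon KP_Exh

theorem KVC_ScF : KVC.S_ScF := KVC.tScF KP_Taut

theorem KVC_RegF : KVC.S_RegF := KVC.tRegF 

theorem KVC_Hur : KVC.S_Hur := KVC.tHur 

theorem KVC_HurN : KVC.S_HurN := KVC.tHurN KVC_Hur

theorem KVC_RegU : KVC.S_RegU := KVC.tRegU KVC_HurN

theorem KVC_QIFT : KVC.S_QIFT := KVC.tQIFT 

theorem KVC_RegD : KVC.S_RegD := KVC.tRegD KVC_QIFT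

theorem KVC_Scale2 : KVC.S_Scale2 := KVC.tScale2 KVC_ScLim KVC_ScF KVC_RegF KVC_RegU KVC_RegD

theorem KVC_Kon : KVC.S_Kon := KVC.tKon KP_Taut

theorem KVC_LogK : KVC.S_LogK := KVC.tLogK 

theorem KVC_CvxL : KVC.S_CvxL := KVC.tCvxL 

theorem KVC_PsdK : KVC.S_PsdK := KVC.tPsdK 

theorem KVC_CompD : KVC.S_CompD := KVC.tCompD 

theorem KVC_ConeC : KVC.S_ConeC := KVC.tConeC 

theorem KP_HP : KP.S_HP := KP.tHP 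

theorem KVC_AcN : KVC.S_AcN := KVC.tAcN KP_HP

theorem KP_MinP : KP.S_MinP := KP.tMinP 

theorem KVC_AcPk : KVC.S_AcPk := KVC.tAcPk KP_MinP

theorem KVC_AcLi : KVC.S_AcLi := KVC.tAcLi 

theorem KVC_AcPD : KVC.S_AcPD := KVC.tAcPD 

theorem KVC_Soft : KVC.S_Soft := KVC.tSoft KVC_Scale2 KVC_Kon KVC_LogK KVC_CvxL KVC_PsdK KVC_CompD KVC_ConeC KVC_AcN KVC_AcPk KVC_AcLi KVC_AcPD

theorem KVC_CMain : KVC.S_CMain := KVC.tCMain KVC_GenE KVC_FrEx KVC_AcF KVC_OmO KVC_CD1 KVC_CD2 KVC_Soft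

theorem KV_PA : KV.S_PA := KV.tPA KV_KA KV_PkS KV_NFb KV_TauC KV_LL KVC_CMain

theorem KVB_LamP : KVB.S_LamP := KVB.tLamP 

theorem KVB_Cay : KVB.S_Cay := KVB.tCay KVB_LamP

theorem KVB_TrA : KVB.S_TrA := KVB.tTrA KVB_Cay

theorem KVB_CdB : KVB.S_CdB := KVB.tCdB 

theorem KVB_HypB : KVB.S_HypB := KVB.tHypB KVB_CdB

theorem KVB_HypS : KVB.S_HypS := KVB.tHypS KVB_Cay KVB_HypB

theorem KVB_HPL : KVB.S_HPL := KVB.tHPL 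

theorem KVB_CnB : KVB.S_CnB := KVB.tCnB 

theorem KVB_FlB : KVB.S_FlB := KVB.tFlB KVB_CdB KVB_CnB

theorem KVB_HalfP : KVB.S_HalfP := KVB.tHalfP KVB_LamP KVB_HPL KVB_FlB

theorem KVB_TRi : KVB.S_TRi := KVB.tTRi 

theorem KVB_Pola : KVB.S_Pola := KVB.tPola 

theorem KVB_Del : KVB.S_Del := KVB.tDel KVB_LamP KVB_HalfP KVB_TRi KVB_Pola

theorem KVB_Ext : KVB.S_Ext := KVB.tExt KVB_LamP KVB_TRi

theorem KVB_BR : KVB.S_BR := KVB.tBR KVB_LamP KVB_HalfP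

theorem KVB_CirL : KVB.S_CirL := KVB.tCirL 

theorem KVB_ZP : KVB.S_ZP := KVB.tZP KVB_TRi KVB_Pola KVB_CirL

theorem KVB_PolF : KVB.S_PolF := KVB.tPolF 

theorem KVB_PolX : KVB.S_PolX := KVB.tPolX KVB_Del KVB_Ext KVB_BR KVB_ZP KVB_PolF

theorem KVB_Hei : KVB.S_Hei := KVB.tHei 

theorem KVB_AdC : KVB.S_AdC := KVB.tAdC 

theorem KVB_Itr : KVB.S_Itr := KVB.tItr KVB_CdB

theorem KVB_Eul : KVB.S_Eul := KVB.tEul KVB_CdB KVB_Itr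

theorem KVB_Lin : KVB.S_Lin := KVB.tLin KVB_Eul KVB_FlB

theorem KVB_EvC : KVB.S_EvC := KVB.tEvC KVB_Lin

theorem KVB_Wts : KVB.S_Wts := KVB.tWts KVB_Hei KVB_AdC KVB_EvC

theorem KVB_K5 : KVB.S_K5 := KVB.tK5 KVB_BR KVB_TRi KVB_Pola

theorem KVB_K4 : KVB.S_K4 := KVB.tK4 KVB_BR KVB_LamP KVB_TRi

theorem KVB_K3 : KVB.S_K3 := KVB.tK3 KVB_BR KVB_LamP KVB_TRi KVB_Pola

theorem KVB_Gr : KVB.S_Gr := KVB.tGr KVB_PolX KVB_Wts KVB_K5 KVB_K4 KVB_K3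

theorem KVB_Rela : KVB.S_Rela := KVB.tRela KVB_BR

theorem KVB_Iso : KVB.S_Iso := KVB.tIso KVB_FlB KVB_CdB

theorem KVB_LA1 : KVB.S_LA1 := KVB.tLA1 

theorem KVB_CUm : KVB.S_CUm := KVB.tCUm KVB_CdB

theorem KVB_CUf : KVB.S_CUf := KVB.tCUf KVB_Iso KVB_CUm

theorem KVB_Inj1 : KVB.S_Inj1 := KVB.tInj1 KVB_Rela KVB_Iso KVB_LA1 KVB_CUf

theorem KVB_Inj2 : KVB.S_Inj2 := KVB.tInj2 KVB_Hei KVB_AdC KVB_Lin KVB_Iso KVB_LA1 KVB_CUf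

theorem KVB_FamE : KVB.S_FamE := KVB.tFamE KVB_Gr KVB_Rela KVB_Inj1 KVB_Inj2 KVB_Hei KVB_Lin

theorem KVB_Evl : KVB.S_Evl := KVB.tEvl 

theorem KVB_AdD : KVB.S_AdD := KVB.tAdD KVB_FlB

theorem KVB_Str : KVB.S_Str := KVB.tStr KVB_Evl KVB_AdC KVB_AdD

theorem KVB_DnB : KVB.S_DnB := KVB.tDnB 

theorem KVB_Rep1 : KVB.S_Rep1 := KVB.tRep1 KVB_AdC

theorem KVB_Rep2 : KVB.S_Rep2 := KVB.tRep2 KVB_Evl KVB_AdD KVB_Rep1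

theorem KVB_TauI : KVB.S_TauI := KVB.tTauI KVB_EvC KVB_Rep1 KVB_Rep2

theorem KVB_MsI : KVB.S_MsI := KVB.tMsI KVB_DnB

theorem KVB_CnP : KVB.S_CnP := KVB.tCnP KVB_CdB

theorem KVB_Nrm : KVB.S_Nrm := KVB.tNrm KVB_CdB KVB_CnB KVB_CnP

theorem KVB_Bar : KVB.S_Bar := KVB.tBar 

theorem KVB_Chi : KVB.S_Chi := KVB.tChi 

theorem KVB_DInt : KVB.S_DInt := KVB.tDInt KVB_FlB

theorem KVB_IntB : KVB.S_IntB := KVB.tIntB KVB_MsI KVB_DnB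

theorem KVB_Uni : KVB.S_Uni := KVB.tUni KVB_DnB KVB_Rep1 KVB_Rep2 KVB_TauI KVB_MsI KVB_Nrm KVB_Bar KVB_Chi KVB_DInt KVB_IntB

theorem KVB_E2 : KVB.S_E2 := KVB.tE2 KVB_FamE KVB_Str KVB_Uni KVB_Hei

theorem KVB_Sym0 : KVB.S_Sym0 := KVB.tSym0 KVB_Hei KVB_AdC KVB_Lin KVB_Iso KVB_LA1 KVB_CUm

theorem KVB_SymD : KVB.S_SymD := KVB.tSymD KVB_Sym0 KVB_Hei

theorem KVB_Bsd : KVB.S_Bsd := KVB.tBsd 

theorem KVB_PB : KVB.S_PB := KVB.tPB KVB_TrA KVB_HypS KVB_E2 KVB_SymD KVB_Cay KVB_Bsd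

theorem KV_PB : KV.S_PB := KV.tPB KVB_PB

theorem main : KV.S_MainV := KV.tMainV KP_DimC KP_Coc KP_Pt KV_PA KV_PB

end KVAll
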