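import Pool.Agent.Lib.KV.DefsQ

/-!
# KV (MP_64edc4_ag, all dimensions), block Q: Tarski-Seidenberg and generic properties of
semialgebraic sets and functions
-/

set_option autoImplicit false

open Set Filter Topology Metric

namespace KV

/-! ## The projection theorem -/

/-- **Prem.** Pseudo-division with an even power of the leading coefficient.

PROOF. Induction on `p.natDegree` (strong). If `p.degree < q.degree` take `e = 0, h = 0, r = p`. Otherwise let `b = q.leadingCoeff`, `a = p.leadingCoeff`, `s = p.natDegree - q.natDegree`, `p' = C b * p - C a * X ^ s * q`: its degree is smaller than the degree of `p` (or it is zero, or `p` has degree zero and then `p' = 0`).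
The induction hypothesis for `C b * p'` (degree `≤` the degree of `p'`) gives `C (b ^ (2 e)) * (C b * p') = h q + r`; and `C (b ^ (2 (e + 1))) * p = C (b ^ (2 e)) * (C b * p') + C (b ^ (2 e)) * C b * C a * X ^ s * q`. -/
def S_Prem : Prop := ∀ (ι : Type) (p q : Polynomial (MvPolynomial ι ℝ)), q ≠ 0 →
  ∃ (e : ℕ) (h r : Polynomial (MvPolynomial ι ℝ)),
    Polynomial.C (q.leadingCoeff ^ (2 * e)) * p = h * q + r ∧ r.degree < q.degree

/-- **Theta.** PROOF. The piecewise affine map `t ↦ t` for `t ≤ A` or `t ≥ B`, `A + (t - A) (v - A)/(u - A)` on `[A, u]`, `v + (t - u) (B - v)/(B - u)` on `[u, B]` is strictly monotone and surjective (its inverse is the same construction with `u, v` exchanged): `StrictMono.orderIsoOfSurjective` or an `OrderIso` built from the two maps. -/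
def S_Theta : Prop := ∀ A B u v : ℝ, A < u → u < B → A < v → v < B →
  ∃ θ : ℝ ≃o ℝ, θ u = v ∧ (∀ t ≤ A, θ t = t) ∧ ∀ t, B ≤ t → θ t = t

/-- **Adj.** Uses `Theta`. PROOF. `u = φ ζ`, `v = ζ'`. For `y ∈ F`: `φ y < u ↔ y < ζ ↔ φ y < v` and `φ y ≠ u` (`ζ ∉ F`), `φ y ≠ v`. Let `A` be a number `< min u v` which is `≥` all `φ y`, `y ∈ F`, `y < ζ` (the maximum of these finitely many numbers and of `min u v - 1`), `B > max u v` and `≤` all `φ y`, `y ∈ F`, `ζ < y`. `ψ = φ.trans θ` (first `φ`, then `θ`). -/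
def S_Adj : Prop := ∀ (φ : ℝ ≃o ℝ) (F : Finset ℝ) (ζ ζ' : ℝ), ζ ∉ F →
  (∀ y ∈ F, y < ζ ↔ φ y < ζ') → (∀ y ∈ F, φ y ≠ ζ') →
  ∃ ψ : ℝ ≃o ℝ, ψ ζ = ζ' ∧ ∀ y ∈ F, ψ y = φ y

/-- **SgT.** PROOF. `t ∈ F`: clear. Let `t ∉ F`. `q'` has no zero between `φ t` and `ψ t` (inclusive): if `q'.eval s = 0`, let `y = φ.symm s`; `q.eval y = 0` (the sign is `0`), so `y ∈ F` and `s = φ y = ψ y`; if `φ t ≤ s ≤ ψ t` then `t ≤ y` and `y ≤ t`, so `y = t`, a contradiction; in the same way if `ψ t ≤ s ≤ φ t`.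
So `q'` has the same sign at `φ t` and at `ψ t` (intermediate value theorem). (`q ≠ 0` is not really needed.) -/
def S_SgT : Prop := ∀ (q q' : Polynomial ℝ) (φ ψ : ℝ ≃o ℝ) (F : Finset ℝ),
  (∀ t, SignType.sign (q.eval t) = SignType.sign (q'.eval (φ t))) →
  (∀ t, q.eval t = 0 → t ∈ F) → (∀ y ∈ F, ψ y = φ y) →
  ∀ t, SignType.sign (q.eval t) = SignType.sign (q'.eval (ψ t))

/-- The common hypotheses of the next two statements: the zeros of the derivative of `p` are in `F`,
the signs of the derivatives correspond under `φ`, and the signs of `p`, `p'` correspond on `F`. -/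
structure MD (p p' : Polynomial ℝ) (φ : ℝ ≃o ℝ) (F : Finset ℝ) : Prop where
  deg : p.natDegree = p'.natDegree
  deg0 : 0 < p.natDegree
  lc : SignType.sign p.leadingCoeff = SignType.sign p'.leadingCoeff
  der : ∀ t, SignType.sign ((Polynomial.derivative p).eval t) =
    SignType.sign ((Polynomial.derivative p').eval (φ t))
  zer : ∀ t, (Polynomial.derivative p).eval t = 0 → t ∈ F
  sg : ∀ y ∈ F, SignType.sign (p.eval y) = SignType.sign (p'.eval (φ y))

/-- **NewZ.** A zero of `p` outside `F` corresponds to a zero of `p'`.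

PROOF. Let `a` be the largest element of `F` below `ζ` (or none), `b` the smallest element of `F` above `ζ` (or none), `J = (a, b)` (with `-∞`, `∞`). The derivative of `p` has no zeros in `J`, so it has a constant sign there (say positive; the other case is the same with `-p`, `-p'`), and the derivative of `p'` is positive on `φ J`. `p` is strictly increasing on the closure of `J`, so `p a < 0` if `a` exists and `0 < p b` if `b`
exists; by `sg` the same holds for `p'` at `φ a`, `φ b`. If `a` does not exist, then `p → -∞` at `-∞` : `p` is increasing on a half line `(-∞, b)` and not constant, a polynomial of positive degree tends to `±∞`, so the sign of the leading coefficient times `(-1)^deg` is `-1`; the same for `p'` by `deg`, `lc` (`Polynomial.tendsto_atTop_of_leadingCoeff_nonneg`, composed with `-X`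
for `-∞`). In the same way at `+∞`. So `p'` takes negative and positive values on `φ J` (or at its end points), and by the intermediate value theorem it has a zero `ζ' ∈ φ J` (strictly between). The last two claims: `y ∈ F`, `y < ζ` iff `y ≤ a` iff `φ y ≤ φ a < ζ'`, and `y > ζ` iff `y ≥ b`, `φ y ≥ φ b > ζ'`. -/
def S_NewZ : Prop := ∀ (p p' : Polynomial ℝ) (φ : ℝ ≃o ℝ) (F : Finset ℝ), MD p p' φ F →
  ∀ ζ, p.eval ζ = 0 → ζ ∉ F → ∃ ζ', p'.eval ζ' = 0 ∧ (∀ y ∈ F, y < ζ ↔ φ y < ζ') ∧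
    ∀ y ∈ F, φ y ≠ ζ'

/-- **AllZ.** If all zeros are marked then the signs correspond.

PROOF. `t ∈ F`: `sg`. Let `t ∉ F`, `a`, `b`, `J` as in `NewZ`. `p` has no zeros in `J`, `p'` none in `φ J` (a zero `s ∈ φ J`, `s = φ y`, would give `y ∈ F`). If `a` exists and `p a ≠ 0`: `sign p t = sign p a = sign p' (φ a) = sign p' (φ t)` (no zeros on `[a, t]` and on `[φ a, φ t]`). The same with `b`. If `a` and `b` exist and `p a = p b = 0`: Rolle gives a zero of the derivative in `J`, a contradiction to `zer`.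
If `b` does not exist (and `a` does not exist or `p a = 0`): `p` has no zeros on `(a, ∞)`, so its sign at `t` is the sign of the leading coefficient (limit at `+∞`), the same for `p'`. If `a` does not exist (and `p b = 0`): the sign at `t` is the sign of the limit at `-∞`, determined by the leading coefficient and the parity of the degree. -/
def S_AllZ : Prop := ∀ (p p' : Polynomial ℝ) (φ : ℝ ≃o ℝ) (F : Finset ℝ), MD p p' φ F →
  (∀ t, p.eval t = 0 → t ∈ F) → (∀ t, p'.eval (φ t) = 0 → t ∈ F) →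
  ∀ t, SignType.sign (p.eval t) = SignType.sign (p'.eval (φ t))

/-- **StepL.** The main step. Uses `Adj`, `SgT`, `NewZ`, `AllZ`.

PROOF. Note that `q i = 0` iff `q' i = 0` (all signs are `0`; a polynomial with all values `0` is `0`). Claim: for all `N`, all `φ` and all finite sets `F` such that (a) the signs of `q i`, `q' i` correspond under `φ`, (b) `F` contains the zeros of all nonzero `q i`, (c) `sign (p y) = sign (p' (φ y))` for `y ∈ F`, and (number of roots of `p` not in `F`) `+` (number of roots of `p'` not in `φ '' F`) `≤ N`: the conclusion holds.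
Start: `F` = the union of the (finite) root sets of the nonzero `q i`; (c) is the hypothesis (a zero of a nonzero `q i`). Induction: `MD p p' φ F` holds (`zer` because `derivative p = q i0 ≠ 0`, `natDegree > 0`). If both numbers are `0`: `AllZ`. If `ζ` is a root of `p` not in `F`: `NewZ` gives `ζ'`, `Adj` gives `ψ`; take `insert ζ F`, `ψ`: (a) by `SgT` for `q i ≠ 0`, trivial for `q i = 0 = q' i`;
(c) at `ζ` both are `0`; the first number decreases, the second does not increase (`φ '' F = ψ '' F ⊆ ψ '' insert ζ F`). If `ζ'` is a root of `p'` not in `φ '' F`: `MD p' p φ.symm (F.image φ)` holds, and `NewZ`, `Adj` for it give a root `ζ` of `p` and `ψ'`; take `ψ = ψ'.symm`, `insert ζ F`. -/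
def S_StepL : Prop := ∀ (σ : Type) [Fintype σ] (q q' : σ → Polynomial ℝ) (i0 : σ)
  (p p' : Polynomial ℝ) (φ : ℝ ≃o ℝ), q i0 = Polynomial.derivative p →
  q' i0 = Polynomial.derivative p' → p.natDegree = p'.natDegree → 0 < p.natDegree →
  SignType.sign p.leadingCoeff = SignType.sign p'.leadingCoeff →
  (∀ i t, SignType.sign ((q i).eval t) = SignType.sign ((q' i).eval (φ t))) →
  (∀ i t, q i ≠ 0 → (q i).eval t = 0 →
    SignType.sign (p.eval t) = SignType.sign (p'.eval (φ t))) →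
  ∃ ψ : ℝ ≃o ℝ, (∀ i t, SignType.sign ((q i).eval t) = SignType.sign ((q' i).eval (ψ t))) ∧
    ∀ t, SignType.sign (p.eval t) = SignType.sign (p'.eval (ψ t))

/-- **TSrec.** Uses `Prem`, `StepL`.

PROOF. Say that `S(P)` holds if such a `Q` exists. `P' ⊆ P` and `S(P)` imply `S(P')`. We show by induction on `d`, and for fixed `d` by induction on `n`, that `S(P)` holds if all elements of `P` have `natDegree ≤ d` and at most `n` of them have `natDegree = d`. `d = 0`: all elements are constants `C c`; `Q` = the set of the `coeff p 0`, `φ = OrderIso.refl`. `d ≥ 1`, `n = 0`: the elements have degree `≤ d - 1`; use the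
hypothesis for `d - 1` and `n = card P`. `d ≥ 1`, `n ≥ 1`: if no element has degree `d` we are in the case `n = 0`. Let `p ∈ P` have degree `d`, `R = P.erase p`, `a = p.leadingCoeff`. Truncations: `T(q)` = the finite set of the `eraseLead^[i] q`, `i ≤ q.natDegree + 1`. For `q, t` choose `prem(p, t)` with `C (t.leadingCoeff ^ (2 e)) * p = h t + prem(p, t)`, `degree (prem) < degree t` (`Prem`, `t ≠ 0`).
`R' = R ∪ {derivative p}`, `P1 = R ∪ {p.eraseLead}`, `P2 = R' ∪ {prem(p, t) | q ∈ R', t ∈ T(q), t.natDegree ≥ 1}`. All elements of `P1`, `P2` have degree `≤ d`, and those of degree `d` are in `R`: at most `n - 1`. So there are `Q1`, `Q2`; let `Q = Q1 ∪ Q2 ∪ {a} ∪` (all coefficients of all elements of `R'`). Let `x, x'` have the same signs on `Q`.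
Case `a(x) = 0`: then `a(x') = 0`, `spz x p = spz x (p.eraseLead)` and the same for `x'`, so `RelP P1 x x'` gives `RelP P x x'`. Case `a(x) ≠ 0`: `a(x') ≠ 0` with the same sign; `spz x p` has degree `d` and leading coefficient `a(x)`. `RelP P2 x x'` gives `φ`. Apply `StepL` with `σ = R'` (a `Finset` coerced to a type), `q i = spz x i`, `q' i = spz x' i`, `i0 = derivative p` (`Polynomial.derivative_map`), and `p, p'` the
specializations of `p`. The last hypothesis: let `q ∈ R'`, `spz x q ≠ 0`, `(spz x q).eval y = 0`. Let `t` be the first truncation of `q` whose leading coefficient does not vanish at `x` (it exists because `spz x q ≠ 0`); the leading coefficients of the truncations before it vanish at `x`, hence at `x'` (they are coefficients of `q`, in `Q`), so `spz x q = spz x t`, `spz x' q = spz x' t`. `t.natDegree ≥ 1`, otherwise `spz x q` would be a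
nonzero constant. Evaluate `C (b ^ (2 e)) * p = h t + r`, `r = prem(p, t) ∈ P2`, at `(x, y)`: `b(x)^(2e) p_x(y) = r_x(y)`, so `sign p_x(y) = sign r_x(y)`; at `(x', φ y)`: `(spz x' t).eval (φ y) = 0` (signs), `b(x') ≠ 0`, so `sign p_x'(φ y) = sign r_x'(φ y)`; and `sign r_x(y) = sign r_x'(φ y)`. So `RelP` holds for `R' ∪ {p} ⊇ P`. -/
def S_TSrec : Prop := ∀ (ι : Type) (P : Finset (Polynomial (MvPolynomial ι ℝ))),
  ∃ Q : Finset (MvPolynomial ι ℝ), ∀ x x' : ι → ℝ, SameS Q x x' → RelP P x x'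

/-- **TS1.** Projection along one variable. Uses `TSrec`.

PROOF. `A` is determined by `Q0`. `P` = the image of `Q0` under `MvPolynomial.optionEquivLeft ℝ ι`; `(spz x (optionEquivLeft q)).eval t = eval (cns t x) q` (`MvPolynomial.polynomial_eval_eval₂`, or check it for the algebra homomorphisms on `C` and `X`: `MvPolynomial.induction_on` / `MvPolynomial.algHom_ext`). `Q` from `TSrec`. If `SameS Q x x'` and `cns t x ∈ A`, then `cns (φ t) x' ∈ A`. -/
def S_TS1 : Prop := ∀ (ι : Type) (A : Set (Option ι → ℝ)), SQ A →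
  SQ {x : ι → ℝ | ∃ t : ℝ, cns t x ∈ A}

/-- **TSn.** The Tarski-Seidenberg theorem. Uses `TS1`.

PROOF. Induction on the finite type `κ` (`Finite.induction_empty_option`): for an equivalence `κ ≃ κ'` reindex (`SQ.reidx`); `κ = PEmpty`: `{x | pr x y ∈ A}` with the unique `y` is a preimage under a polynomial map (`SQ.preim` with `MvPolynomial.X` on the left summand and no coordinates on the right one); `Option κ`: `{x | ∃ y : Option κ → ℝ, pr x y ∈ A} = {x | ∃ y' : κ → ℝ, ∃ t, pr x (cns t y') ∈ A}`; apply `TS1` with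
the index type `ι ⊕ κ` (reindexing `ι ⊕ Option κ → Option (ι ⊕ κ)`), then the hypothesis. -/
def S_TSn : Prop := ∀ (ι κ : Type) [Finite κ] (A : Set (ι ⊕ κ → ℝ)), SQ A →
  SQ {x : ι → ℝ | ∃ y : κ → ℝ, pr x y ∈ A}

theorem SQ.ex (h : S_TSn) {ι κ : Type} [Finite κ] {P : (ι → ℝ) → (κ → ℝ) → Prop}
    (hP : SQ {z : ι ⊕ κ → ℝ | P (fun i => z (Sum.inl i)) (fun j => z (Sum.inr j))}) :
    SQ {x : ι → ℝ | ∃ y : κ → ℝ, P x y} := h ι κ _ hP

theorem SQ.all (h : S_TSn) {ι κ : Type} [Finite κ] {P : (ι → ℝ) → (κ → ℝ) → Prop}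
    (hP : SQ {z : ι ⊕ κ → ℝ | P (fun i => z (Sum.inl i)) (fun j => z (Sum.inr j))}) :
    SQ {x : ι → ℝ | ∀ y : κ → ℝ, P x y} := by
  have := (h ι κ _ hP.compl).compl
  have h2 : {x : ι → ℝ | ∃ y : κ → ℝ,
      pr x y ∈ {z : ι ⊕ κ → ℝ | P (fun i => z (Sum.inl i)) (fun j => z (Sum.inr j))}ᶜ}ᶜ =
      {x : ι → ℝ | ∀ y : κ → ℝ, P x y} := by
    ext x; simp
  rwa [h2] at this

/-- Quantification over one real number. -/
theorem SQ.ex1 (h : S_TSn) {ι : Type} {P : (ι → ℝ) → ℝ → Prop}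
    (hP : SQ {z : Option ι → ℝ | P (fun i => z (some i)) (z none)}) :
    SQ {x : ι → ℝ | ∃ t : ℝ, P x t} := by
  have h1 : SQ {x : ι → ℝ | ∃ y : Unit → ℝ, P x (y ())} := by
    refine SQ.ex h ?_
    exact hP.reidx (fun o : Option ι => o.elim (Sum.inr ()) Sum.inl)
  have h2 : {x : ι → ℝ | ∃ y : Unit → ℝ, P x (y ())} = {x : ι → ℝ | ∃ t : ℝ, P x t} := by
    ext x
    exact ⟨fun ⟨y, hy⟩ => ⟨y (), hy⟩, fun ⟨t, ht⟩ => ⟨fun _ => t, ht⟩⟩
  rwa [h2] at h1

theorem SQ.all1 (h : S_TSn) {ι : Type} {P : (ι → ℝ) → ℝ → Prop}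
    (hP : SQ {z : Option ι → ℝ | P (fun i => z (some i)) (z none)}) :
    SQ {x : ι → ℝ | ∀ t : ℝ, P x t} := by
  have := (SQ.ex1 h (P := fun x t => ¬ P x t) hP.compl).compl
  have h2 : {x : ι → ℝ | ∃ t : ℝ, ¬ P x t}ᶜ = {x : ι → ℝ | ∀ t : ℝ, P x t} := by
    ext x; simp
  rwa [h2] at this

/-- Preimages under maps with semialgebraic graph. -/
theorem SF.preim (h : S_TSn) {ι κ : Type} [Finite κ] {f : (ι → ℝ) → (κ → ℝ)} (hf : SF f)
    {A : Set (κ → ℝ)} (hA : SQ A) : SQ {x | f x ∈ A} := by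
  have h1 : SQ {x : ι → ℝ | ∃ y : κ → ℝ, y = f x ∧ y ∈ A} :=
    SQ.ex h (hf.inter (hA.reidx (Sum.inr : κ → ι ⊕ κ)))
  have h2 : {x : ι → ℝ | ∃ y : κ → ℝ, y = f x ∧ y ∈ A} = {x | f x ∈ A} := by
    ext x
    constructor
    · rintro ⟨y, rfl, hy⟩; exact hy
    · intro hx; exact ⟨_, rfl, hx⟩
  rwa [h2] at h1

/-! ## Generic properties -/

/-- **NowD.** PROOF. If `q` vanishes on a non-empty open set then it vanishes on a product of (infinite) intervals, so `q = 0` (`MvPolynomial.funext_set`). -/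
def S_NowD : Prop := ∀ (ι : Type) [Fintype ι] (q : MvPolynomial ι ℝ), q ≠ 0 →
  IsOpen {x : ι → ℝ | MvPolynomial.eval x q ≠ 0} ∧ Dense {x : ι → ℝ | MvPolynomial.eval x q ≠ 0}

/-- **NullZ.** PROOF. (Maybe in Mathlib.) Induction on the number of variables with Fubini: transport along an equivalence `ι ≃ Fin n`, `MvPolynomial.finSuccEquiv`, `MeasureTheory.measure_prod_null` and `MeasureTheory.volume_preserving_piFinSuccAbove`: for `q = ∑ c_i(x) t^i` with some `c_i ≠ 0`, for almost all `x` (induction) `c_i(x) ≠ 0` and then the set of the `t` is finite. -/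
def S_NullZ : Prop := ∀ (ι : Type) [Fintype ι] (q : MvPolynomial ι ℝ), q ≠ 0 →
  MeasureTheory.volume {x : ι → ℝ | MvPolynomial.eval x q = 0} = 0

/-- **Dich.** A semialgebraic set is locally constant off the zero set of a polynomial.

PROOF. `A` is determined by `Q`; `q` = the product of the nonzero elements of `Q`. If `q x ≠ 0` then for `y` near `x` every element of `Q` has the same sign at `y` as at `x` (continuity, `x`-value not zero; or the polynomial is `0`); so `SameS Q x y`, `SameS Q y x`. -/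
def S_Dich : Prop := ∀ (ι : Type) [Fintype ι] (A : Set (ι → ℝ)), SQ A →
  ∃ q : MvPolynomial ι ℝ, q ≠ 0 ∧ ∀ x, MvPolynomial.eval x q ≠ 0 →
    ∀ᶠ y in 𝓝 x, (y ∈ A ↔ x ∈ A)

/-- **Bai.** Uses `NowD`, `Dich`. PROOF. `q_n` from `Dich` for `A n`. The intersection of the dense open sets `{q_n ≠ 0}` is dense (Baire, `dense_iInter_of_isOpen`), so it contains a point `x ∈ O`; `x ∈ A n` for some `n`, and then a neighbourhood of `x` is in `A n`. -/
def S_Bai : Prop := ∀ (ι : Type) [Fintype ι] (O : Set (ι → ℝ)) (A : ℕ → Set (ι → ℝ)),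
  IsOpen O → O.Nonempty → (∀ n, SQ (A n)) → O ⊆ ⋃ n, A n → ∃ n, (interior (A n) ∩ O).Nonempty

/-- **GenP.** Generic points. Uses `NowD`. PROOF. Baire's theorem. -/
def S_GenP : Prop := ∀ (ι : Type) [Fintype ι] (O : Set (ι → ℝ)) (q : ℕ → MvPolynomial ι ℝ),
  IsOpen O → O.Nonempty → (∀ n, q n ≠ 0) → ∃ x ∈ O, ∀ n, MvPolynomial.eval x (q n) ≠ 0

/-- The set `A` of pairs `(t, x)` is, near `(0, x0)` and for `t > 0`, everything or empty. -/
def Ev {ι : Type} [Fintype ι] (A : Set (Option ι → ℝ)) (x0 : ι → ℝ) : Prop :=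
  ∃ δ > 0, (∀ x ∈ ball x0 δ, ∀ t ∈ Ioo (0 : ℝ) δ, cns t x ∈ A) ∨
    ∀ x ∈ ball x0 δ, ∀ t ∈ Ioo (0 : ℝ) δ, cns t x ∉ A

/-- **DL.** Semialgebraic sets near a generic point of the face `t = 0`.

PROOF. `A` is determined by `Q0 ⊆ MvPolynomial (Option ι) ℝ`. For `f ∈ Q0`, `f ≠ 0`, let `F = optionEquivLeft f : Polynomial (MvPolynomial ι ℝ)`, `F ≠ 0`, `F = X ^ m * G`, `G.coeff 0 ≠ 0` (`m` = the smallest index with a nonzero coefficient; `Polynomial.exists_eq_pow_rootMultiplicity_mul_and_not_dvd` or `divX` iterated), so `eval (cns t x) f = t ^ m * g t x`, `g` continuous, `g 0 x = eval x (G.coeff 0)`.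
`q` = the product of the `G.coeff 0`. If `q x0 ≠ 0`: there is `δ` such that all `g` are nonzero with constant sign for `x ∈ ball x0 δ`, `|t| < δ`. So for `t > 0` the signs of all `f ∈ Q0` are constant. -/
def S_DL : Prop := ∀ (ι : Type) [Fintype ι] (A : Set (Option ι → ℝ)), SQ A →
  ∃ q : MvPolynomial ι ℝ, q ≠ 0 ∧ ∀ x0, MvPolynomial.eval x0 q ≠ 0 → Ev A x0

/-- **Sel1.** Selection, one variable. Uses `TSn`.

PROOF. `σ x = t` if `cns t x ∈ A` and `t ≤ t'` for all `t'` with `cns t' x ∈ A` (such a `t` is unique if it exists), `σ x = 0` otherwise. The graph: `z none = σ (z ∘ some)` iff (`z ∈ A` and `∀ t', cns t' (z ∘ some) ∈ A → z none ≤ t'`) or (`z none = 0` and not `∃ t, cns t (z ∘ some) ∈ A ∧ ∀ t', …`); `SQ.ex1`, `SQ.all1`, `SQ.reidx`, `SQ.le`. Compact non-empty sets have a smallest element. -/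
def S_Sel1 : Prop := ∀ (ι : Type) (A : Set (Option ι → ℝ)), SQ A →
  ∃ σ : (ι → ℝ) → ℝ, SQ {z : Option ι → ℝ | z none = σ (fun i => z (some i))} ∧
    ∀ x, IsCompact {t : ℝ | cns t x ∈ A} → (∃ t, cns t x ∈ A) → cns (σ x) x ∈ A

/-- **Sel.** Selection with compact fibres. Uses `TSn`, `Sel1`.

PROOF. Induction on `κ` (`Finite.induction_empty_option`). `Option κ`: `A ⊆ ι ⊕ Option κ → ℝ`. `A1 = {z : Option ι → ℝ | ∃ y' : κ → ℝ, pr (z ∘ some) (cns (z none) y') ∈ A}` has fibres `{t | ∃ y', …}` over `x` which are images of the compact fibres of `A` under the coordinate map `none`, so compact. `Sel1` gives `σ1`. `A2 = {z : ι ⊕ κ → ℝ | pr (z ∘ inl) (cns (σ1 (z ∘ inl)) (z ∘ inr)) ∈ A}` (semialgebraic: `∃ t, t = σ1 x ∧ …`)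
has compact fibres (a closed condition on a coordinate; continuous image of a compact set) over the `x` considered; the induction hypothesis gives `σ2`; `σ x = cns (σ1 x) (σ2 x)`. `SF` for `σ`: both conditions. -/
def S_Sel : Prop := ∀ (ι κ : Type) [Finite κ] (A : Set (ι ⊕ κ → ℝ)), SQ A →
  ∃ σ : (ι → ℝ) → (κ → ℝ), SF σ ∧
    ∀ x, IsCompact {y : κ → ℝ | pr x y ∈ A} → (∃ y, pr x y ∈ A) → pr x (σ x) ∈ A

/-- Real functions with semialgebraic graph. -/
def SF1 {ι : Type} (f : (ι → ℝ) → ℝ) : Prop :=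
  SQ {z : Option ι → ℝ | z none = f (fun i => z (some i))}

/-- **Cnt.** Semialgebraic functions are continuous at generic points. Uses `TSn`, `Dich`, `Bai`, `NowD`.

PROOF. `Dc = {x | ¬ ContinuousAt f x}` is semialgebraic: `x ∈ Dc` iff `¬ ∀ ε > 0, ∃ δ > 0, ∀ y, (∀ i, |y i - x i| < δ) → |f y - f x| < ε` (`f y = s` is expressed with `∃ s`; sup norm on `ι → ℝ`; if `ι` is empty everything is trivial). Claim: `Dc` has empty interior; then (`Dich`) `Dc ⊆ {q = 0}` for some `q ≠ 0`: at a point with `q x ≠ 0`, `x ∈ Dc` a neighbourhood would be in `Dc`. Let `O ⊆ Dc` be open, not empty.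
The sets `{x | f x ∈ [n, n + 1]}`, `n : ℤ`, are semialgebraic (`∃ s`) and cover `O`: `Bai` gives a non-empty open `O1 ⊆ O` on which `f` is bounded. For `N ≥ 1` let `E_N = {x ∈ O1 | ∀ δ > 0, ∃ y y' ∈ ball x δ, 1/N ≤ |f y - f y'|}`: relatively closed in `O1`, and `O1 ⊆ ⋃ E_N` since `f` is discontinuous at all points of `O1`. The `E_N` are semialgebraic, so `Bai` gives `N` and a non-empty open
`O2 ⊆ O1` with `O2 ⊆ E_N`. The sets `{x | f x ∈ [j/(3N), (j+1)/(3N)]}`, `j : ℤ`, cover `O2`: `Bai` gives a non-empty open `O3 ⊆ O2` on which `|f y - f y'| ≤ 1/(3N)`, which contradicts `O3 ⊆ E_N`. -/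
def S_Cnt : Prop := ∀ (ι : Type) [Fintype ι] (f : (ι → ℝ) → ℝ), SF1 f →
  ∃ q : MvPolynomial ι ℝ, q ≠ 0 ∧ ∀ x, MvPolynomial.eval x q ≠ 0 → ContinuousAt f x

/-- **AlgF.** Semialgebraic functions are algebraic. Uses `Dich`, `NowD`.

PROOF. The graph `Γ = {z : Option ι → ℝ | z none = f (z ∘ some)}` is semialgebraic; `Dich` (index type `Option ι`) gives `P ≠ 0`; if `z ∈ Γ` and `P z ≠ 0` then a neighbourhood of `z` is in `Γ`, which is impossible (change `z none`). So `P` vanishes on `Γ`. -/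
def S_AlgF : Prop := ∀ (ι : Type) [Fintype ι] (f : (ι → ℝ) → ℝ), SF1 f →
  ∃ P : MvPolynomial (Option ι) ℝ, P ≠ 0 ∧ ∀ x, MvPolynomial.eval (cns (f x) x) P = 0

/-- **Ana1.** Semialgebraic functions are analytic somewhere in every open set. Uses `TSn`, `Cnt`, `AlgF`, `NowD`, `Dich`.

PROOF. By `Cnt`, `NowD` we may shrink `O` such that `f` is continuous on `O`. Consider the pairs `(P, O')`, `P : Polynomial (MvPolynomial ι ℝ)`, `P ≠ 0`, `O' ⊆ O` open, not empty, with `(spz x P).eval (f x) = 0` for `x ∈ O'`; they exist (`AlgF`, `optionEquivLeft`). Choose one with `P.natDegree` minimal. `P.natDegree ≥ 1` (otherwise `P = C c` and `c` vanishes on `O'`, so `c = 0` by `NowD`). `P' = derivative P ≠ 0` has smaller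
degree, so it does not vanish at all `(x, f x)`, `x ∈ O'`: there is `x0 ∈ O'` with `(spz x0 P').eval (f x0) ≠ 0`. The function `G (t, x) = (spz x P).eval t` is analytic on `ℝ × (ι → ℝ)`, with `∂G/∂t ≠ 0` at `(f x0, x0)`. The map `Φ (t, x) = (G (t, x), x)` has an invertible derivative there; by the inverse function theorem (analytic: `HasStrictFDerivAt.toOpenPartialHomeomorph`, `OpenPartialHomeomorph.analyticAt_symm'`, or
`ContDiffAt … ω`) it has an analytic local inverse `Ψ`, and for `x` near `x0`: `Φ (f x, x) = (0, x)` and `(f x, x)` is near `(f x0, x0)` (continuity of `f` at `x0`), so `f x = (Ψ (0, x)).1`: `f` is analytic at `x0`. -/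
def S_Ana1 : Prop := ∀ (ι : Type) [Fintype ι] (f : (ι → ℝ) → ℝ), SF1 f → ∀ O : Set (ι → ℝ),
  IsOpen O → O.Nonempty → ∃ x ∈ O, AnalyticAt ℝ f x

/-- **AnaV.** The same for maps. Uses `TSn`, `Ana1`. PROOF. The components `x ↦ f x j` are `SF1` (`∃ y, y = f x ∧ t = y j`). Apply `Ana1` to one component after the other: `AnalyticAt` at `x` implies analyticity at all points of a ball (`AnalyticAt.eventually_analyticAt`), a smaller open set (induction on a finite set of indices `j`, with the statement: there is a non-empty open `O' ⊆ O` on which the components in the set are analytic);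
`AnalyticAt.pi`-type lemma (`analyticAt_pi_iff`). -/
def S_AnaV : Prop := ∀ (ι κ : Type) [Fintype ι] [Fintype κ] (f : (ι → ℝ) → (κ → ℝ)), SF f →
  ∀ O : Set (ι → ℝ), IsOpen O → O.Nonempty → ∃ x ∈ O, AnalyticAt ℝ f x

/-! ## Lipschitz properties near the face `t = 0` -/

/-- **Dini.** PROOF. For `ε > 0` let `g1 s = g s - (τ + ε) s`; suppose `g1 b > g1 a`; choose `γ` with `g1 a < γ < g1 b`, `s0 = sup {s ∈ [a, b] | g1 s ≤ γ}`; by continuity `g1 s0 = γ`, `s0 < b`, and `g1 s > γ` for `s ∈ (s0, b]`. The hypothesis at `s0` with `ρ = b - s0` gives `s' ∈ (s0, b)` with `g1 s' - g1 s0 ≤ -ε (s' - s0) < 0`, a contradiction. So `g b - g a ≤ (τ + ε) (b - a)` for all `ε > 0`. -/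
def S_Dini : Prop := ∀ (g : ℝ → ℝ) (a b τ : ℝ), a < b → ContinuousOn g (Icc a b) →
  (∀ s ∈ Ico a b, ∀ ρ > 0, ∃ s' ∈ Ioo s (s + ρ), g s' - g s ≤ τ * (s' - s)) →
  g b - g a ≤ τ * (b - a)

/-- **PLip.** From pointwise to global Lipschitz constants. Uses `Dini`. PROOF. For `x, y ∈ C` the function `g s = f (x + s • (y - x))` on `[0, 1]` is continuous (the hypothesis), and at every `s` all `s' > s` close to `s` satisfy `g s' - g s ≤ τ ‖y - x‖ (s' - s)`; `Dini`; exchange `x` and `y`. -/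
def S_PLip : Prop := ∀ (ι : Type) [Fintype ι] (C : Set (ι → ℝ)) (f : (ι → ℝ) → ℝ) (τ : ℝ),
  Convex ℝ C → 0 ≤ τ → (∀ x ∈ C, ∃ ρ > 0, ∀ y ∈ ball x ρ, |f y - f x| ≤ τ * ‖y - x‖) →
  ∀ x ∈ C, ∀ y ∈ C, |f y - f x| ≤ τ * ‖y - x‖

/-- **ContF.** Continuity near generic points of the face. Uses `TSn`, `Cnt`, `DL`, `NowD`.

PROOF. `Cnt` for `f` (index type `Option ι`) gives `Q ≠ 0` with `f` continuous where `Q ≠ 0`. The set `B = {z | ¬ ContinuousAt f z}` is semialgebraic (as in `Cnt`) and contained in `{Q = 0}`. `DL` for `B`: `q`. Let `q x0 ≠ 0`, `δ` from `Ev B x0`. The alternative that `B` contains all `cns t x`, `x ∈ ball x0 δ`, `t ∈ (0, δ)` is impossible: this is a non-empty open set on which `Q` would vanish (`NowD`). -/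
def S_ContF : Prop := ∀ (ι : Type) [Fintype ι] (f : (Option ι → ℝ) → ℝ), SF1 f →
  ∃ q : MvPolynomial ι ℝ, q ≠ 0 ∧ ∀ x0, MvPolynomial.eval x0 q ≠ 0 →
    ∃ δ > 0, ∀ x ∈ ball x0 δ, ∀ t ∈ Ioo (0 : ℝ) δ, ContinuousAt f (cns t x)

/-- **DirF.** Small difference quotients in the directions of the face. Uses `TSn`, `ContF`, `DL`, `Dini`.

PROOF. `q` = the product of the polynomial from `ContF` and of those from `DL` for the semialgebraic sets `G_(i,±) = {z | ∃ ρ > 0, ∀ s ∈ (0, ρ), τ s ≤ ± (f (z + s e_(some i)) - f z)}` (`i : ι`; `f (…) = r` is expressed with `∃ r`). Let `x0 ∈ O`, `q x0 ≠ 0`, and let `δ` be so small that `ball x0 δ ⊆ O`, `δ < δ0`, `f` is continuous at `cns t x` and each `G_(i,±)` is everything or nothing for `x ∈ ball x0 δ`, `t ∈ (0, δ)`.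
If some `G_(i,+)` is everything: for `0 < t < δ` the function `g s = f (cns t (x0 + s e_i))` on `[0, δ/2]` is continuous and for every `s` and all small `s' > s`: `g s' - g s ≥ τ (s' - s)`; `Dini` for `-g` and `-τ`: `g (δ/2) - g 0 ≥ τ δ/2`, but `|g| ≤ C t`: a contradiction for small `t`. The same for `G_(i,-)` (with `-f`). So all are empty near `x0`: for all `x ∈ ball x0 δ`, `0 < t < δ`, all `ρ > 0` there is `s ∈ (0, ρ)` with
`± (f (cns t (x + s e_i)) - f (cns t x)) < τ s`. For `s ≥ 0` with `x + s e_i ∈ ball x0 δ` (the ball of the sup norm is a box) `Dini` gives `± (f (cns t (x + s e_i)) - f (cns t x)) ≤ τ s`; exchanging the points, the same for `s ≤ 0` with `τ |s|`. -/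
def S_DirF : Prop := ∀ (ι : Type) [Fintype ι] [DecidableEq ι] (f : (Option ι → ℝ) → ℝ), SF1 f →
  ∀ (O : Set (ι → ℝ)) (C δ0 τ : ℝ), IsOpen O → 0 < δ0 → 0 < τ →
  (∀ x ∈ O, ∀ t ∈ Ioo (0 : ℝ) δ0, |f (cns t x)| ≤ C * t) →
  ∃ q : MvPolynomial ι ℝ, q ≠ 0 ∧ ∀ x0 ∈ O, MvPolynomial.eval x0 q ≠ 0 →
    ∃ δ > 0, ∀ (i : ι), ∀ x ∈ ball x0 δ, ∀ s : ℝ, Function.update x i (x i + s) ∈ ball x0 δ →
      ∀ t ∈ Ioo (0 : ℝ) δ, |f (cns t (Function.update x i (x i + s))) - f (cns t x)| ≤ τ * |s|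

/-- **LipS.** Lipschitz constants in the directions of the face tend to zero. Uses `TSn`, `DirF`, `Bai`, `Dich`, `NowD`, `PLip`.

PROOF. For `τ > 0` let `PL(τ, t, x)` mean `∃ ρ > 0, ∀ y ∈ ball x ρ, |f (cns t y) - f (cns t x)| ≤ τ ‖y - x‖` and `Bad(τ) = {x | ∀ δ > 0, ∃ x' ∈ ball x δ, ∃ t ∈ (0, δ), ¬ PL(τ, t, x')}`, `Bad = {x | ∃ τ > 0, x ∈ Bad(τ)}`: semialgebraic; `Bad` is the union of the `Bad(1/N)`. Claim: `Bad(τ) ∩ O` has empty interior: `DirF` with `τ/(2 (card ι + 1))`: at a point `x0 ∈ O` with `q x0 ≠ 0` (dense), for `x, y ∈ ball x0 δ` changing the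
coordinates one after the other (the intermediate points are in the box `ball x0 δ`) gives `|f (cns t y) - f (cns t x)| ≤ τ ‖y - x‖`, so `x0 ∉ Bad(τ)`. By `Bai` `Bad ∩ O` has empty interior (if an open set were in `Bad ∩ O`, some `Bad(1/N)` would contain a non-empty open subset of it). `Dich` for `Bad` and `NowD` give `x0 ∈ O` with a ball `ball x0 (2 δ) ⊆ O` disjoint from `Bad`, `2 δ < δ0`. Let `τ > 0`. Every `x ∈ closedBall x0 δ` is not in
`Bad(τ)`: there is `δ_x` such that `PL(τ, t, x')` for `x' ∈ ball x δ_x`, `0 < t < δ_x`; by compactness there is `δ'` with `PL(τ, t, x')` for all `x' ∈ closedBall x0 δ`, `0 < t < δ'`; `PLip`. -/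
def S_LipS : Prop := ∀ (ι : Type) [Fintype ι] (f : (Option ι → ℝ) → ℝ), SF1 f →
  ∀ (O : Set (ι → ℝ)) (C δ0 : ℝ), IsOpen O → O.Nonempty → 0 < δ0 →
  (∀ x ∈ O, ∀ t ∈ Ioo (0 : ℝ) δ0, |f (cns t x)| ≤ C * t) →
  ∃ x0 ∈ O, ∃ δ > 0, ball x0 δ ⊆ O ∧ ∀ τ > 0, ∃ δ' > 0, ∀ x ∈ ball x0 δ, ∀ x' ∈ ball x0 δ,
    ∀ t ∈ Ioo (0 : ℝ) δ', |f (cns t x) - f (cns t x')| ≤ τ * ‖x - x'‖

/-- **LipT.** Lipschitz constant in the direction `t`. Uses `TSn`, `ContF`, `DL`, `Dini`, `NowD`.

PROOF. `G_± = {z | ∃ ρ > 0, ∀ s ∈ (0, ρ), (C + 1) s ≤ ± (f (z + s e_none) - f z)}` is semialgebraic; by `DL`, `ContF`, `NowD` there is `x0 ∈ O` and `δ < δ0` with `ball x0 δ ⊆ O`, `f` continuous at `cns t x` and `G_±` everything or nothing for `x ∈ ball x0 δ`, `t ∈ (0, δ)`. If `G_+` is everything: `Dini` for `-f (cns · x0)` on `[t1, t]`: `f (cns t x0) - f (cns t1 x0) ≥ (C + 1) (t - t1)`; with `t1 → 0`: `f (cns t x0) ≥ (C + 1) t > C t`,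
a contradiction (`|f (cns t1 x0)| ≤ C t1 → 0`). The same for `G_-`. So both are empty and `Dini` gives the claim. -/
def S_LipT : Prop := ∀ (ι : Type) [Fintype ι] (f : (Option ι → ℝ) → ℝ), SF1 f →
  ∀ (O : Set (ι → ℝ)) (C δ0 : ℝ), IsOpen O → O.Nonempty → 0 < δ0 →
  (∀ x ∈ O, ∀ t ∈ Ioo (0 : ℝ) δ0, |f (cns t x)| ≤ C * t) →
  ∃ x0 ∈ O, ∃ δ > 0, ball x0 δ ⊆ O ∧ ∀ x ∈ ball x0 δ, ∀ t ∈ Ioo (0 : ℝ) δ,
    ∀ t' ∈ Ioo (0 : ℝ) δ, |f (cns t x) - f (cns t' x)| ≤ (C + 1) * |t - t'|

/-- **LipV.** The same for finitely many functions at once. Uses `LipS`, `LipT`.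

PROOF. Induction over the finite set of indices `j`: shrink the open set successively (`O := ball x0 δ` for the next function; the properties are inherited by smaller open sets and smaller `δ`). -/
def S_LipV : Prop := ∀ (ι κ : Type) [Fintype ι] [Fintype κ] (f : κ → (Option ι → ℝ) → ℝ),
  (∀ j, SF1 (f j)) → ∀ (O : Set (ι → ℝ)) (C δ0 : ℝ), IsOpen O → O.Nonempty → 0 < δ0 →
  (∀ j, ∀ x ∈ O, ∀ t ∈ Ioo (0 : ℝ) δ0, |f j (cns t x)| ≤ C * t) →
  ∃ x0 ∈ O, ∃ δ > 0, ball x0 δ ⊆ O ∧ (∀ τ > 0, ∃ δ' > 0, ∀ j, ∀ x ∈ ball x0 δ,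
      ∀ x' ∈ ball x0 δ, ∀ t ∈ Ioo (0 : ℝ) δ', |f j (cns t x) - f j (cns t x')| ≤ τ * ‖x - x'‖) ∧
    ∀ j, ∀ x ∈ ball x0 δ, ∀ t ∈ Ioo (0 : ℝ) δ, ∀ t' ∈ Ioo (0 : ℝ) δ,
      |f j (cns t x) - f j (cns t' x)| ≤ (C + 1) * |t - t'|

end KV
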