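import Pool.Agent.Lib.KP.SpecF
import Pool.Agent.Lib.KV.B.Defs

/-!
# KV (MP_64edc4_ag, all dimensions), final assembly

`S_PA` is the output of part A (blocks Q, K, L, M, C), `S_PB` the output of part B (Vey's theorem).
-/

set_option autoImplicit false

open Set Filter Topology Metric

namespace KV

open KP KVB

/-- **PA.** The output of part A: `U` is biholomorphic to a Siegel domain of the second kind. -/
def S_PA : Prop := ∀ (N n : ℕ) (I : Set (MvPolynomial (Fin N) ℂ)) (U : Set (Cn N))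
  (G : Set (Cn N → Cn N)) (K : Set (Cn N)), 0 < n → IsDom I n U → CoCpt U G K → SemiAlg U →
    ∃ (m k : ℕ) (F : Fin k → Matrix (Fin m) (Fin m) ℂ) (Om : Set (Fin k → ℝ)), m + k = n ∧
      Sie F Om ∧ Biholo U (SDn F Om)

/-- **PB.** The output of part B: Siegel domains with properly discontinuous cocompact groups are
symmetric. -/
def S_PB : Prop := ∀ (N m k : ℕ) (I : Set (MvPolynomial (Fin N) ℂ)) (U : Set (Cn N)),
  IsDom I (m + k) U → 0 < m + k → ∀ (Γ : Type) [Group Γ] [MulAction Γ U],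
    (∀ γ : Γ, ∃ f : Cn N → Cn N, HolOn f U ∧ ∀ u : U, f u = ((γ • u : U) : Cn N)) →
    (∀ Q : Set U, IsCompact Q → {γ : Γ | ((fun u => γ • u) '' Q ∩ Q).Nonempty}.Finite) →
    CompactSpace (Quotient (MulAction.orbitRel Γ U)) →
    ∀ (F : Fin k → Matrix (Fin m) (Fin m) ℂ) (Om : Set (Fin k → ℝ)), Sie F Om →
      Biholo U (SDn F Om) → ∃ D : Set (Cn (m + k)), IsBSD D ∧ Biholo U D

/-- **DimN.** The dimension is at most `N`. -/
def S_DimN : Prop := ∀ (N n : ℕ) (V : Set (Cn N)) (z : Cn N), SmoothAt V n z → n ≤ N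

theorem tDimN : S_DimN := by
  rintro N n V z ⟨hz, c, hc⟩
  obtain ⟨h1, h2⟩ := c.right hz hc
  have h3 : DifferentiableAt ℂ c.psi (c.pi z) := (c.hpsi _ h1).differentiableAt (c.hW.mem_nhds h1)
  have h4 : DifferentiableAt ℂ c.pi (c.psi (c.pi z)) := by
    rw [h2]; exact (c.hpi _ hc).differentiableAt (c.hO.mem_nhds hc)
  have h5 : HasFDerivAt (fun w => c.pi (c.psi w))
      ((fderiv ℂ c.pi (c.psi (c.pi z))).comp (fderiv ℂ c.psi (c.pi z))) (c.pi z) :=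
    h4.hasFDerivAt.comp _ h3.hasFDerivAt
  have h6 : HasFDerivAt (fun w => c.pi (c.psi w)) (ContinuousLinearMap.id ℂ (Cn n)) (c.pi z) := by
    refine (hasFDerivAt_id (c.pi z)).congr_of_eventuallyEq ?_
    filter_upwards [c.hW.mem_nhds h1] with w hw
    exact c.left w hw
  have h7 := h5.unique h6
  have h8 : Function.Injective (fderiv ℂ c.psi (c.pi z)) := by
    intro a b hab
    have ha : fderiv ℂ c.pi (c.psi (c.pi z)) (fderiv ℂ c.psi (c.pi z) a) = a :=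
      congrArg (fun L : Cn n →L[ℂ] Cn n => L a) h7
    have hb : fderiv ℂ c.pi (c.psi (c.pi z)) (fderiv ℂ c.psi (c.pi z) b) = b :=
      congrArg (fun L : Cn n →L[ℂ] Cn n => L b) h7
    rw [← ha, ← hb, hab]
  have h9 := LinearMap.finrank_le_finrank_of_injective
    (f := (fderiv ℂ c.psi (c.pi z)).toLinearMap) h8
  simpa using h9

/-- **MainV.** The theorem. Uses `DimC`, `Coc`, `Pt`, `DimN`, `PA`, `PB`. -/
def S_MainV : Prop := ∀ (N : ℕ) (I : Set (MvPolynomial (Fin N) ℂ)) (U : Set (Cn N)),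
  (∃ O : Set (Cn N), IsOpen O ∧ U = zeroSet I ∩ O) → IsConnected U → Bornology.IsBounded U →
  SemiAlg U → (∀ z ∈ U, ∃ n, SmoothAt (zeroSet I) n z) →
  ∀ (Γ : Type) [Group Γ] [MulAction Γ U],
    (∀ γ : Γ, ∃ f : Cn N → Cn N, HolOn f U ∧ ∀ u : U, f u = ((γ • u : U) : Cn N)) →
    (∀ Q : Set U, IsCompact Q → {γ : Γ | ((fun u => γ • u) '' Q ∩ Q).Nonempty}.Finite) →
    CompactSpace (Quotient (MulAction.orbitRel Γ U)) →
    ∃ (n : ℕ) (D : Set (Cn n)), (∀ z ∈ U, SmoothAt (zeroSet I) n z) ∧ IsBSD D ∧ Biholo U D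

theorem tMainV (h1 : S_DimC) (h2 : S_Coc) (h3 : S_Pt) (h4 : S_PA) (h5 : S_PB) : S_MainV := by
  intro N I U hO hc hb hs hd Γ _ _ hG hpd hq
  have hUV : U ⊆ zeroSet I := by
    obtain ⟨O, -, h⟩ := hO
    rw [h]; exact inter_subset_left
  have hd' : ∀ z ∈ U, ∃ n ≤ N, SmoothAt (zeroSet I) n z := by
    intro z hz
    obtain ⟨n, hn⟩ := hd z hz
    exact ⟨n, tDimN N n _ z hn, hn⟩
  obtain ⟨n, -, hn'⟩ := h1 N N (zeroSet I) U hUV hc hd'
  have hU : IsDom I n U := ⟨hO, hn', hc, hb⟩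
  obtain ⟨G, K, hGK⟩ := h2 N n I U hU Γ hG hq
  rcases Nat.eq_zero_or_pos n with rfl | hn
  · obtain ⟨D, hD, hD'⟩ := h3 N I U hU
    exact ⟨0, D, hn', hD, hD'⟩
  · obtain ⟨m, k, F, Om, hmk, hF, hB⟩ := h4 N n I U G K hn hU hGK hs
    subst hmk
    obtain ⟨D, hD, hD'⟩ := h5 N m k I U hU hn Γ hG hpd hq F Om hF hB
    exact ⟨m + k, D, hn', hD, hD'⟩

universe u

theorem main_univ (hM : S_MainV) (N : ℕ) (I : Set (MvPolynomial (Fin N) ℂ)) (U : Set (Cn N))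
    (hopen : ∃ O : Set (Cn N), IsOpen O ∧ U = zeroSet I ∩ O) (hconn : IsConnected U)
    (hbdd : Bornology.IsBounded U) (hsemi : SemiAlg U)
    (hreg : ∀ z ∈ U, ∃ n, SmoothAt (zeroSet I) n z)
    (Γ : Type u) [Group Γ] [MulAction Γ U]
    (hhol : ∀ γ : Γ, ∃ f : Cn N → Cn N, HolOn f U ∧ ∀ u : U, f u = ((γ • u : U) : Cn N))
    (hpd : ∀ Q : Set U, IsCompact Q → {γ : Γ | ((fun u => γ • u) '' Q ∩ Q).Nonempty}.Finite)
    (hcpt : CompactSpace (Quotient (MulAction.orbitRel Γ U))) :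
    ∃ (n : ℕ) (D : Set (Cn n)), (∀ z ∈ U, SmoothAt (zeroSet I) n z) ∧ IsBSD D ∧ Biholo U D := by
  let φ : Γ →* Equiv.Perm U := MulAction.toPermHom Γ U
  have hφ : ∀ (γ : Γ) (u : U), φ γ u = γ • u := fun γ u => rfl
  have h1 : ∀ γ : φ.range, ∃ f : Cn N → Cn N, HolOn f U ∧
      ∀ u : U, f u = ((γ • u : U) : Cn N) := by
    rintro ⟨g, γ, rfl⟩
    obtain ⟨f, hf, hf'⟩ := hhol γ
    exact ⟨f, hf, fun u => hf' u⟩
  have h2 : MulAction.orbitRel φ.range U = MulAction.orbitRel Γ U := by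
    ext x y
    rw [MulAction.orbitRel_apply, MulAction.orbitRel_apply]
    constructor
    · rintro ⟨⟨g, γ, rfl⟩, h⟩
      exact ⟨γ, h⟩
    · rintro ⟨γ, h⟩
      exact ⟨⟨φ γ, γ, rfl⟩, h⟩
  have h3 : CompactSpace (Quotient (MulAction.orbitRel φ.range U)) := by
    rw [h2]; exact hcpt
  have h4 : ∀ Q : Set U, IsCompact Q →
      {γ : φ.range | ((fun u => γ • u) '' Q ∩ Q).Nonempty}.Finite := by
    intro Q hQ
    refine ((hpd Q hQ).image φ.rangeRestrict).subset ?_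
    rintro ⟨g, γ, rfl⟩ hg
    exact ⟨γ, hg, rfl⟩
  exact hM N I U hopen hconn hbdd hsemi hreg φ.range h1 h4 h3

end KV
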